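import Pool.Agent.Lib.MP_cb27ba_nt.RU.Spec4

section
/-!
# MP_cb27ba_nt, project RU: the theorem in the words of Q1
-/
set_option autoImplicit false

open Finset

namespace MPcb27.RU2

/-- Q1's form of the theorem -/
theorem q1form (hO : FinalOP4) (δ ε : ℝ) (hδ : 0 < δ) (hε : 0 < ε) : ∃ τ : ℝ, 0 < τ ∧ ∃ P : ℕ,
    ∀ (p : ℕ) [Fact p.Prime], P ≤ p → ∀ A : Finset (ZMod p), (p : ℝ) ^ δ < #A →
      ∃ E : Finset (DirichletCharacter ℂ p),
        (#E : ℝ) ≤ (p : ℝ) ^ ε * max 1 ((p : ℝ) / (#A : ℝ) ^ 2) ∧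
        ∀ χ ∉ E, ∀ X ⊆ A, (#A : ℝ) ^ (1 - τ) ≤ #X →
          ‖∑ a ∈ X, ∑ b ∈ X, χ (a - b)‖ < (#X : ℝ) ^ (2 - τ) := by
  obtain ⟨C, hC1, hC⟩ := hO
  obtain ⟨k, hk⟩ : ∃ k : ℕ, 1 ≤ k ∧ (1 / 2 : ℝ) ^ k ≤ ε / 4 := by
    obtain ⟨n, hn⟩ := exists_pow_lt_of_lt_one (show (0 : ℝ) < ε / 4 by linarith)
      (show (1 / 2 : ℝ) < 1 by norm_num)
    refine ⟨n + 1, by omega, ?_⟩
    have h1 : (1 / 2 : ℝ) ^ (n + 1) ≤ (1 / 2 : ℝ) ^ n :=
      pow_le_pow_of_le_one (by norm_num) (by norm_num) (by omega)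
    linarith
  obtain ⟨hk1, hk2⟩ := hk
  set M : ℝ := 8 * k + 2 with hM
  have hM0 : 0 < M := by positivity
  set t : ℝ := min (ε / (4 * M)) (δ / 8) with ht
  have ht0 : 0 < t := lt_min (by positivity) (by linarith)
  have ht1 : t ≤ ε / (4 * M) := min_le_left _ _
  have ht2 : t ≤ δ / 8 := min_le_right _ _
  -- the size of the constants
  have hlim : ∀ᶠ x : ℝ in Filter.atTop, C ^ k * (1 + Real.log x) ^ 4 ≤ x ^ (ε / 4) := by
    have h1 : (fun x : ℝ => 1 + Real.log x) =o[Filter.atTop] fun x : ℝ => x ^ (ε / 32) := by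
      refine Asymptotics.IsLittleO.add ?_ (isLittleO_log_rpow_atTop (by linarith))
      rw [Asymptotics.isLittleO_const_left]
      right
      exact tendsto_norm_atTop_atTop.comp (tendsto_rpow_atTop (by linarith))
    have h2 := h1.pow (n := 4) (by norm_num)
    have h3 : (fun x : ℝ => C ^ k * (1 + Real.log x) ^ 4) =o[Filter.atTop]
        fun x : ℝ => (x ^ (ε / 32)) ^ 4 := h2.const_mul_left _
    have h4 := h3.bound (show (0 : ℝ) < 1 by norm_num)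
    filter_upwards [h4, Filter.eventually_ge_atTop 1] with x hx hx1
    rw [one_mul, Real.norm_eq_abs, Real.norm_eq_abs] at hx
    refine (le_abs_self _).trans (hx.trans ?_)
    rw [abs_of_nonneg (by positivity), ← Real.rpow_natCast, ← Real.rpow_mul (by linarith)]
    refine Real.rpow_le_rpow_of_exponent_le hx1 ?_
    push_cast
    linarith
  have hlim2 : ∀ᶠ x : ℝ in Filter.atTop, 4 ≤ x ^ (δ / 2) :=
    (tendsto_rpow_atTop (by linarith)).eventually_ge_atTop 4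
  obtain ⟨X0, hX0⟩ := Filter.eventually_atTop.1 (hlim.and hlim2)
  refine ⟨t / 8, by positivity, ⌈X0⌉₊ + 2, ?_⟩
  intro p _ hp A hA'
  have hp1 : (1 : ℝ) < p := by
    have : 1 < p := by omega
    exact_mod_cast this
  have hp0 : (0 : ℝ) < p := by linarith
  have hpX : X0 ≤ p := by
    have h1 : ((⌈X0⌉₊ + 2 : ℕ) : ℝ) ≤ p := by exact_mod_cast hp
    have h2 := Nat.le_ceil X0
    push_cast at h1
    linarith
  have hpd : 0 < (p : ℝ) ^ δ := Real.rpow_pos_of_pos hp0 _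
  have hA0 : (0 : ℝ) < #A := hpd.trans hA'
  have hA : A.Nonempty := by
    rw [← card_pos]
    exact_mod_cast hA0
  have hA1 : (1 : ℝ) ≤ #A := by exact_mod_cast hA.card_pos
  have hAp : (#A : ℝ) ≤ p := by
    have := card_le_univ A
    rw [ZMod.card] at this
    exact_mod_cast this
  have hΔ0 : 0 < (p : ℝ) ^ (-t) := Real.rpow_pos_of_pos hp0 _
  have hΔ1 : (p : ℝ) ^ (-t) ≤ 1 := Real.rpow_le_one_of_one_le_of_nonpos hp1.le (by linarith)
  have hmin : 4 ≤ ((p : ℝ) ^ (-t)) ^ 4 * min (#A : ℝ) #A := by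
    rw [min_self]
    have h1 : ((p : ℝ) ^ (-t)) ^ 4 * (p : ℝ) ^ δ = (p : ℝ) ^ (δ - 4 * t) := by
      rw [← Real.rpow_natCast, ← Real.rpow_mul hp0.le, ← Real.rpow_add hp0]
      congr 1
      push_cast
      ring
    calc (4 : ℝ) ≤ (p : ℝ) ^ (δ / 2) := (hX0 p hpX).2
      _ ≤ (p : ℝ) ^ (δ - 4 * t) := Real.rpow_le_rpow_of_exponent_le hp1.le (by linarith)
      _ = ((p : ℝ) ^ (-t)) ^ 4 * (p : ℝ) ^ δ := h1.symm
      _ ≤ _ := mul_le_mul_of_nonneg_left hA'.le (by positivity)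
  obtain ⟨E, hE1, hE2⟩ := hC p A A hA hA k ((p : ℝ) ^ (-t)) hk1 hΔ0 hΔ1 hmin
  refine ⟨E, ?_, ?_⟩
  · refine hE1.trans ?_
    have h0 : (0 : ℝ) ≤ max 1 ((p : ℝ) / (#A : ℝ) ^ 2) := le_trans zero_le_one (le_max_left _ _)
    rw [← pow_two (#A : ℝ)]
    refine mul_le_mul_of_nonneg_right ?_ h0
    have h1 : C ^ k * (1 + Real.log p) ^ 4 ≤ (p : ℝ) ^ (ε / 4) := (hX0 p hpX).1
    have h2 : (((p : ℝ) ^ (-t)) ^ (8 * k + 2))⁻¹ ≤ (p : ℝ) ^ (ε / 4) := by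
      rw [← Real.rpow_natCast, ← Real.rpow_mul hp0.le, ← Real.rpow_neg hp0.le]
      refine Real.rpow_le_rpow_of_exponent_le hp1.le ?_
      have h3 : ((8 * k + 2 : ℕ) : ℝ) = M := by rw [hM]; push_cast; ring
      rw [h3]
      have h4 : t * M ≤ ε / (4 * M) * M := mul_le_mul_of_nonneg_right ht1 hM0.le
      have h5 : ε / (4 * M) * M = ε / 4 := by field_simp
      linarith
    have h3 : (p : ℝ) ^ ((1 / 2 : ℝ) ^ k) ≤ (p : ℝ) ^ (ε / 4) :=
      Real.rpow_le_rpow_of_exponent_le hp1.le hk2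
    have hq : 0 ≤ (p : ℝ) ^ (ε / 4) := (Real.rpow_pos_of_pos hp0 _).le
    calc C ^ k * (1 + Real.log p) ^ 4 * (((p : ℝ) ^ (-t)) ^ (8 * k + 2))⁻¹ *
          (p : ℝ) ^ ((1 / 2 : ℝ) ^ k)
        ≤ (p : ℝ) ^ (ε / 4) * (p : ℝ) ^ (ε / 4) * (p : ℝ) ^ (ε / 4) := by
          refine mul_le_mul (mul_le_mul h1 h2 (by positivity) hq) h3
            (Real.rpow_pos_of_pos hp0 _).le ?_
          positivity
      _ = (p : ℝ) ^ (3 * ε / 4) := by
          rw [← Real.rpow_add hp0, ← Real.rpow_add hp0]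
          congr 1
          ring
      _ ≤ (p : ℝ) ^ ε := Real.rpow_le_rpow_of_exponent_le hp1.le (by linarith)
  · intro χ hχ X hXA hX
    have hX0' : (0 : ℝ) < #X := (Real.rpow_pos_of_pos hA0 _).trans_le hX
    have hXA' : (#X : ℝ) ≤ #A := by exact_mod_cast card_le_card hXA
    have h1 := hE2 χ hχ (fun a => if a ∈ X then 1 else 0) (fun b => if b ∈ X then 1 else 0)
    have hs : ∑ a ∈ A, ‖(if a ∈ X then (1 : ℂ) else 0)‖ ^ 2 = #X := by
      have h2 : ∀ a ∈ A, ‖(if a ∈ X then (1 : ℂ) else 0)‖ ^ 2 = if a ∈ X then (1 : ℝ) else 0 := by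
        intro a _
        by_cases h : a ∈ X
        · rw [if_pos h, if_pos h, norm_one, one_pow]
        · rw [if_neg h, if_neg h, norm_zero]
          norm_num
      rw [sum_congr rfl h2, sum_ite_mem, inter_eq_right.2 hXA, sum_const, nsmul_eq_mul, mul_one]
    have hS : ∑ a ∈ A, ∑ b ∈ A, (if a ∈ X then (1 : ℂ) else 0) * (if b ∈ X then 1 else 0) *
        χ (a - b) = ∑ a ∈ X, ∑ b ∈ X, χ (a - b) := by
      have h2 : ∀ a ∈ A, ∑ b ∈ A, (if a ∈ X then (1 : ℂ) else 0) * (if b ∈ X then 1 else 0) *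
          χ (a - b) = if a ∈ X then ∑ b ∈ X, χ (a - b) else 0 := by
        intro a _
        split_ifs with h
        · have h3 : ∀ b ∈ A, (1 : ℂ) * (if b ∈ X then 1 else 0) * χ (a - b) =
              if b ∈ X then χ (a - b) else 0 := by
            intro b _
            split_ifs <;> ring
          rw [sum_congr rfl h3, sum_ite_mem, inter_eq_right.2 hXA]
        · simp
      rw [sum_congr rfl h2, sum_ite_mem, inter_eq_right.2 hXA]
    rw [hS, hs, Real.mul_self_sqrt hX0'.le, Real.sqrt_mul_self hA0.le] at h1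
    refine h1.trans_lt ?_
    -- p^(-t) |A| |X| < |X|^(2 - t/8)
    have hX1 : (1 : ℝ) ≤ #X := by
      have : 0 < #X := by exact_mod_cast hX0'
      exact_mod_cast this
    have h3 : (#X : ℝ) ^ (2 - t / 8) = (#X : ℝ) ^ (-(t / 8)) * ((#X : ℝ) * #X) := by
      rw [show (2 - t / 8 : ℝ) = -(t / 8) + 2 by ring, Real.rpow_add hX0']
      congr 1
      rw [← pow_two]
      exact_mod_cast Real.rpow_natCast (#X : ℝ) 2
    have h4 : (#A : ℝ) ≤ (p : ℝ) ^ (t / 8) * #X := by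
      have h5 : (#A : ℝ) = (#A : ℝ) ^ (t / 8) * (#A : ℝ) ^ (1 - t / 8) := by
        rw [← Real.rpow_add hA0, show t / 8 + (1 - t / 8) = (1 : ℝ) by ring, Real.rpow_one]
      have ht8 : 0 ≤ t / 8 := by linarith only [ht0]
      have h6 : (#A : ℝ) ^ (t / 8) ≤ (p : ℝ) ^ (t / 8) :=
        Real.rpow_le_rpow hA0.le hAp ht8
      calc (#A : ℝ) = (#A : ℝ) ^ (t / 8) * (#A : ℝ) ^ (1 - t / 8) := h5
        _ ≤ (p : ℝ) ^ (t / 8) * #X := mul_le_mul h6 hX (Real.rpow_pos_of_pos hA0 _).le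
          (Real.rpow_pos_of_pos hp0 _).le
    have h7 : (p : ℝ) ^ (-(t / 8)) ≤ (#X : ℝ) ^ (-(t / 8)) :=
      Real.rpow_le_rpow_of_nonpos hX0' (hXA'.trans hAp) (neg_nonpos.2 (by positivity))
    rw [h3]
    calc (p : ℝ) ^ (-t) * #A * #X ≤ (p : ℝ) ^ (-t) * ((p : ℝ) ^ (t / 8) * #X) * #X := by
          refine mul_le_mul_of_nonneg_right (mul_le_mul_of_nonneg_left h4 hΔ0.le) hX0'.le
      _ = (p : ℝ) ^ (-t + t / 8) * ((#X : ℝ) * #X) := by
          rw [Real.rpow_add hp0]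
          ring
      _ < (p : ℝ) ^ (-(t / 8)) * ((#X : ℝ) * #X) := by
          refine mul_lt_mul_of_pos_right ?_ (by positivity)
          exact Real.rpow_lt_rpow_of_exponent_lt hp1 (by linarith)
      _ ≤ (#X : ℝ) ^ (-(t / 8)) * ((#X : ℝ) * #X) :=
          mul_le_mul_of_nonneg_right h7 (by positivity)

end MPcb27.RU2
end

section
/-!
# BAD4: few exceptions for small sets, from ITE4, MOM, FOUR4, INJ
-/
set_option autoImplicit false

namespace MPcb27.RU2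

open Finset

namespace BAD4

/-- the inner sum of FOUR4 -/
noncomputable def S4 {p : ℕ} (A B : Finset (ZMod p)) (χ : DirichletCharacter ℂ p)
    (q : ZMod p × ZMod p) : ℝ :=
  ‖∑ a ∈ A, ∑ b ∈ B, χ (dv (ua q.1 q.2) (vb q.1 q.2) a b)‖

/-- the sum of FOUR4 -/
noncomputable def N4 {p : ℕ} (A B : Finset (ZMod p)) (χ : DirichletCharacter ℂ p) : ℝ :=
  ∑ q ∈ A ×ˢ B, S4 A B χ q

theorem S4_nonneg {p : ℕ} (A B : Finset (ZMod p)) (χ : DirichletCharacter ℂ p)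
    (q : ZMod p × ZMod p) : 0 ≤ S4 A B χ q := norm_nonneg _

theorem N4_nonneg {p : ℕ} (A B : Finset (ZMod p)) (χ : DirichletCharacter ℂ p) :
    0 ≤ N4 A B χ := sum_nonneg fun _ _ => S4_nonneg _ _ _ _

/-- Hölder's inequality -/
theorem N4_pow {p : ℕ} (A B : Finset (ZMod p)) (hA : A.Nonempty) (hB : B.Nonempty)
    (χ : DirichletCharacter ℂ p) (k : ℕ) (hk : 1 ≤ k) :
    N4 A B χ ^ (2 * k) ≤ ((#A : ℝ) * #B) ^ (2 * k - 1) * ∑ q ∈ A ×ˢ B, S4 A B χ q ^ (2 * k) := by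
  have h := pow_sum_div_card_le_sum_pow (s := A ×ˢ B) (f := S4 A B χ)
    (fun q _ => S4_nonneg A B χ q) (2 * k - 1)
  have e : 2 * k - 1 + 1 = 2 * k := by omega
  rw [e] at h
  have hA' : (0 : ℝ) < #A := by exact_mod_cast hA.card_pos
  have hB' : (0 : ℝ) < #B := by exact_mod_cast hB.card_pos
  have hc : ((#(A ×ˢ B) : ℕ) : ℝ) = (#A : ℝ) * #B := by
    rw [card_product]
    push_cast
    ring
  rw [hc, div_le_iff₀ (by positivity)] at h
  calc N4 A B χ ^ (2 * k) ≤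
      (∑ q ∈ A ×ˢ B, S4 A B χ q ^ (2 * k)) * ((#A : ℝ) * #B) ^ (2 * k - 1) := h
    _ = _ := mul_comm _ _

/-- the bound for the norm -/
theorem nb_of_N4 (h3 : SpecFOUR4) {p : ℕ} [Fact p.Prime] (A B : Finset (ZMod p))
    (χ : DirichletCharacter ℂ p) (Δ : ℝ) (hΔ : 0 < Δ)
    (h : N4 A B χ + ((#A : ℝ) * #B) * ((#A : ℝ) + #B) ≤ Δ ^ 4 * ((#A : ℝ) * #B) ^ 2) :
    TU.NB χ A B (Δ * Real.sqrt ((#A : ℝ) * #B)) := by
  intro α β
  have h1 := h3 p A B χ α β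
  have e1 : ∑ a' ∈ A, ∑ b' ∈ B,
      (‖∑ a ∈ A, ∑ b ∈ B, χ (dv (ua a' b') (vb a' b') a b)‖ + (#A : ℝ) + #B) =
        N4 A B χ + ((#A : ℝ) * #B) * ((#A : ℝ) + #B) := by
    unfold N4 S4
    rw [sum_product]
    simp only [sum_add_distrib, sum_const, nsmul_eq_mul]
    ring
  rw [e1] at h1
  set x := ∑ a ∈ A, ‖α a‖ ^ 2 with hx
  set y := ∑ b ∈ B, ‖β b‖ ^ 2 with hy
  have hx0 : 0 ≤ x := sum_nonneg fun _ _ => by positivity
  have hy0 : 0 ≤ y := sum_nonneg fun _ _ => by positivity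
  set n := (#A : ℝ) * #B with hn
  have hn0 : 0 ≤ n := by positivity
  have h2 : ‖∑ a ∈ A, ∑ b ∈ B, α a * β b * χ (a - b)‖ ^ 4 ≤
      (Δ * Real.sqrt n * (Real.sqrt x * Real.sqrt y)) ^ 4 := by
    have e2 : (Δ * Real.sqrt n * (Real.sqrt x * Real.sqrt y)) ^ 4 =
        x ^ 2 * y ^ 2 * (Δ ^ 4 * n ^ 2) := by
      have s1 : Real.sqrt n ^ 4 = n ^ 2 := by
        rw [show (4 : ℕ) = 2 * 2 from rfl, pow_mul, Real.sq_sqrt hn0]
      have s2 : Real.sqrt x ^ 4 = x ^ 2 := by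
        rw [show (4 : ℕ) = 2 * 2 from rfl, pow_mul, Real.sq_sqrt hx0]
      have s3 : Real.sqrt y ^ 4 = y ^ 2 := by
        rw [show (4 : ℕ) = 2 * 2 from rfl, pow_mul, Real.sq_sqrt hy0]
      rw [mul_pow, mul_pow, mul_pow, s1, s2, s3]
      ring
    rw [e2]
    exact h1.trans (mul_le_mul_of_nonneg_left h (by positivity))
  exact le_of_pow_le_pow_left₀ (by norm_num) (by positivity) h2

end BAD4

open BAD4 in
theorem specBAD4 (h1 : SpecITE4) (h2 : SpecMOM) (h3 : SpecFOUR4) (h4 : SpecINJ) : SpecBAD4 := by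
  classical
  obtain ⟨C, hC, hI⟩ := h1
  refine ⟨64 * C, by linarith, ?_⟩
  intro p hp A B hA hB hc k Δ hk hΔ hΔ1 hmin
  have hp1 : (1 : ℝ) ≤ p := by exact_mod_cast hp.out.one_lt.le
  have hp0 : (0 : ℝ) < p := by linarith
  have hAc : 1 ≤ #A := hA.card_pos
  have hBc : 1 ≤ #B := hB.card_pos
  have hAr : (1 : ℝ) ≤ #A := by exact_mod_cast hAc
  have hBr : (1 : ℝ) ≤ #B := by exact_mod_cast hBc
  set n : ℝ := (#A : ℝ) * #B with hn
  have hn1 : 1 ≤ n := by nlinarith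
  have hn0 : 0 < n := by linarith
  have hnp : n ≤ p := by
    have h5 : #A * #B ≤ p := by omega
    rw [hn]
    exact_mod_cast h5
  set h : ℝ := (1 / 2 : ℝ) ^ k with hh
  have hh0 : 0 < h := by positivity
  set L : ℝ := (1 + Real.log p) ^ 4 with hL
  have hL0 : 0 < L := by
    have := Real.log_nonneg hp1
    positivity
  set K : ℝ := C * (k : ℝ) ^ 4 * L with hK
  have hk0 : (0 : ℝ) < k := by exact_mod_cast hk
  have hK0 : 0 < K := by positivity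
  -- the diagonal terms
  have hdiag : n * ((#A : ℝ) + #B) ≤ Δ ^ 4 * n ^ 2 / 2 := by
    have hΔ4 : 0 < Δ ^ 4 := by positivity
    have g1 : 4 ≤ Δ ^ 4 * #A := hmin.trans (mul_le_mul_of_nonneg_left (min_le_left _ _) hΔ4.le)
    have g2 : 4 ≤ Δ ^ 4 * #B := hmin.trans (mul_le_mul_of_nonneg_left (min_le_right _ _) hΔ4.le)
    have g3 : 4 * (#B : ℝ) ≤ Δ ^ 4 * n := by rw [hn]; nlinarith
    have g4 : 4 * (#A : ℝ) ≤ Δ ^ 4 * n := by rw [hn]; nlinarith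
    have g5 : (#A : ℝ) + #B ≤ Δ ^ 4 * n / 2 := by linarith
    calc n * ((#A : ℝ) + #B) ≤ n * (Δ ^ 4 * n / 2) := mul_le_mul_of_nonneg_left g5 hn0.le
      _ = Δ ^ 4 * n ^ 2 / 2 := by ring
  refine ⟨univ.filter fun χ => Δ ^ 4 * n ^ 2 / 2 < N4 A B χ, ?_, ?_⟩
  · -- the count
    have c1 : (#(univ.filter fun χ : DirichletCharacter ℂ p => Δ ^ 4 * n ^ 2 / 2 < N4 A B χ) : ℝ) *
        (Δ ^ 4 * n ^ 2 / 2) ^ (2 * k) ≤
          n ^ (2 * k - 1) * (n * (p * (K * n ^ (2 * (k : ℝ) - 1 + h)))) := by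
      calc (#(univ.filter fun χ : DirichletCharacter ℂ p => Δ ^ 4 * n ^ 2 / 2 < N4 A B χ) : ℝ) *
          (Δ ^ 4 * n ^ 2 / 2) ^ (2 * k)
          = ∑ χ ∈ univ.filter fun χ : DirichletCharacter ℂ p => Δ ^ 4 * n ^ 2 / 2 < N4 A B χ,
              (Δ ^ 4 * n ^ 2 / 2) ^ (2 * k) := by rw [sum_const, nsmul_eq_mul]
        _ ≤ ∑ χ ∈ univ.filter fun χ : DirichletCharacter ℂ p => Δ ^ 4 * n ^ 2 / 2 < N4 A B χ,
              N4 A B χ ^ (2 * k) :=
            sum_le_sum fun χ hχ => pow_le_pow_left₀ (by positivity) (mem_filter.1 hχ).2.le _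
        _ ≤ ∑ χ : DirichletCharacter ℂ p, N4 A B χ ^ (2 * k) :=
            sum_le_sum_of_subset_of_nonneg (filter_subset _ _)
              fun χ _ _ => pow_nonneg (N4_nonneg A B χ) _
        _ ≤ ∑ χ : DirichletCharacter ℂ p, n ^ (2 * k - 1) * ∑ q ∈ A ×ˢ B, S4 A B χ q ^ (2 * k) :=
            sum_le_sum fun χ _ => N4_pow A B hA hB χ k hk
        _ = n ^ (2 * k - 1) * ∑ q ∈ A ×ˢ B, ∑ χ : DirichletCharacter ℂ p, S4 A B χ q ^ (2 * k) := by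
            rw [← mul_sum, sum_comm]
        _ ≤ n ^ (2 * k - 1) * ∑ q ∈ A ×ˢ B, (p * (K * n ^ (2 * (k : ℝ) - 1 + h))) := by
            refine mul_le_mul_of_nonneg_left (sum_le_sum fun q _ => ?_) (by positivity)
            refine (h2 p (ua q.1 q.2) (vb q.1 q.2) A B k).trans ?_
            exact mul_le_mul_of_nonneg_left
              (hI k hk p _ _ A B (h4 p A B q.1 q.2) hc (Nat.mul_pos hAc hBc)) hp0.le
        _ = n ^ (2 * k - 1) * (n * (p * (K * n ^ (2 * (k : ℝ) - 1 + h)))) := by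
            rw [sum_const, card_product, nsmul_eq_mul]
            push_cast
            rw [hn]
    have e1 : n ^ (2 * (k : ℝ) - 1 + h) = n ^ (2 * k) * n ^ h / n := by
      rw [Real.rpow_add hn0, Real.rpow_sub hn0, Real.rpow_one]
      have : n ^ (2 * (k : ℝ)) = n ^ (2 * k) := by
        rw [← Real.rpow_natCast]
        congr 1
        push_cast
        ring
      rw [this]
      ring
    have e2 : n ^ (2 * k - 1) * n = n ^ (2 * k) := by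
      rw [← pow_succ]
      congr 1
      omega
    have e3 : n ^ (2 * k - 1) * (n * (p * (K * n ^ (2 * (k : ℝ) - 1 + h)))) =
        (K * 4 ^ k * (Δ ^ (8 * k))⁻¹ * n ^ h * (p / n)) * (Δ ^ 4 * n ^ 2 / 2) ^ (2 * k) := by
      have d0 : (Δ ^ 4 * n ^ 2 / 2) ^ (2 * k) =
          Δ ^ (8 * k) * (n ^ (2 * k) * n ^ (2 * k)) / 4 ^ k := by
        have g : (Δ ^ 4 * n ^ 2 / 2) ^ (2 * k) =
            Δ ^ (4 * (2 * k)) * n ^ (2 * (2 * k)) / 2 ^ (2 * k) := by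
          rw [div_pow, mul_pow, ← pow_mul, ← pow_mul]
        rw [g, ← pow_add]
        congr 1
        · congr 2 <;> ring
        · rw [pow_mul]
          norm_num
      have d3 : Δ ^ (8 * k) ≠ 0 := by positivity
      have d4 : (4 : ℝ) ^ k ≠ 0 := by positivity
      rw [e1, ← mul_assoc, e2, d0]
      generalize n ^ (2 * k) = N
      field_simp
    have c2 := c1.trans_eq e3
    have c3 := le_of_mul_le_mul_right c2 (by positivity)
    refine c3.trans ?_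
    have hKC : K * 4 ^ k ≤ (64 * C) ^ k * L := by
      have k1 : (k : ℝ) ^ 4 ≤ 16 ^ k := by
        have k2 : (k : ℝ) ≤ 2 ^ k := by
          exact_mod_cast (Nat.lt_two_pow_self (n := k)).le
        calc (k : ℝ) ^ 4 ≤ ((2 : ℝ) ^ k) ^ 4 := pow_le_pow_left₀ hk0.le k2 4
          _ = 16 ^ k := by rw [← pow_mul, mul_comm, pow_mul]; norm_num
      have k3 : C ≤ C ^ k := by
        calc C = C ^ 1 := (pow_one C).symm
          _ ≤ C ^ k := pow_le_pow_right₀ hC hk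
      have k4 : (64 : ℝ) ^ k = 16 ^ k * 4 ^ k := by rw [← mul_pow]; norm_num
      calc K * 4 ^ k = C * (k : ℝ) ^ 4 * (4 ^ k * L) := by rw [hK]; ring
        _ ≤ C ^ k * 16 ^ k * (4 ^ k * L) := by
            refine mul_le_mul_of_nonneg_right ?_ (by positivity)
            exact mul_le_mul k3 k1 (by positivity) (by positivity)
        _ = (64 * C) ^ k * L := by rw [mul_pow, k4]; ring
    refine mul_le_mul_of_nonneg_right ?_ (by positivity)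
    refine mul_le_mul ?_ (Real.rpow_le_rpow hn0.le hnp hh0.le) (by positivity) (by positivity)
    exact mul_le_mul_of_nonneg_right hKC (by positivity)
  · intro χ hχ
    have h5 : N4 A B χ ≤ Δ ^ 4 * n ^ 2 / 2 := by
      by_contra hcon
      exact hχ (mem_filter.2 ⟨mem_univ _, not_le.1 hcon⟩)
    exact nb_of_N4 h3 A B χ Δ hΔ (by linarith)

end MPcb27.RU2
end

section
/-!
# MP_cb27ba_nt, project RU: `FOUR4`, Cauchy-Schwarz twice
-/
set_option autoImplicit false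

namespace MPcb27.RU2

open Finset

namespace FOUR

variable {p : ℕ} [Fact p.Prime]

/-- Gram matrix -/
noncomputable def G (χ : DirichletCharacter ℂ p) (A : Finset (ZMod p)) (b b' : ZMod p) : ℂ :=
  ∑ a ∈ A, χ (a - b) * (starRingEnd ℂ) (χ (a - b'))

theorem conj_eq (χ : DirichletCharacter ℂ p) (x : ZMod p) : (starRingEnd ℂ) (χ x) = χ x⁻¹ := by
  rw [starRingEnd_apply, MulChar.star_apply', MulChar.inv_apply']

omit [Fact p.Prime] in
theorem norm_le_one (χ : DirichletCharacter ℂ p) (x : ZMod p) : ‖χ x‖ ≤ 1 :=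
  DirichletCharacter.norm_le_one χ x

theorem step1 (χ : DirichletCharacter ℂ p) (A B : Finset (ZMod p)) (α β : ZMod p → ℂ) :
    ‖∑ a ∈ A, ∑ b ∈ B, α a * β b * χ (a - b)‖ ^ 2 ≤
      (∑ a ∈ A, ‖α a‖ ^ 2) * ∑ a ∈ A, ‖∑ b ∈ B, β b * χ (a - b)‖ ^ 2 := by
  have h1 : ‖∑ a ∈ A, ∑ b ∈ B, α a * β b * χ (a - b)‖ ≤
      ∑ a ∈ A, ‖α a‖ * ‖∑ b ∈ B, β b * χ (a - b)‖ := by
    refine (norm_sum_le _ _).trans (le_of_eq (sum_congr rfl fun a _ => ?_))
    rw [← norm_mul, mul_sum]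
    congr 1
    exact sum_congr rfl fun b _ => by ring
  refine (pow_le_pow_left₀ (norm_nonneg _) h1 2).trans ?_
  exact sum_mul_sq_le_sq_mul_sq _ _ _

theorem step2 (χ : DirichletCharacter ℂ p) (A B : Finset (ZMod p)) (β : ZMod p → ℂ) :
    ∑ a ∈ A, ‖∑ b ∈ B, β b * χ (a - b)‖ ^ 2 ≤
      ∑ q ∈ B ×ˢ B, (‖β q.1‖ * ‖β q.2‖) * ‖G χ A q.1 q.2‖ := by
  have h1 : ((∑ a ∈ A, ‖∑ b ∈ B, β b * χ (a - b)‖ ^ 2 : ℝ) : ℂ) =
      ∑ q ∈ B ×ˢ B, (β q.1 * (starRingEnd ℂ) (β q.2)) * G χ A q.1 q.2 := by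
    push_cast
    have h2 : ∀ a : ZMod p, ((‖∑ b ∈ B, β b * χ (a - b)‖ : ℝ) : ℂ) ^ 2 =
        ∑ q ∈ B ×ˢ B, (β q.1 * (starRingEnd ℂ) (β q.2)) *
          (χ (a - q.1) * (starRingEnd ℂ) (χ (a - q.2))) := by
      intro a
      rw [← Complex.mul_conj', map_sum, sum_mul_sum, ← sum_product']
      refine sum_congr rfl fun q _ => ?_
      rw [map_mul]
      ring
    simp only [h2]
    rw [sum_comm]
    refine sum_congr rfl fun q _ => ?_
    rw [G, mul_sum]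
  have h3 : (0 : ℝ) ≤ ∑ a ∈ A, ‖∑ b ∈ B, β b * χ (a - b)‖ ^ 2 := sum_nonneg fun _ _ => by positivity
  calc ∑ a ∈ A, ‖∑ b ∈ B, β b * χ (a - b)‖ ^ 2
      = ‖((∑ a ∈ A, ‖∑ b ∈ B, β b * χ (a - b)‖ ^ 2 : ℝ) : ℂ)‖ := by
        rw [Complex.norm_real, Real.norm_eq_abs, abs_of_nonneg h3]
    _ = ‖∑ q ∈ B ×ˢ B, (β q.1 * (starRingEnd ℂ) (β q.2)) * G χ A q.1 q.2‖ := by rw [h1]
    _ ≤ ∑ q ∈ B ×ˢ B, ‖(β q.1 * (starRingEnd ℂ) (β q.2)) * G χ A q.1 q.2‖ := norm_sum_le _ _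
    _ = _ := by
        refine sum_congr rfl fun q _ => ?_
        rw [norm_mul, norm_mul, RCLike.norm_conj]

theorem step3 (χ : DirichletCharacter ℂ p) (A B : Finset (ZMod p)) (β : ZMod p → ℂ) :
    (∑ q ∈ B ×ˢ B, (‖β q.1‖ * ‖β q.2‖) * ‖G χ A q.1 q.2‖) ^ 2 ≤
      (∑ b ∈ B, ‖β b‖ ^ 2) ^ 2 * ∑ q ∈ B ×ˢ B, ‖G χ A q.1 q.2‖ ^ 2 := by
  refine (sum_mul_sq_le_sq_mul_sq _ _ _).trans (le_of_eq ?_)
  congr 1
  rw [pow_two (∑ b ∈ B, ‖β b‖ ^ 2), sum_mul_sum, ← sum_product']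
  exact sum_congr rfl fun q _ => by ring

/-- the inner sum for fixed `a'`, `b'` -/
theorem inner_le (χ : DirichletCharacter ℂ p) (A B : Finset (ZMod p)) (a' b' : ZMod p)
    (hb' : b' ∈ B) (ha' : a' ∈ A) :
    ‖∑ a ∈ A, ∑ b ∈ B, χ (a - b) * (starRingEnd ℂ) (χ (a - b')) * (starRingEnd ℂ) (χ (a' - b))‖ ≤
      ‖∑ a ∈ A, ∑ b ∈ B, χ (dv (ua a' b') (vb a' b') a b)‖ + (#A : ℝ) + #B := by
  have h1 : ∀ a b : ZMod p, ‖χ (a - b) * (starRingEnd ℂ) (χ (a - b')) *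
      (starRingEnd ℂ) (χ (a' - b)) - χ (dv (ua a' b') (vb a' b') a b)‖ ≤
      (if a = a' then 1 else 0) + if b = b' then 1 else 0 := by
    intro a b
    by_cases ha : a = a'
    · have h2 : dv (ua a' b') (vb a' b') a b = 0 := by
        unfold dv ua
        rw [if_pos ha]
        ring
      rw [h2, MulChar.map_zero, sub_zero, norm_mul, norm_mul, RCLike.norm_conj, RCLike.norm_conj,
        if_pos ha]
      have h3 := norm_le_one χ (a - b)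
      have h4 := norm_le_one χ (a - b')
      have h5 := norm_le_one χ (a' - b)
      have h6 : ‖χ (a - b)‖ * ‖χ (a - b')‖ * ‖χ (a' - b)‖ ≤ 1 :=
        mul_le_one₀ (mul_le_one₀ h3 (norm_nonneg _) h4) (norm_nonneg _) h5
      have h7 : (0 : ℝ) ≤ if b = b' then 1 else 0 := by split_ifs <;> norm_num
      linarith
    · by_cases hb : b = b'
      · have h2 : dv (ua a' b') (vb a' b') a b = 0 := by
          unfold dv vb
          rw [if_pos hb]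
          ring
        rw [h2, MulChar.map_zero, sub_zero, norm_mul, norm_mul, RCLike.norm_conj, RCLike.norm_conj,
          if_neg ha, if_pos hb]
        have h3 := norm_le_one χ (a - b)
        have h4 := norm_le_one χ (a - b')
        have h5 := norm_le_one χ (a' - b)
        have h6 : ‖χ (a - b)‖ * ‖χ (a - b')‖ * ‖χ (a' - b)‖ ≤ 1 :=
          mul_le_one₀ (mul_le_one₀ h3 (norm_nonneg _) h4) (norm_nonneg _) h5
        linarith
      · have h2 : χ (dv (ua a' b') (vb a' b') a b) = χ (a - b) * (starRingEnd ℂ) (χ (a - b')) *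
            (starRingEnd ℂ) (χ (a' - b)) := by
          unfold dv ua vb
          rw [if_neg ha, if_neg hb, map_mul, map_mul, conj_eq, conj_eq]
        rw [h2, sub_self, norm_zero, if_neg ha, if_neg hb]
        norm_num
  have h2 : ‖∑ a ∈ A, ∑ b ∈ B, χ (a - b) * (starRingEnd ℂ) (χ (a - b')) *
      (starRingEnd ℂ) (χ (a' - b)) - ∑ a ∈ A, ∑ b ∈ B, χ (dv (ua a' b') (vb a' b') a b)‖ ≤
      (#A : ℝ) + #B := by
    rw [← sum_sub_distrib]
    simp only [← sum_sub_distrib]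
    refine (norm_sum_le _ _).trans ?_
    refine (sum_le_sum fun a _ => norm_sum_le _ _).trans ?_
    refine (sum_le_sum fun a _ => sum_le_sum fun b _ => h1 a b).trans ?_
    simp only [sum_add_distrib, sum_const, sum_ite_eq', nsmul_eq_mul, mul_ite, mul_one, mul_zero,
      if_pos ha', if_pos hb']
    linarith
  have h3 := norm_sub_norm_le (∑ a ∈ A, ∑ b ∈ B, χ (a - b) * (starRingEnd ℂ) (χ (a - b')) *
      (starRingEnd ℂ) (χ (a' - b))) (∑ a ∈ A, ∑ b ∈ B, χ (dv (ua a' b') (vb a' b') a b))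
  linarith

theorem step4 (χ : DirichletCharacter ℂ p) (A B : Finset (ZMod p)) :
    ∑ q ∈ B ×ˢ B, ‖G χ A q.1 q.2‖ ^ 2 ≤
      ∑ a' ∈ A, ∑ b' ∈ B,
        (‖∑ a ∈ A, ∑ b ∈ B, χ (dv (ua a' b') (vb a' b') a b)‖ + (#A : ℝ) + #B) := by
  have h1 : ((∑ q ∈ B ×ˢ B, ‖G χ A q.1 q.2‖ ^ 2 : ℝ) : ℂ) =
      ∑ a' ∈ A, ∑ b' ∈ B, χ (a' - b') * ∑ a ∈ A, ∑ b ∈ B,
        χ (a - b) * (starRingEnd ℂ) (χ (a - b')) * (starRingEnd ℂ) (χ (a' - b)) := by
    push_cast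
    have h2 : ∀ b b' : ZMod p, ((‖G χ A b b'‖ : ℝ) : ℂ) ^ 2 = ∑ a' ∈ A, ∑ a ∈ A,
        χ (a' - b') * (χ (a - b) * (starRingEnd ℂ) (χ (a - b')) * (starRingEnd ℂ) (χ (a' - b))) := by
      intro b b'
      rw [← Complex.mul_conj', G, map_sum, sum_mul_sum, sum_comm]
      refine sum_congr rfl fun a' _ => sum_congr rfl fun a _ => ?_
      rw [map_mul, Complex.conj_conj]
      ring
    rw [sum_product]
    simp only [h2]
    rw [sum_comm]
    have h3 : ∀ b' ∈ B, ∑ b ∈ B, ∑ a' ∈ A, ∑ a ∈ A,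
        χ (a' - b') * (χ (a - b) * (starRingEnd ℂ) (χ (a - b')) * (starRingEnd ℂ) (χ (a' - b))) =
        ∑ a' ∈ A, χ (a' - b') * ∑ a ∈ A, ∑ b ∈ B,
          χ (a - b) * (starRingEnd ℂ) (χ (a - b')) * (starRingEnd ℂ) (χ (a' - b)) := by
      intro b' _
      rw [sum_comm]
      refine sum_congr rfl fun a' _ => ?_
      rw [mul_sum, sum_comm]
      refine sum_congr rfl fun a _ => ?_
      rw [mul_sum]
    rw [sum_congr rfl h3, sum_comm]
  have h0 : (0 : ℝ) ≤ ∑ q ∈ B ×ˢ B, ‖G χ A q.1 q.2‖ ^ 2 := sum_nonneg fun _ _ => by positivity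
  calc ∑ q ∈ B ×ˢ B, ‖G χ A q.1 q.2‖ ^ 2
      = ‖((∑ q ∈ B ×ˢ B, ‖G χ A q.1 q.2‖ ^ 2 : ℝ) : ℂ)‖ := by
        rw [Complex.norm_real, Real.norm_eq_abs, abs_of_nonneg h0]
    _ = ‖∑ a' ∈ A, ∑ b' ∈ B, χ (a' - b') * ∑ a ∈ A, ∑ b ∈ B,
        χ (a - b) * (starRingEnd ℂ) (χ (a - b')) * (starRingEnd ℂ) (χ (a' - b))‖ := by rw [h1]
    _ ≤ ∑ a' ∈ A, ∑ b' ∈ B, ‖χ (a' - b') * ∑ a ∈ A, ∑ b ∈ B,
        χ (a - b) * (starRingEnd ℂ) (χ (a - b')) * (starRingEnd ℂ) (χ (a' - b))‖ :=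
        (norm_sum_le _ _).trans (sum_le_sum fun a' _ => norm_sum_le _ _)
    _ ≤ _ := by
        refine sum_le_sum fun a' ha' => sum_le_sum fun b' hb' => ?_
        rw [norm_mul]
        have h4 := inner_le χ A B a' b' hb' ha'
        have h5 := norm_le_one χ (a' - b')
        calc ‖χ (a' - b')‖ * ‖∑ a ∈ A, ∑ b ∈ B,
            χ (a - b) * (starRingEnd ℂ) (χ (a - b')) * (starRingEnd ℂ) (χ (a' - b))‖
            ≤ 1 * ‖∑ a ∈ A, ∑ b ∈ B,
            χ (a - b) * (starRingEnd ℂ) (χ (a - b')) * (starRingEnd ℂ) (χ (a' - b))‖ :=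
              mul_le_mul_of_nonneg_right h5 (norm_nonneg _)
          _ ≤ _ := by rw [one_mul]; exact h4

end FOUR

/-- **FOUR4** -/
theorem specFOUR4 : SpecFOUR4 := by
  intro p _ A B χ α β
  have h1 := FOUR.step1 χ A B α β
  have h2 := FOUR.step2 χ A B β
  have h3 := FOUR.step3 χ A B β
  have h4 := FOUR.step4 χ A B
  have hα : 0 ≤ ∑ a ∈ A, ‖α a‖ ^ 2 := sum_nonneg fun _ _ => by positivity
  have hT : 0 ≤ ∑ a ∈ A, ‖∑ b ∈ B, β b * χ (a - b)‖ ^ 2 := sum_nonneg fun _ _ => by positivity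
  calc ‖∑ a ∈ A, ∑ b ∈ B, α a * β b * χ (a - b)‖ ^ 4
      = (‖∑ a ∈ A, ∑ b ∈ B, α a * β b * χ (a - b)‖ ^ 2) ^ 2 := by ring
    _ ≤ ((∑ a ∈ A, ‖α a‖ ^ 2) * ∑ a ∈ A, ‖∑ b ∈ B, β b * χ (a - b)‖ ^ 2) ^ 2 :=
        pow_le_pow_left₀ (by positivity) h1 2
    _ = (∑ a ∈ A, ‖α a‖ ^ 2) ^ 2 * (∑ a ∈ A, ‖∑ b ∈ B, β b * χ (a - b)‖ ^ 2) ^ 2 := by ring
    _ ≤ (∑ a ∈ A, ‖α a‖ ^ 2) ^ 2 *
          (∑ q ∈ B ×ˢ B, (‖β q.1‖ * ‖β q.2‖) * ‖FOUR.G χ A q.1 q.2‖) ^ 2 :=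
        mul_le_mul_of_nonneg_left (pow_le_pow_left₀ hT h2 2) (by positivity)
    _ ≤ (∑ a ∈ A, ‖α a‖ ^ 2) ^ 2 *
          ((∑ b ∈ B, ‖β b‖ ^ 2) ^ 2 * ∑ q ∈ B ×ˢ B, ‖FOUR.G χ A q.1 q.2‖ ^ 2) :=
        mul_le_mul_of_nonneg_left h3 (by positivity)
    _ ≤ (∑ a ∈ A, ‖α a‖ ^ 2) ^ 2 *
          ((∑ b ∈ B, ‖β b‖ ^ 2) ^ 2 * ∑ a' ∈ A, ∑ b' ∈ B,
            (‖∑ a ∈ A, ∑ b ∈ B, χ (dv (ua a' b') (vb a' b') a b)‖ + (#A : ℝ) + #B)) :=
        mul_le_mul_of_nonneg_left (mul_le_mul_of_nonneg_left h4 (by positivity)) (by positivity)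
    _ = _ := by ring

end MPcb27.RU2
end
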