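import Pool.Agent.Lib.MP_cb27ba_nt.RU.Spec2

/-!
# MP_cb27ba_nt, project RU: REPAIRED twisted form (replaces TXB, STEP, ITE, FOUR, BAD, FIN of `Spec2`, `Spec3`)

`Spec2.SpecTXB` is false (`A = {a₀}`, `X = {1}`, `u = 1`, `v b = (a₀ - b)⁻¹`), and `FinalOP`, `FinalOPQ` are
false for small `A` (the norm is always `≥ max (#A, #B) ^ (1/2)`). The repair: the twists must be injective
(`Inj`), which the cross ratios are, except for `a = a'` or `b = b'`; these terms are left out (`ua`, `vb`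
are zero there) and cost `#A + #B`.

GOAL (theorem OP4): with an ABSOLUTE constant `C`, for every prime `p`, all nonempty `A`, `B`, every
`k ≥ 1` and `0 < Δ ≤ 1` with `4 ≤ Δ⁴ min (#A, #B)` the matrix `χ (a - b)` has norm at most
`Δ (#A #B) ^ (1/2)` for all characters but
`C ^ k (1 + log p) ^ 4 Δ ^ (-8k-2) p ^ (2 ^ (-k)) max (1, p / (#A #B))`.
-/

set_option autoImplicit false

namespace MPcb27.RU2

open Finset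

/-- the twists are injective -/
structure Inj {p : ℕ} (u v : ZMod p → ZMod p) (A B : Finset (ZMod p)) : Prop where
  ia : ∀ b ∈ B, v b ≠ 0 → ∀ a ∈ A, ∀ c ∈ A, (a - b) * u a ≠ 0 →
    (a - b) * u a = (c - b) * u c → a = c
  ib : ∀ a ∈ A, u a ≠ 0 → ∀ b ∈ B, ∀ d ∈ B, (a - b) * v b ≠ 0 →
    (a - b) * v b = (a - d) * v d → b = d

/-- TXB4: from RUD. -/
def SpecTXB4 : Prop :=
  ∀ (p : ℕ) [Fact p.Prime] (u v : ZMod p → ZMod p) (A B X : Finset (ZMod p)), Inj u v A B →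
    256 * (#A * #B) < p → (TX u v A B X : ℝ) ≤ 100 * ((#A : ℝ) * #B * #X) ^ (3 / 2 : ℝ)

/-- STEP4: from TXB4. -/
def SpecSTEP4 : Prop :=
  ∀ (p : ℕ) [Fact p.Prime] (u v : ZMod p → ZMod p) (A B : Finset (ZMod p)) (k : ℕ), Inj u v A B →
    256 * (#A * #B) < p → 1 ≤ #A * #B →
    (Tk u v A B (k + 1) : ℝ) ≤ 400 * ((Nat.log 2 ((#A * #B) ^ k) : ℝ) + 1) ^ 2 *
      ((#A : ℝ) * #B) ^ ((k : ℝ) + 3 / 2) * Real.sqrt (Tk u v A B k)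

/-- ITE4: from STEP4, by induction on `k`: `Nat.log 2 (n ^ k) + 1 ≤ c k (1 + log p)`, and
`D_(k+1) = K k² √(D_k)` with `D_k = K² k⁴` gives `D_(k+1) = K² k⁴ ≤ K² (k+1)⁴`. -/
def SpecITE4 : Prop :=
  ∃ C : ℝ, 1 ≤ C ∧ ∀ k : ℕ, 1 ≤ k → ∀ (p : ℕ) [Fact p.Prime] (u v : ZMod p → ZMod p)
    (A B : Finset (ZMod p)), Inj u v A B → 256 * (#A * #B) < p → 1 ≤ #A * #B →
      (Tk u v A B k : ℝ) ≤ C * (k : ℝ) ^ 4 * (1 + Real.log p) ^ 4 *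
        ((#A : ℝ) * #B) ^ (2 * (k : ℝ) - 1 + (1 / 2) ^ k)

/-- left twist of the cross ratio; `0` at `a = a'` and at `a = b'` -/
def ua {p : ℕ} (a' b' : ZMod p) (a : ZMod p) : ZMod p := if a = a' then 0 else (a - b')⁻¹

/-- right twist of the cross ratio; `0` at `b = b'` and at `b = a'` -/
def vb {p : ℕ} (a' b' : ZMod p) (b : ZMod p) : ZMod p := if b = b' then 0 else (a' - b)⁻¹

/-- INJ: `(a - b) / (a' - b) = 1 + (a - a') / (a' - b)`, `(a - b) / (a - b') = 1 + (b' - b) / (a - b')` -/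
def SpecINJ : Prop :=
  ∀ (p : ℕ) [Fact p.Prime] (A B : Finset (ZMod p)) (a' b' : ZMod p),
    Inj (ua a' b') (vb a' b') A B

/-- FOUR4: Cauchy-Schwarz twice; the terms `a = a'` or `b = b'` are at most `1` in absolute value. -/
def SpecFOUR4 : Prop :=
  ∀ (p : ℕ) [Fact p.Prime] (A B : Finset (ZMod p)) (χ : DirichletCharacter ℂ p)
    (α β : ZMod p → ℂ),
    ‖∑ a ∈ A, ∑ b ∈ B, α a * β b * χ (a - b)‖ ^ 4 ≤
      (∑ a ∈ A, ‖α a‖ ^ 2) ^ 2 * (∑ b ∈ B, ‖β b‖ ^ 2) ^ 2 *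
        ∑ a' ∈ A, ∑ b' ∈ B,
          (‖∑ a ∈ A, ∑ b ∈ B, χ (dv (ua a' b') (vb a' b') a b)‖ + (#A : ℝ) + #B)

/-- BAD4: few exceptions for small sets, from ITE4, MOM, FOUR4, INJ. With `n = #A #B`, `m = min (#A, #B)`
and `S = ∑_{a',b'} ‖∑ χ (dv ..)‖`: an exception has `S + n (#A + #B) > n² Δ⁴`, and
`n (#A + #B) ≤ 2 n² / m ≤ n² Δ⁴ / 2`, so `S > n² Δ⁴ / 2`;
`S ^ (2k) ≤ n ^ (2k-1) ∑_{a',b'} ‖∑ χ (dv ..)‖ ^ (2k)`, so there are at most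
`4 ^ k Δ ^ (-8k) n ^ (-4k) n ^ (2k) p T_k` of them, `T_k ≤ C k⁴ (1 + log p)⁴ n ^ (2k - 1 + 2 ^ (-k))`, and
`n ^ (2 ^ (-k)) ≤ p ^ (2 ^ (-k))`; last `C 4 ^ k k ^ 4 ≤ (64 C) ^ k`. -/
def SpecBAD4 : Prop :=
  ∃ C : ℝ, 1 ≤ C ∧ ∀ (p : ℕ) [Fact p.Prime] (A B : Finset (ZMod p)), A.Nonempty → B.Nonempty →
    256 * (#A * #B) < p → ∀ (k : ℕ) (Δ : ℝ), 1 ≤ k → 0 < Δ → Δ ≤ 1 →
      4 ≤ Δ ^ 4 * min (#A : ℝ) #B →
      ∃ E : Finset (DirichletCharacter ℂ p),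
        (#E : ℝ) ≤ C ^ k * (1 + Real.log p) ^ 4 * (Δ ^ (8 * k))⁻¹ *
          (p : ℝ) ^ ((1 / 2 : ℝ) ^ k) * ((p : ℝ) / (#A * #B)) ∧
        ∀ χ ∉ E, TU.NB χ A B (Δ * Real.sqrt ((#A : ℝ) * #B))

/-- FIN4: the final theorem, from BAD4. Small `p` (say `p ≤ 10 ^ 6`): `E = univ`, `C` large. If
`#A #B ≥ p / Δ²` only `χ = 1` is an exception (`SP.FINSP.nb_sqrt`). If `p ≤ 256 #A #B`, `#A #B < p / Δ²`:
let `#A ≤ #B` (the other case by symmetry, `χ (a - b) = χ (-1) χ (b - a)`).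
(1) if `512 #A < p` and `8000 ≤ Δ⁵ √p`: cut `B` into `t` disjoint pieces `B_j` with
`256 #A #B_j < p ≤ 2000 #A #B_j` (e.g. `Finpartition.exists_equipartition_card_eq`), `t ≤ 2000 / Δ²`; as
`#A ≤ √p / Δ` one has `#B_j ≥ √p Δ / 2000 ≥ 4 / Δ⁴`. If `χ` is no exception for any
`(A, B_j)` then `‖∑‖ ≤ ∑_j Δ (#A #B_j)^(1/2) |α| |β_j| ≤ Δ (#A #B)^(1/2) |α| |β|`.
(2) if `512 #A ≥ p` then `#A #B ≥ (p / 512)²`, so `Δ² < 512² / p`, and `E = univ` is allowed, as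
`(Δ ^ (8k+2))⁻¹ ≥ p / 512²`.
(3) if `Δ⁵ √p < 8000` then `(Δ ^ (8k+2))⁻¹ ≥ (Δ ^ 10)⁻¹ ≥ p / 8000²`, and `E = univ` is allowed. -/
def FinalOP4 : Prop :=
  ∃ C : ℝ, 1 ≤ C ∧ ∀ (p : ℕ) [Fact p.Prime] (A B : Finset (ZMod p)), A.Nonempty → B.Nonempty →
    ∀ (k : ℕ) (Δ : ℝ), 1 ≤ k → 0 < Δ → Δ ≤ 1 → 4 ≤ Δ ^ 4 * min (#A : ℝ) #B →
      ∃ E : Finset (DirichletCharacter ℂ p),
        (#E : ℝ) ≤ C ^ k * (1 + Real.log p) ^ 4 * (Δ ^ (8 * k + 2))⁻¹ *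
          (p : ℝ) ^ ((1 / 2 : ℝ) ^ k) * max 1 ((p : ℝ) / (#A * #B)) ∧
        ∀ χ ∉ E, TU.NB χ A B (Δ * Real.sqrt ((#A : ℝ) * #B))

end MPcb27.RU2
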