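import Pool.Agent.Lib.MP_cb27ba_nt.RU.Spec
import Pool.Agent.Lib.MP_cb27ba_nt.TU.Spec

/-!
# MP_cb27ba_nt, project RU: TWISTED form (replaces TX, TXB, fk, Tk, STEP, ITE, MOM, FIN of `Spec`)

GOAL (theorem OP): for every `ε > 0` there is `τ > 0` such that for ALL nonempty `A`, `B` in `ZMod p` and
all characters `χ` mod `p` but at most `p ^ ε max (1, p / (#A #B))` the matrix `χ (a - b)`, `a ∈ A`,
`b ∈ B`, has operator norm at most `p ^ (-τ) (#A #B) ^ (1/2)`: the weights may depend on `χ`.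

NEW against `Spec`: the difference `a - b` is replaced by `(a - b) u(a) v(b)`, `u`, `v` arbitrary functions
(values `0` allowed, they are never counted). All proofs are the same with this change. Reason: the
fourth power of the norm is at most the sum of `χ` at the cross ratios
`(a - b) (a' - b') / ((a - b') (a' - b))`, and for fixed `a'`, `b'` these are twisted differences.
-/

set_option autoImplicit false

namespace MPcb27.RU2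

open Finset

/-- twisted difference -/
def dv {p : ℕ} (u v : ZMod p → ZMod p) (a b : ZMod p) : ZMod p := (a - b) * u a * v b

/-- number of solutions of `dv a b x = dv a' b' x' ≠ 0` -/
def TX {p : ℕ} (u v : ZMod p → ZMod p) (A B X : Finset (ZMod p)) : ℕ :=
  #(((A ×ˢ B ×ˢ X) ×ˢ (A ×ˢ B ×ˢ X)).filter fun t =>
    dv u v t.1.1 t.1.2.1 * t.1.2.2 = dv u v t.2.1 t.2.2.1 * t.2.2.2 ∧
      dv u v t.1.1 t.1.2.1 * t.1.2.2 ≠ 0)

/-- TXB: from RUD. Solutions `(a, b, x)`, `(a', b', x')`: divide by `v b v b'`; with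
`w = u a * x / v b'`, `w' = u a' * x' / v b` it reads `(a - b) w = (a' - b') w'`: point `(b, w', a' w')`,
plane `(b', a w, -w)` (`Spec`: the case `u = v = 1`). -/
def SpecTXB : Prop :=
  ∀ (p : ℕ) [Fact p.Prime] (u v : ZMod p → ZMod p) (A B X : Finset (ZMod p)),
    256 * (#A * #B) < p → (TX u v A B X : ℝ) ≤ 100 * ((#A : ℝ) * #B * #X) ^ (3 / 2 : ℝ)

/-- number of representations of `z` as a product of `k` nonzero twisted differences -/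
def fk {p : ℕ} [Fact p.Prime] (u v : ZMod p → ZMod p) (A B : Finset (ZMod p)) : ℕ → ZMod p → ℕ
  | 0, z => if z = 1 then 1 else 0
  | k + 1, z => ∑ q ∈ (A ×ˢ B).filter (fun q => dv u v q.1 q.2 ≠ 0),
      fk u v A B k (z / dv u v q.1 q.2)

/-- number of solutions of `∏ dv a_i b_i = ∏ dv a_i' b_i' ≠ 0`, `k` factors -/
def Tk {p : ℕ} [Fact p.Prime] (u v : ZMod p → ZMod p) (A B : Finset (ZMod p)) (k : ℕ) : ℕ :=
  ∑ z : ZMod p, fk u v A B k z ^ 2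

/-- STEP: from TXB (see `Spec`). -/
def SpecSTEP : Prop :=
  ∀ (p : ℕ) [Fact p.Prime] (u v : ZMod p → ZMod p) (A B : Finset (ZMod p)) (k : ℕ),
    256 * (#A * #B) < p → 1 ≤ #A * #B →
    (Tk u v A B (k + 1) : ℝ) ≤ 400 * ((Nat.log 2 ((#A * #B) ^ k) : ℝ) + 1) ^ 2 *
      ((#A : ℝ) * #B) ^ ((k : ℝ) + 3 / 2) * Real.sqrt (Tk u v A B k)

/-- ITE: from STEP, by induction. -/
def SpecITE : Prop :=
  ∀ k : ℕ, 1 ≤ k → ∃ C : ℝ, 1 ≤ C ∧ ∀ (p : ℕ) [Fact p.Prime] (u v : ZMod p → ZMod p)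
    (A B : Finset (ZMod p)), 256 * (#A * #B) < p → 1 ≤ #A * #B →
      (Tk u v A B k : ℝ) ≤ C * (1 + Real.log p) ^ 4 *
        ((#A : ℝ) * #B) ^ (2 * (k : ℝ) - 1 + (1 / 2) ^ k)

/-- MOM: moments over all characters (`Spec`: `u = v = 1`, with weights). -/
def SpecMOM : Prop :=
  ∀ (p : ℕ) [Fact p.Prime] (u v : ZMod p → ZMod p) (A B : Finset (ZMod p)) (k : ℕ),
    ∑ χ : DirichletCharacter ℂ p, ‖∑ a ∈ A, ∑ b ∈ B, χ (dv u v a b)‖ ^ (2 * k) ≤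
      p * Tk u v A B k

/-- FOUR: Cauchy-Schwarz twice. -/
def SpecFOUR : Prop :=
  ∀ (p : ℕ) [Fact p.Prime] (A B : Finset (ZMod p)) (χ : DirichletCharacter ℂ p)
    (α β : ZMod p → ℂ),
    ‖∑ a ∈ A, ∑ b ∈ B, α a * β b * χ (a - b)‖ ^ 4 ≤
      (∑ a ∈ A, ‖α a‖ ^ 2) ^ 2 * (∑ b ∈ B, ‖β b‖ ^ 2) ^ 2 *
        ∑ a' ∈ A, ∑ b' ∈ B,
          ‖∑ a ∈ A, ∑ b ∈ B, χ (dv (fun a => (a - b')⁻¹) (fun b => (a' - b)⁻¹) a b)‖

/-- BAD: few exceptions for small sets, from ITE, MOM, FOUR. With `N₄ = ∑_{a',b'} ‖∑ χ (dv ..)‖`: an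
exception has `N₄ > (#A #B)² p^(-4τ)`; `N₄ ^ (2k) ≤ (#A #B) ^ (2k-1) ∑_{a',b'} ‖∑ χ (dv ..)‖ ^ (2k)`, so
there are at most `p ^ (1 + 8kτ) T_k / (#A #B) ^ (2k)` of them; `k` with `2 ^ (-k) ≤ ε / 4`,
`τ = ε / (32 k)`. -/
def SpecBAD : Prop :=
  ∀ ε : ℝ, 0 < ε → ∃ τ : ℝ, 0 < τ ∧ ∃ P : ℕ, ∀ (p : ℕ) [Fact p.Prime], P ≤ p →
    ∀ A B : Finset (ZMod p), A.Nonempty → B.Nonempty → 256 * (#A * #B) < p →
      (Set.ncard {χ : DirichletCharacter ℂ p |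
          ¬ TU.NB χ A B ((p : ℝ) ^ (-τ) * Real.sqrt ((#A : ℝ) * #B))} : ℝ) ≤
        (p : ℝ) ^ ε * ((p : ℝ) / (#A * #B))

/-- FIN: the final theorem, from BAD. If `p ≤ 256 #A #B ≤ 256 p ^ (1 + 2τ)` and `#A ≤ #B` (the other case
by symmetry: `χ (a - b) = χ (-1) χ (b - a)`), cut `B` into `t` disjoint pieces `B_j` with
`256 #A #B_j < p ≤ 2000 #A #B_j` (e.g. `Finpartition.exists_equipartition_card_eq`, `t ≤ 2000 p ^ (2τ)`); if
`χ` is no exception for any `(A, B_j)` then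
`‖∑‖ ≤ ∑_j p^(-τ) (#A #B_j)^(1/2) |α| |β_j| ≤ p^(-τ) (#A #B)^(1/2) |α| |β|`.
If `#A #B > p^(1+2τ)` only `χ = 1` is an exception (in the library: `SP.FINSP.nb_sqrt`). -/
def FinalOP : Prop :=
  ∀ ε : ℝ, 0 < ε → ∃ τ : ℝ, 0 < τ ∧ ∃ P : ℕ, ∀ (p : ℕ) [Fact p.Prime], P ≤ p →
    ∀ A B : Finset (ZMod p), A.Nonempty → B.Nonempty →
      (Set.ncard {χ : DirichletCharacter ℂ p |
          ¬ TU.NB χ A B ((p : ℝ) ^ (-τ) * Real.sqrt ((#A : ℝ) * #B))} : ℝ) ≤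
        (p : ℝ) ^ ε * max 1 ((p : ℝ) / (#A * #B))

end MPcb27.RU2
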