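import Pool.Agent.Lib.MP_cb27ba_nt.RU.Spec

section
/-!
# RU, module CONC

For two lines of `S'` (the lines of `S` on which `X` is not identically zero) which are not parallel, with
the common point `v`, the polynomial `X * (x1 - v1) - Y * (x0 - v0)` is zero (it vanishes for generic `w`);
then every line of `S'` passes through `v`.
-/
set_option autoImplicit false

namespace MPcb27.RU

namespace CONC

open Finset MvPolynomial

variable {K : Type} [Field K]

/-- a linear polynomial -/
noncomputable def lv (a b c : K) : MvPolynomial (Fin 2) K := C a * X 0 + C b * X 1 + C c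

lemma eval_lv (a b c : K) (w : Fin 2 → K) : eval w (lv a b c) = a * w 0 + b * w 1 + c := by
  simp [lv]

lemma lv_ne {a b : K} (c : K) (h : a ≠ 0 ∨ b ≠ 0) : lv a b c ≠ 0 := by
  intro h0
  have e0 := congrArg (eval ![0, 0]) h0
  have e1 := congrArg (eval ![1, 0]) h0
  have e2 := congrArg (eval ![0, 1]) h0
  rw [eval_lv] at e0 e1 e2
  simp at e0 e1 e2
  rw [e0] at e1 e2
  rcases h with h | h
  · exact h (by simpa using e1)
  · exact h (by simpa using e2)

lemma eval_ln (w u : Fin 2 → K) (f : MvPolynomial (Fin 2) K) (s : K) :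
    (ln w u f).eval s = MvPolynomial.eval (fun i => w i + u i * s) f := by
  have h : ((Polynomial.aeval s).comp
      (MvPolynomial.aeval (fun i => Polynomial.C (w i) + Polynomial.C (u i) * Polynomial.X)) :
      MvPolynomial (Fin 2) K →ₐ[K] K) = MvPolynomial.aeval (fun i => w i + u i * s) := by
    ext i
    simp
  have h1 := DFunLike.congr_fun h f
  simpa [ln, Polynomial.aeval_def, MvPolynomial.aeval_eq_eval] using h1

/-- the zeros of `f` on a line, if `f` is not identically zero on it -/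
lemma zeros (f : MvPolynomial (Fin 2) K) (l : K × K)
    (h : ∃ t : K, eval ![t, l.1 * t + l.2] f ≠ 0) :
    ∃ Z : Finset K, ∀ t : K, eval ![t, l.1 * t + l.2] f = 0 → t ∈ Z := by
  classical
  have hev : ∀ t : K, (ln ![0, l.2] ![1, l.1] f).eval t = eval ![t, l.1 * t + l.2] f := by
    intro t
    rw [eval_ln]
    congr 1
    congr 1
    ext i
    fin_cases i
    · simp
    · simp [add_comm]
  obtain ⟨t0, ht0⟩ := h
  have hp : ln ![0, l.2] ![1, l.1] f ≠ 0 := by
    intro h0
    apply ht0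
    rw [← hev, h0]
    simp
  refine ⟨(ln ![0, l.2] ![1, l.1] f).roots.toFinset, fun t ht => ?_⟩
  rw [Multiset.mem_toFinset, Polynomial.mem_roots hp]
  show (ln ![0, l.2] ![1, l.1] f).eval t = 0
  rw [hev, ht]

lemma cross (X Y : MvPolynomial (Fin 2) K)
    (hl : ∀ (w : Fin 2 → K) (s : K),
      eval w X * eval (fun i => w i + ![eval w X, eval w Y] i * s) Y =
        eval w Y * eval (fun i => w i + ![eval w X, eval w Y] i * s) X)
    (l : K × K) (hY : ∀ t : K, eval ![t, l.1 * t + l.2] Y = l.1 * eval ![t, l.1 * t + l.2] X)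
    (w : Fin 2 → K) (hne : eval w Y ≠ l.1 * eval w X) :
    ∃ t s : K, eval ![t, l.1 * t + l.2] X = 0 ∧ t = w 0 + eval w X * s ∧
      l.1 * t + l.2 = w 1 + eval w Y * s := by
  set x := eval w X with hx
  set y := eval w Y with hy
  have hd : y - l.1 * x ≠ 0 := sub_ne_zero.mpr hne
  set s : K := (l.1 * w 0 + l.2 - w 1) / (y - l.1 * x) with hs
  have hs' : s * (y - l.1 * x) = l.1 * w 0 + l.2 - w 1 := by
    rw [hs]; exact div_mul_cancel₀ _ hd
  have hpt : l.1 * (w 0 + x * s) + l.2 = w 1 + y * s := by linear_combination -hs'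
  refine ⟨w 0 + x * s, s, ?_, rfl, hpt⟩
  have h1 := hl w s
  have h2 : (fun i => w i + ![x, y] i * s) = ![w 0 + x * s, l.1 * (w 0 + x * s) + l.2] := by
    ext i
    fin_cases i
    · simp
    · simp [hpt]
  rw [← hx, ← hy, h2, hY] at h1
  have h3 : (y - l.1 * x) * eval ![w 0 + x * s, l.1 * (w 0 + x * s) + l.2] X = 0 := by
    linear_combination -h1
  rcases mul_eq_zero.mp h3 with h | h
  · exact absurd h hd
  · exact h

lemma key [Infinite K] (X Y : MvPolynomial (Fin 2) K) (hX : X ≠ 0)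
    (hl : ∀ (w : Fin 2 → K) (s : K),
      eval w X * eval (fun i => w i + ![eval w X, eval w Y] i * s) Y =
        eval w Y * eval (fun i => w i + ![eval w X, eval w Y] i * s) X)
    (l m : K × K)
    (hYl : ∀ t : K, eval ![t, l.1 * t + l.2] Y = l.1 * eval ![t, l.1 * t + l.2] X)
    (hYm : ∀ t : K, eval ![t, m.1 * t + m.2] Y = m.1 * eval ![t, m.1 * t + m.2] X)
    (hXl : ∃ t : K, eval ![t, l.1 * t + l.2] X ≠ 0)
    (hXm : ∃ t : K, eval ![t, m.1 * t + m.2] X ≠ 0)
    (hlm : l.1 ≠ m.1) (v : K) (hv : l.1 * v + l.2 = m.1 * v + m.2) :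
    X * lv 0 1 (-(l.1 * v + l.2)) - Y * lv 1 0 (-v) = 0 := by
  classical
  obtain ⟨Z1, hZ1⟩ := zeros X l hXl
  obtain ⟨Z2, hZ2⟩ := zeros X m hXm
  set P := X * lv 0 1 (-(l.1 * v + l.2)) - Y * lv 1 0 (-v) with hP
  set Q1 : MvPolynomial (Fin 2) K := ∏ t ∈ Z1, lv (-m.1) 1 (m.1 * t - (l.1 * t + l.2)) with hQ1
  set Q2 : MvPolynomial (Fin 2) K := ∏ t ∈ Z2, lv (-l.1) 1 (l.1 * t - (m.1 * t + m.2)) with hQ2
  set Q3 : MvPolynomial (Fin 2) K := ∏ q ∈ Z1 ×ˢ Z2,
    (if (q.2 - q.1 ≠ 0 ∨ (m.1 * q.2 + m.2) - (l.1 * q.1 + l.2) ≠ 0) then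
      lv ((m.1 * q.2 + m.2) - (l.1 * q.1 + l.2)) (-(q.2 - q.1))
        (-(q.1 * ((m.1 * q.2 + m.2) - (l.1 * q.1 + l.2))) + (l.1 * q.1 + l.2) * (q.2 - q.1))
      else 1) with hQ3
  have n1 : Q1 ≠ 0 := Finset.prod_ne_zero_iff.mpr fun t _ => lv_ne _ (Or.inr one_ne_zero)
  have n2 : Q2 ≠ 0 := Finset.prod_ne_zero_iff.mpr fun t _ => lv_ne _ (Or.inr one_ne_zero)
  have n3 : Q3 ≠ 0 := by
    refine Finset.prod_ne_zero_iff.mpr fun q _ => ?_
    split_ifs with h
    · refine lv_ne _ ?_
      rcases h with h | h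
      · exact Or.inr (neg_ne_zero.mpr h)
      · exact Or.inl h
    · exact one_ne_zero
  by_contra hP0
  have hprod : P * (X * (Q1 * (Q2 * Q3))) ≠ 0 :=
    mul_ne_zero hP0 (mul_ne_zero hX (mul_ne_zero n1 (mul_ne_zero n2 n3)))
  have hex : ∃ w : Fin 2 → K, eval w (P * (X * (Q1 * (Q2 * Q3)))) ≠ 0 := by
    by_contra hcon
    push Not at hcon
    exact hprod (MvPolynomial.funext fun w => by rw [hcon w, map_zero])
  obtain ⟨w, hw⟩ := hex
  simp only [map_mul, mul_ne_zero_iff] at hw
  obtain ⟨wP, wX, w1, w2, w3⟩ := hw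
  by_cases c2 : eval w Y = m.1 * eval w X
  · have c1 : eval w Y ≠ l.1 * eval w X := by
      intro h
      apply hlm
      rw [h] at c2
      exact mul_right_cancel₀ wX c2
    obtain ⟨t, s, h0, ht, hs⟩ := cross X Y hl l hYl w c1
    have hm := hZ1 t h0
    rw [hQ1, map_prod] at w1
    refine (Finset.prod_ne_zero_iff.mp w1) t hm ?_
    rw [eval_lv]
    rw [c2] at hs
    linear_combination (-1 : K) * hs + m.1 * ht
  by_cases c1 : eval w Y = l.1 * eval w X
  · obtain ⟨t, s, h0, ht, hs⟩ := cross X Y hl m hYm w c2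
    have hm := hZ2 t h0
    rw [hQ2, map_prod] at w2
    refine (Finset.prod_ne_zero_iff.mp w2) t hm ?_
    rw [eval_lv]
    rw [c1] at hs
    linear_combination (-1 : K) * hs + l.1 * ht
  obtain ⟨t1, s1, h01, ht1, hs1⟩ := cross X Y hl l hYl w c1
  obtain ⟨t2, s2, h02, ht2, hs2⟩ := cross X Y hl m hYm w c2
  have hm1 := hZ1 t1 h01
  have hm2 := hZ2 t2 h02
  rw [hQ3, map_prod] at w3
  have h3 := (Finset.prod_ne_zero_iff.mp w3) (t1, t2) (Finset.mem_product.mpr ⟨hm1, hm2⟩)
  by_cases hc : (t2 - t1 ≠ 0 ∨ (m.1 * t2 + m.2) - (l.1 * t1 + l.2) ≠ 0)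
  · rw [if_pos hc, eval_lv] at h3
    apply h3
    rw [hs1, hs2, ht1, ht2]
    ring
  · push Not at hc
    obtain ⟨e1, e2⟩ := hc
    have e3 : t2 = t1 := sub_eq_zero.mp e1
    rw [e3] at e2
    have e4 : (m.1 - l.1) * (t1 - v) = 0 := by linear_combination e2 + hv
    have e5 : t1 = v := by
      rcases mul_eq_zero.mp e4 with h | h
      · exact absurd (sub_eq_zero.mp h).symm hlm
      · exact sub_eq_zero.mp h
    apply wP
    rw [hP, map_sub, map_mul, map_mul, eval_lv, eval_lv]
    rw [← e5, hs1]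
    have ht1' : t1 = w 0 + eval w X * s1 := ht1
    linear_combination (eval w Y) * ht1'

end CONC

open Finset MvPolynomial in
/-- **CONC.** -/
theorem specCONC (hZL : SpecZL) : SpecCONC := by
  classical
  intro K _ _ X Y d S hdX hdY hXY hl hS
  set S' := S.filter fun l => ∃ t : K, eval ![t, l.1 * t + l.2] X ≠ 0 with hS'
  have hcard : #S ≤ #S' + d := by
    by_contra hcon
    push Not at hcon
    have h1 : d < #(S.filter fun l => ¬ ∃ t : K, eval ![t, l.1 * t + l.2] X ≠ 0) := by
      have := Finset.card_filter_add_card_filter_not (s := S)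
        (fun l : K × K => ∃ t : K, eval ![t, l.1 * t + l.2] X ≠ 0)
      rw [hS'] at hcon
      omega
    have hX0 : ∀ l ∈ S.filter (fun l => ¬ ∃ t : K, eval ![t, l.1 * t + l.2] X ≠ 0),
        ∀ t : K, eval ![t, l.1 * t + l.2] X = 0 := by
      intro l hl' t
      have := (Finset.mem_filter.mp hl').2
      push Not at this
      exact this t
    have hY0 : ∀ l ∈ S.filter (fun l => ¬ ∃ t : K, eval ![t, l.1 * t + l.2] X ≠ 0),
        ∀ t : K, eval ![t, l.1 * t + l.2] Y = 0 := by
      intro l hl' t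
      rw [hS l (Finset.mem_filter.mp hl').1 t, hX0 l hl' t, mul_zero]
    rcases hXY with h | h
    · exact h (hZL K X _ (lt_of_le_of_lt hdX h1) hX0)
    · exact h (hZL K Y _ (lt_of_le_of_lt hdY h1) hY0)
  refine ⟨S', Finset.filter_subset _ _, hcard, ?_⟩
  by_cases hpar : ∃ l ∈ S', ∃ m ∈ S', l.1 ≠ m.1
  · left
    obtain ⟨l, hlS, m, hmS, hlm⟩ := hpar
    have hd : l.1 - m.1 ≠ 0 := sub_ne_zero.mpr hlm
    set v : K := (m.2 - l.2) / (l.1 - m.1) with hv
    have hv' : v * (l.1 - m.1) = m.2 - l.2 := by rw [hv]; exact div_mul_cancel₀ _ hd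
    have hv2 : l.1 * v + l.2 = m.1 * v + m.2 := by linear_combination hv'
    have hlS2 := Finset.mem_filter.mp hlS
    have hmS2 := Finset.mem_filter.mp hmS
    have hX : X ≠ 0 := by
      rintro rfl
      obtain ⟨t, ht⟩ := hlS2.2
      exact ht (by simp)
    have hk := CONC.key X Y hX hl l m (hS l hlS2.1) (hS m hmS2.1) hlS2.2 hmS2.2 hlm v hv2
    refine ⟨v, l.1 * v + l.2, fun n hn => ?_⟩
    have hnS := Finset.mem_filter.mp hn
    obtain ⟨t, ht⟩ := hnS.2
    have h1 := congrArg (eval ![t, n.1 * t + n.2]) hk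
    rw [map_sub, map_mul, map_mul, CONC.eval_lv, CONC.eval_lv, map_zero, hS n hnS.1 t] at h1
    simp only [Matrix.cons_val_zero, Matrix.cons_val_one] at h1
    have h2 : eval ![t, n.1 * t + n.2] X * (n.1 * v + n.2 - (l.1 * v + l.2)) = 0 := by
      linear_combination h1
    rcases mul_eq_zero.mp h2 with h | h
    · exact absurd h ht
    · exact (sub_eq_zero.mp h).symm
  · right
    push Not at hpar
    rcases S'.eq_empty_or_nonempty with h | ⟨l, hl'⟩
    · exact ⟨0, fun n hn => by rw [h] at hn; simp at hn⟩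
    · exact ⟨l.1, fun n hn => (hpar l hl' n hn).symm⟩

end MPcb27.RU
end

section
/-!
# MP_cb27ba_nt, project RU: CORE, the polynomial argument for points and planes
-/
set_option autoImplicit false

namespace MPcb27.RU

open Finset MvPolynomial

namespace CORE

variable {K : Type} [Field K]

/-- the pencil lemma -/
lemma pen [Infinite K] (p : ℕ) [CharP K p] (hE : SpecEXT) (hL : SpecLEAF) (hC : SpecCONC)
    (X Y : MvPolynomial (Fin 2) K) (d : ℕ) (S : Finset (K × K)) (hX : X.totalDegree ≤ d)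
    (hY : Y.totalDegree ≤ d) (hd : d < p) (hS : 3 * d < #S)
    (hXY : ∀ l ∈ S, ∀ t : K, eval ![t, l.1 * t + l.2] Y = l.1 * eval ![t, l.1 * t + l.2] X) :
    (X = 0 ∧ Y = 0) ∨ ∃ S' ⊆ S, #S ≤ #S' + d ∧
      ((∃ v0 v1 : K, ∀ l ∈ S', v1 = l.1 * v0 + l.2) ∨ ∃ b : K, ∀ l ∈ S', l.1 = b) := by
  by_cases h0 : X = 0 ∧ Y = 0
  · exact Or.inl h0
  · right
    have h1 : X ≠ 0 ∨ Y ≠ 0 := by tauto
    have h2 := hE K X Y d S hX hY hS hXY
    exact hC K X Y d S hX hY h1 (hL K p X Y d hX hY hd h2) hXY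

/-- the neighbours give different lines -/
lemma inj_lines {q π π' : K × K × K} (h : Inc q π) (h' : Inc q π') (h1 : π.1 = π'.1)
    (h2 : π.2.2 = π'.2.2) : π = π' := by
  unfold Inc at h h'
  refine Prod.ext h1 (Prod.ext ?_ h2)
  rw [h1, h2] at h
  linear_combination h' - h

/-- the neighbours of a plane give different lines -/
lemma inj_lines' {q q' π : K × K × K} (h : Inc q π) (h' : Inc q' π) (h1 : q.1 = q'.1)
    (h2 : q.2.1 = q'.2.1) : q = q' := by
  unfold Inc at h h'
  refine Prod.ext h1 (Prod.ext h2 ?_)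
  rw [h1, h2] at h
  rw [h, h']

end CORE

open CORE in
theorem specCORE (hZ : SpecZL) (hE : SpecEXT) (hL : SpecLEAF) (hC : SpecCONC) (hA : SpecAL)
    (hD : SpecDER) : SpecCORE := by
  classical
  intro K _ _ p _ _ P Q G D R k hP hGs hG hRP hRQ hk1 hk2 hDp h3D hkD hF
  -- a polynomial of least degree
  have hex : ∃ n : ℕ, ∃ F : MvPolynomial (Fin 4) K, F ≠ 0 ∧ F.totalDegree = n ∧
      ∀ q ∈ P, al q F = 0 := by
    obtain ⟨F, h1, _, h3⟩ := hF
    exact ⟨_, F, h1, rfl, h3⟩
  obtain ⟨n, ⟨F, hF0, hFn, hFP⟩, hmin⟩ : ∃ n : ℕ, (∃ F : MvPolynomial (Fin 4) K, F ≠ 0 ∧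
      F.totalDegree = n ∧ ∀ q ∈ P, al q F = 0) ∧ ∀ m < n, ¬ ∃ F : MvPolynomial (Fin 4) K, F ≠ 0 ∧
      F.totalDegree = m ∧ ∀ q ∈ P, al q F = 0 :=
    ⟨Nat.find hex, Nat.find_spec hex, fun m hm => Nat.find_min hex hm⟩
  have hnD : n ≤ D := by
    by_contra h
    push Not at h
    obtain ⟨F', h1, h2, h3⟩ := hF
    exact hmin F'.totalDegree (lt_of_le_of_lt h2 h) ⟨F', h1, rfl, h3⟩
  -- the planes
  have hQ : ∀ π ∈ Q, be π F = 0 := by
    intro π hπ
    obtain ⟨S, hS⟩ : ∃ S : Finset (K × K), S = (G.filter fun g => g.2 = π).image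
      fun g => (-g.1.1, g.1.2.1) := ⟨_, rfl⟩
    have hSc : #S = #(G.filter fun g => g.2 = π) := by
      rw [hS, card_image_of_injOn]
      rintro ⟨q, π₁⟩ hg ⟨q', π₂⟩ hg' h
      rw [mem_coe, mem_filter] at hg hg'
      obtain ⟨h1, h2⟩ := hg
      obtain ⟨h3, h4⟩ := hg'
      dsimp only at h2 h4
      subst h2
      subst h4
      simp only [Prod.mk.injEq, neg_inj] at h
      have i1 := hG _ h1
      have i3 := hG _ h3
      dsimp only at i1 i3
      rw [inj_lines' i1 i3 h.1 h.2]
    refine hZ K (be π F) S ?_ ?_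
    · have h1 := (hA K (0 : K × K × K) π F).2.1
      have h2 := hRQ π hπ
      omega
    · intro l hl t
      rw [hS, mem_image] at hl
      obtain ⟨g, hg, rfl⟩ := hl
      rw [mem_filter] at hg
      obtain ⟨h1, h2⟩ := hg
      have h3 := (hA K g.1 π F).2.2.2.2 (h2 ▸ hG g h1) t
      rw [hFP g.1 (mem_product.1 (hGs h1)).1, map_zero] at h3
      exact h3.symm
  -- the points
  have hPt : ∀ q ∈ P, ∀ i, al q (pderiv i F) = 0 := by
    intro q hq
    obtain ⟨S, hS⟩ : ∃ S : Finset (K × K), S = (G.filter fun g => g.1 = q).image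
      fun g => (g.2.1, g.2.2.2) := ⟨_, rfl⟩
    have hinj : Set.InjOn (fun g : (K × K × K) × (K × K × K) => (g.2.1, g.2.2.2))
        (G.filter fun g => g.1 = q : Finset _) := by
      rintro ⟨q₁, π⟩ hg ⟨q₂, π'⟩ hg' h
      rw [mem_coe, mem_filter] at hg hg'
      obtain ⟨h1, h2⟩ := hg
      obtain ⟨h3, h4⟩ := hg'
      dsimp only at h2 h4
      subst h2
      subst h4
      simp only [Prod.mk.injEq] at h
      have i1 := hG _ h1
      have i3 := hG _ h3
      dsimp only at i1 i3
      rw [inj_lines i1 i3 h.1 h.2]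
    have hSc : #S = #(G.filter fun g => g.1 = q) := by
      rw [hS, card_image_of_injOn hinj]
    have hRS : R ≤ #S := by
      rw [hSc]
      exact hRP q hq
    have hdeg : ∀ i, (al q (pderiv i F)).totalDegree ≤ D := by
      intro i
      have h1 := (hA K q (0 : K × K × K) (pderiv i F)).1
      have h2 := (hD K p F (by omega)).1 i
      omega
    have hrel : ∀ l ∈ S, ∀ t : K, eval ![t, l.1 * t + l.2] (-al q (pderiv 0 F)) =
        l.1 * eval ![t, l.1 * t + l.2] (al q (pderiv 2 F)) := by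
      intro l hl t
      rw [hS, mem_image] at hl
      obtain ⟨g, hg, rfl⟩ := hl
      rw [mem_filter] at hg
      obtain ⟨h1, h2⟩ := hg
      have hi : Inc q g.2 := h2 ▸ hG g h1
      have h3 := (hA K q g.2 (pderiv 0 F)).2.2.2.2 hi t
      have h4 := (hA K q g.2 (pderiv 2 F)).2.2.2.2 hi t
      have h5 := ((hA K q g.2 F).2.2.2.1 (hQ g.2 (mem_product.1 (hGs h1)).2)).1
      dsimp only
      rw [map_neg, h3, h4, h5, map_neg, map_mul, eval_C, neg_neg]
    rcases pen p hE hL hC (al q (pderiv 2 F)) (-al q (pderiv 0 F)) D S (hdeg 2)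
      (by rw [totalDegree_neg]; exact hdeg 0) hDp (by omega) hrel with h | ⟨S', hS', hc, h⟩
    · have h2 : al q (pderiv 2 F) = 0 := h.1
      have h0 : al q (pderiv 0 F) = 0 := neg_eq_zero.1 h.2
      have h13 := (hA K q (0 : K × K × K) F).2.2.1 (hFP q hq)
      intro i
      fin_cases i
      · exact h0
      · change al q (pderiv 1 F) = 0
        rw [h13.1, h0, mul_zero]
      · exact h2
      · change al q (pderiv 3 F) = 0
        rw [h13.2, h2, mul_zero]
    · exfalso
      have hk : #S' ≤ k := by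
        have hS'' : ∀ l ∈ S', ∃ g ∈ G.filter (fun g => g.1 = q), (g.2.1, g.2.2.2) = l := by
          intro l hl
          have := hS' hl
          rw [hS, mem_image] at this
          exact this
        rcases h with ⟨v0, v1, h⟩ | ⟨b, h⟩
        · refine le_trans ?_ (hk1 q hq v0 v1)
          have h1 : S' ⊆ (G.filter fun g => g.1 = q ∧ v1 = g.2.1 * v0 + g.2.2.2).image
              fun g => (g.2.1, g.2.2.2) := by
            intro l hl
            obtain ⟨g, hg, rfl⟩ := hS'' l hl
            rw [mem_filter] at hg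
            exact mem_image.2 ⟨g, mem_filter.2 ⟨hg.1, hg.2, h _ hl⟩, rfl⟩
          exact (card_le_card h1).trans card_image_le
        · refine le_trans ?_ (hk2 q hq b)
          have h1 : S' ⊆ (G.filter fun g => g.1 = q ∧ g.2.1 = b).image
              fun g => (g.2.1, g.2.2.2) := by
            intro l hl
            obtain ⟨g, hg, rfl⟩ := hS'' l hl
            rw [mem_filter] at hg
            exact mem_image.2 ⟨g, mem_filter.2 ⟨hg.1, hg.2, h _ hl⟩, rfl⟩
          exact (card_le_card h1).trans card_image_le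
      omega
  -- the end
  have hder : ∀ i, pderiv i F = 0 := by
    intro i
    by_contra hne
    have h1 := (hD K p F (by omega)).1 i
    by_cases hn : n = 0
    · have h2 : F.totalDegree = 0 := by rw [hFn, hn]
      rw [totalDegree_eq_zero_iff_eq_C] at h2
      apply hne
      rw [h2, pderiv_C]
    · exact hmin (pderiv i F).totalDegree (by omega)
        ⟨pderiv i F, hne, rfl, fun q hq => hPt q hq i⟩
  obtain ⟨c, hc⟩ := (hD K p F (by omega)).2 hder
  obtain ⟨q, hq⟩ := hP
  have h1 := hFP q hq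
  rw [hc, ← algebraMap_eq, AlgHom.commutes, algebraMap_eq] at h1
  have h2 : c = 0 := by
    have := congrArg (eval (0 : Fin 2 → K)) h1
    simpa using this
  apply hF0
  rw [hc, h2, C_0]

end MPcb27.RU
end

section
/-!
# MP_cb27ba_nt, project RU: a field which is tangent to many lines has vanishing extactic polynomial
-/
set_option autoImplicit false

namespace MPcb27.RU

open Finset MvPolynomial

namespace EXT

variable {K : Type} [Field K]

lemma deg_pderiv (i : Fin 2) (f : MvPolynomial (Fin 2) K) :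
    (pderiv i f).totalDegree ≤ f.totalDegree := by
  classical
  rw [f.as_sum, map_sum]
  refine (totalDegree_finsetSum _ _).trans (Finset.sup_le fun m hm => ?_)
  rw [pderiv_monomial]
  rw [← f.as_sum]
  by_cases h : coeff m f * (m i : K) = 0
  · rw [h]
    simp
  · rw [totalDegree_monomial _ h]
    refine le_trans ?_ (le_totalDegree hm)
    rw [Finsupp.sum_fintype _ _ (fun _ => rfl), Finsupp.sum_fintype _ _ (fun _ => rfl)]
    refine sum_le_sum fun j _ => ?_
    rw [Finsupp.tsub_apply]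
    omega

end EXT

theorem specEXT (h0 : SpecLN0) (hZ : SpecZL) : SpecEXT := by
  intro K _ _ X Y d S hX hY hd hS
  have e0 := fun i => EXT.deg_pderiv i X
  have e1 := fun i => EXT.deg_pderiv i Y
  refine hZ K (ext X Y) S (lt_of_le_of_lt ?_ hd) fun l hl t => ?_
  · unfold ext
    have d1 : ∀ A B C : MvPolynomial (Fin 2) K, A.totalDegree ≤ d → B.totalDegree ≤ d →
        C.totalDegree ≤ d → (A * (B * C)).totalDegree ≤ 3 * d := by
      intro A B C hA hB hC
      refine (totalDegree_mul _ _).trans ?_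
      have := totalDegree_mul B C
      omega
    have d2 : ∀ A B C D E : MvPolynomial (Fin 2) K, A.totalDegree ≤ d → B.totalDegree ≤ d →
        C.totalDegree ≤ d → D.totalDegree ≤ d → E.totalDegree ≤ d →
        (A * (B * C + D * E)).totalDegree ≤ 3 * d := by
      intro A B C D E hA hB hC hD hE
      rw [mul_add]
      exact (totalDegree_add _ _).trans (max_le (d1 _ _ _ hA hB hC) (d1 _ _ _ hA hD hE))
    exact (totalDegree_sub _ _).trans (max_le
      (d2 _ _ _ _ _ hX hX ((e1 0).trans hY) hY ((e1 1).trans hY))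
      (d2 _ _ _ _ _ hY hX ((e0 0).trans hX) hY ((e0 1).trans hX)))
  · obtain ⟨w, hw⟩ : ∃ w : Fin 2 → K, w = ![0, l.2] := ⟨_, rfl⟩
    obtain ⟨u, hu⟩ : ∃ u : Fin 2 → K, u = ![1, l.1] := ⟨_, rfl⟩
    have hpt : ∀ s : K, (fun i => w i + u i * s) = ![s, l.1 * s + l.2] := by
      intro s
      ext i
      fin_cases i
      · simp [hw, hu]
      · simp [hw, hu]
        ring
    obtain ⟨-, hX2, hX3⟩ := h0 K w u X
    obtain ⟨-, hY2, hY3⟩ := h0 K w u Y
    have hc : ln w u Y = Polynomial.C l.1 * ln w u X := by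
      refine Polynomial.funext fun s => ?_
      rw [Polynomial.eval_mul, Polynomial.eval_C, hX2, hY2, hpt]
      exact hS l hl s
    have hu0 : u 0 = 1 := by rw [hu]; rfl
    have hu1 : u 1 = l.1 := by rw [hu]; rfl
    have hd1 : Polynomial.C l.1 * (ln w u (pderiv 0 X) + Polynomial.C l.1 * ln w u (pderiv 1 X)) =
        ln w u (pderiv 0 Y) + Polynomial.C l.1 * ln w u (pderiv 1 Y) := by
      have h1 : Polynomial.derivative (ln w u Y) =
          Polynomial.C l.1 * Polynomial.derivative (ln w u X) := by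
        rw [hc, Polynomial.derivative_C_mul]
      rw [hX3, hY3, hu0, hu1, Polynomial.C_1, one_mul, one_mul] at h1
      exact h1.symm
    have hE : ln w u (ext X Y) = 0 := by
      have h1 : ln w u (ext X Y) =
          ln w u X * (ln w u X * ln w u (pderiv 0 Y) + ln w u Y * ln w u (pderiv 1 Y)) -
          ln w u Y * (ln w u X * ln w u (pderiv 0 X) + ln w u Y * ln w u (pderiv 1 X)) := by
        unfold ext ln
        simp only [map_sub, map_mul, map_add]
      rw [h1, hc]
      linear_combination -(ln w u X) ^ 2 * hd1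
    have h2 := (h0 K w u (ext X Y)).2.1 t
    rw [hE, hpt, Polynomial.eval_zero] at h2
    exact h2.symm

end MPcb27.RU
end

section
/-!
# MP_cb27ba_nt, project RU, module INT: interpolation
-/
set_option autoImplicit false

namespace MPcb27.RU

open Finset MvPolynomial

namespace INT

variable {K : Type} [Field K]

/-- the polynomial with coefficients `c` -/
noncomputable def FF (m : ℕ) (c : (Fin 4 → Fin (m + 1)) → K) : MvPolynomial (Fin 4) K :=
  ∑ e : Fin 4 → Fin (m + 1), C (c e) * ∏ i, X i ^ (e i : ℕ)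

lemma FF_eq (m : ℕ) (c : (Fin 4 → Fin (m + 1)) → K) :
    FF m c = ∑ e : Fin 4 → Fin (m + 1),
      monomial (Finsupp.equivFunOnFinite.symm fun i => (e i : ℕ)) (c e) := by
  unfold FF
  refine sum_congr rfl fun e _ => ?_
  rw [monomial_eq, Finsupp.prod_fintype _ _ (fun i => pow_zero _)]
  rfl

lemma coeff_FF (m : ℕ) (c : (Fin 4 → Fin (m + 1)) → K) (e : Fin 4 → Fin (m + 1)) :
    coeff (Finsupp.equivFunOnFinite.symm fun i => (e i : ℕ)) (FF m c) = c e := by
  rw [FF_eq, coeff_sum, sum_eq_single e]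
  · rw [coeff_monomial, if_pos rfl]
  · intro e' _ hne
    rw [coeff_monomial, if_neg]
    intro h
    apply hne
    have h1 := Finsupp.equivFunOnFinite.symm.injective h
    funext i
    exact Fin.ext (congrFun h1 i)
  · intro h
    exact absurd (mem_univ e) h

lemma sum_le (m : ℕ) (e : Fin 4 → Fin (m + 1)) : ∑ i, (e i : ℕ) ≤ 4 * m := by
  calc ∑ i, (e i : ℕ) ≤ ∑ _i : Fin 4, m := sum_le_sum fun i _ => Nat.lt_succ_iff.1 (e i).2
    _ = 4 * m := by simp

/-- degrees under a substitution of polynomials of degree at most one -/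
lemma deg_le (m : ℕ) (c : (Fin 4 → Fin (m + 1)) → K) {σ : Type} (g : Fin 4 → MvPolynomial σ K)
    (hg : ∀ i, (g i).totalDegree ≤ 1) :
    (∑ e : Fin 4 → Fin (m + 1), C (c e) * ∏ i, g i ^ (e i : ℕ)).totalDegree ≤ 4 * m := by
  refine totalDegree_finsetSum_le fun e _ => ?_
  refine (totalDegree_mul _ _).trans ?_
  rw [totalDegree_C, zero_add]
  refine (totalDegree_finsetProd _ _).trans ?_
  refine le_trans (sum_le_sum fun i _ => ?_) (sum_le m e)
  refine (totalDegree_pow _ _).trans ?_
  calc (e i : ℕ) * (g i).totalDegree ≤ (e i : ℕ) * 1 := Nat.mul_le_mul_left _ (hg i)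
    _ = _ := mul_one _

lemma al_FF (m : ℕ) (c : (Fin 4 → Fin (m + 1)) → K) (q : K × K × K) :
    al q (FF m c) = ∑ e : Fin 4 → Fin (m + 1), C (c e) *
      ∏ i, (![C q.2.1 - C q.1 * X 0, X 0, C q.2.2 - C q.1 * X 1, X 1] i) ^ (e i : ℕ) := by
  unfold al FF
  rw [map_sum]
  refine sum_congr rfl fun e _ => ?_
  rw [map_mul, map_prod, aeval_C]
  congr 1
  refine prod_congr rfl fun i _ => ?_
  rw [map_pow, aeval_X]

lemma deg_aff (q : K × K × K) (i : Fin 4) :
    ((![C q.2.1 - C q.1 * X 0, X 0, C q.2.2 - C q.1 * X 1, X 1] i :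
      MvPolynomial (Fin 2) K)).totalDegree ≤ 1 := by
  have h1 : ∀ (a b : K) (j : Fin 2), (C a - C b * X j : MvPolynomial (Fin 2) K).totalDegree ≤ 1 := by
    intro a b j
    refine (totalDegree_sub _ _).trans (max_le ?_ ?_)
    · rw [totalDegree_C]; exact Nat.zero_le _
    · refine (totalDegree_mul _ _).trans ?_
      rw [totalDegree_C, totalDegree_X]
  fin_cases i
  · exact h1 _ _ _
  · exact (totalDegree_X _).le
  · exact h1 _ _ _
  · exact (totalDegree_X _).le

end INT

open INT in
theorem specINT : SpecINT := by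
  intro K _ _ P m hP
  classical
  -- a grid
  obtain ⟨S, hS⟩ : ∃ S : Finset K, #S = 4 * m + 1 := Infinite.exists_subset_card_eq K (4 * m + 1)
  -- the linear map
  obtain ⟨L, hL⟩ : ∃ L : ((Fin 4 → Fin (m + 1)) → K) →ₗ[K] (P × S × S → K),
      ∀ c t, L c t = eval ![(t.2.1 : K), (t.2.2 : K)] (al (t.1 : K × K × K) (FF m c)) := by
    refine ⟨{ toFun := fun c t => eval ![(t.2.1 : K), (t.2.2 : K)] (al (t.1 : K × K × K) (FF m c))
              map_add' := ?_
              map_smul' := ?_ }, fun c t => rfl⟩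
    · intro c c'
      funext t
      have : FF m (c + c') = FF m c + FF m c' := by
        unfold FF
        rw [← sum_add_distrib]
        refine sum_congr rfl fun e _ => ?_
        rw [Pi.add_apply, C_add, add_mul]
      rw [this, map_add, map_add]
      rfl
    · intro r c
      funext t
      have : FF m (r • c) = C r * FF m c := by
        unfold FF
        rw [mul_sum]
        refine sum_congr rfl fun e _ => ?_
        rw [Pi.smul_apply, smul_eq_mul, C_mul, mul_assoc]
      rw [this, map_mul, map_mul]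
      simp [al]
  have hlt : Module.finrank K (P × S × S → K) < Module.finrank K ((Fin 4 → Fin (m + 1)) → K) := by
    rw [Module.finrank_fintype_fun_eq_card, Module.finrank_fintype_fun_eq_card]
    simp only [Fintype.card_prod, Fintype.card_coe, Fintype.card_fun, Fintype.card_fin, hS]
    calc #P * ((4 * m + 1) * (4 * m + 1)) = #P * (4 * m + 1) ^ 2 := by ring
      _ < (m + 1) ^ 4 := hP
  have hker := LinearMap.ker_ne_bot_of_finrank_lt hlt (f := L)
  obtain ⟨c, hc, hc0⟩ := (Submodule.ne_bot_iff _).1 hker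
  rw [LinearMap.mem_ker] at hc
  refine ⟨FF m c, ?_, ?_, ?_⟩
  · intro h0
    apply hc0
    funext e
    rw [← coeff_FF m c e, h0]
    simp
  · exact deg_le m c X fun i => (totalDegree_X i).le
  · intro q hq
    apply eq_zero_of_eval_zero_at_prod_finset _ (fun _ => S)
    · intro i
      rw [hS, Nat.lt_succ_iff]
      refine (degreeOf_le_totalDegree _ _).trans ?_
      rw [al_FF]
      exact deg_le m c _ (deg_aff q)
    · intro x hx
      have h1 := congrFun hc (⟨q, hq⟩, ⟨x 0, hx 0⟩, ⟨x 1, hx 1⟩)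
      rw [hL] at h1
      have h2 : x = ![x 0, x 1] := by
        funext i
        fin_cases i <;> rfl
      rw [h2]
      exact h1

end MPcb27.RU
end

section
/-!
# MP_cb27ba_nt, project RU: vector fields with vanishing extactic polynomial have straight leaves
-/
set_option autoImplicit false

namespace MPcb27.RU

open Finset MvPolynomial

namespace LEAF

variable {K : Type} [Field K]

/-- the differential equation `ρ² σ' = σ τ` with `ρ 0 = 1`, `σ 0 = 0` has only the solution `σ = 0`
of small degree -/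
lemma zero_of (p : ℕ) [CharP K p] {ρ σ τ : Polynomial K} (hρ : ρ.eval 0 = 1)
    (hσ : σ.eval 0 = 0) (hd : σ.natDegree < p)
    (h : ρ ^ 2 * Polynomial.derivative σ = σ * τ) : σ = 0 := by
  by_contra hne
  obtain ⟨g, hg1, hg2⟩ := Polynomial.exists_eq_pow_rootMultiplicity_mul_and_not_dvd σ hne 0
  rw [Polynomial.C_0, sub_zero] at hg1 hg2
  obtain ⟨j, hj⟩ : ∃ j, j = σ.rootMultiplicity 0 := ⟨_, rfl⟩
  rw [← hj] at hg1
  have hg0 : g.eval 0 ≠ 0 := by
    intro h0
    apply hg2
    rw [Polynomial.X_dvd_iff, Polynomial.coeff_zero_eq_eval_zero]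
    exact h0
  have hgne : g ≠ 0 := by
    rintro rfl
    simp at hg0
  rcases Nat.eq_zero_or_pos j with hj0 | hjpos
  · rw [hj0, pow_zero, one_mul] at hg1
    rw [hg1] at hσ
    exact hg0 hσ
  obtain ⟨i, rfl⟩ : ∃ i, j = i + 1 := ⟨j - 1, by omega⟩
  have hdeg : i + 1 ≤ σ.natDegree := by
    rw [hg1, Polynomial.natDegree_mul (pow_ne_zero _ Polynomial.X_ne_zero) hgne,
      Polynomial.natDegree_X_pow]
    omega
  have h1 : Polynomial.X ^ i * (ρ ^ 2 * (Polynomial.C ((i : K) + 1) * g +
      Polynomial.X * Polynomial.derivative g)) = Polynomial.X ^ i * (Polynomial.X * g * τ) := by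
    have h2 := h
    rw [hg1, Polynomial.derivative_mul, Polynomial.derivative_X_pow] at h2
    have h3 : i + 1 - 1 = i := by omega
    rw [h3] at h2
    have h4 : Polynomial.C (((i + 1 : ℕ) : K)) = Polynomial.C ((i : K) + 1) := by
      push_cast
      rfl
    rw [h4] at h2
    linear_combination h2
  have h5 := mul_left_cancel₀ (pow_ne_zero i Polynomial.X_ne_zero) h1
  have h6 := congrArg (Polynomial.eval 0) h5
  simp only [Polynomial.eval_mul, Polynomial.eval_pow, Polynomial.eval_add, Polynomial.eval_C,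
    Polynomial.eval_X, hρ, zero_mul, add_zero, one_pow, one_mul] at h6
  rcases mul_eq_zero.1 h6 with h7 | h7
  · have h8 : ((i + 1 : ℕ) : K) = 0 := by
      push_cast
      exact h7
    rw [CharP.cast_eq_zero_iff K p] at h8
    have := Nat.le_of_dvd (by omega) h8
    omega
  · exact hg0 h7

lemma alg {R : Type} [CommRing R] {a b f g x y X0 X1 Y0 Y1 : R} (he : a * g - b * f = 1)
    (hE : x * (x * Y0 + y * Y1) - y * (x * X0 + y * X1) = 0) :
    (g * x - f * y) ^ 2 * (a * (a * Y0 + b * Y1) - b * (a * X0 + b * X1)) =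
      (a * y - b * x) * ((g * x - f * y) * (g * (a * X0 + b * X1) - f * (a * Y0 + b * Y1)) -
        (x * (f * Y0 + g * Y1) - y * (f * X0 + g * X1))) := by
  linear_combination (a * g - b * f) ^ 2 * hE -
    (a * y - b * x) * (x * (f * Y0 + g * Y1) - y * (f * X0 + g * X1)) * he

end LEAF

theorem specLEAF (h0 : SpecLN0) : SpecLEAF := by
  intro K _ p _ X Y d hX hY hd hext w s
  obtain ⟨u, hu⟩ : ∃ u : Fin 2 → K, u = ![eval w X, eval w Y] := ⟨_, rfl⟩
  rw [← hu]
  have hu0 : u 0 = eval w X := by rw [hu]; rfl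
  have hu1 : u 1 = eval w Y := by rw [hu]; rfl
  rw [← hu0, ← hu1]
  by_cases huz : u 0 = 0 ∧ u 1 = 0
  · rw [huz.1, huz.2, zero_mul, zero_mul]
  obtain ⟨hX1, hX2, hX3⟩ := h0 K w u X
  obtain ⟨hY1, hY2, hY3⟩ := h0 K w u Y
  rw [← hX2 s, ← hY2 s]
  -- a dual vector
  obtain ⟨e0, e1, he⟩ : ∃ e0 e1 : K, u 0 * e1 - u 1 * e0 = 1 := by
    by_cases h1 : u 0 = 0
    · have h2 : u 1 ≠ 0 := fun h => huz ⟨h1, h⟩
      exact ⟨-(u 1)⁻¹, 0, by rw [mul_zero, mul_neg, mul_inv_cancel₀ h2]; ring⟩
    · exact ⟨0, (u 0)⁻¹, by rw [mul_zero, mul_inv_cancel₀ h1]; ring⟩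
  have hz0 : (fun i => w i + u i * 0) = w := funext fun i => by ring
  have hXz : (ln w u X).eval 0 = u 0 := by
    rw [hX2 0, hu0, hz0]
  have hYz : (ln w u Y).eval 0 = u 1 := by
    rw [hY2 0, hu1, hz0]
  -- the equation on the line
  have hE : ln w u X * (ln w u X * ln w u (pderiv 0 Y) + ln w u Y * ln w u (pderiv 1 Y)) -
      ln w u Y * (ln w u X * ln w u (pderiv 0 X) + ln w u Y * ln w u (pderiv 1 X)) = 0 := by
    have h1 : ln w u (ext X Y) = 0 := by
      rw [hext]
      unfold ln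
      rw [map_zero]
    unfold ext ln at h1
    simp only [map_sub, map_mul, map_add] at h1
    exact h1
  obtain ⟨σ, hσ⟩ : ∃ σ : Polynomial K, σ = Polynomial.C (u 0) * ln w u Y -
    Polynomial.C (u 1) * ln w u X := ⟨_, rfl⟩
  obtain ⟨ρ, hρ⟩ : ∃ ρ : Polynomial K, ρ = Polynomial.C e1 * ln w u X -
    Polynomial.C e0 * ln w u Y := ⟨_, rfl⟩
  have heC : Polynomial.C (u 0) * Polynomial.C e1 - Polynomial.C (u 1) * Polynomial.C e0 =
      (1 : Polynomial K) := by
    rw [← Polynomial.C_mul, ← Polynomial.C_mul, ← Polynomial.C_sub, he, Polynomial.C_1]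
  have hσ0 : σ = 0 := by
    refine LEAF.zero_of p (ρ := ρ) (τ := ρ * Polynomial.derivative ρ -
      (ln w u X * (Polynomial.C e0 * ln w u (pderiv 0 Y) + Polynomial.C e1 * ln w u (pderiv 1 Y)) -
        ln w u Y * (Polynomial.C e0 * ln w u (pderiv 0 X) +
          Polynomial.C e1 * ln w u (pderiv 1 X)))) ?_ ?_ ?_ ?_
    · rw [hρ, Polynomial.eval_sub, Polynomial.eval_mul, Polynomial.eval_mul, Polynomial.eval_C,
        Polynomial.eval_C, hXz, hYz]
      linear_combination he
    · rw [hσ, Polynomial.eval_sub, Polynomial.eval_mul, Polynomial.eval_mul, Polynomial.eval_C,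
        Polynomial.eval_C, hXz, hYz]
      ring
    · refine lt_of_le_of_lt ?_ hd
      rw [hσ]
      refine (Polynomial.natDegree_sub_le _ _).trans (max_le ?_ ?_)
      · exact (Polynomial.natDegree_C_mul_le _ _).trans (hY1.trans hY)
      · exact (Polynomial.natDegree_C_mul_le _ _).trans (hX1.trans hX)
    · have hdσ : Polynomial.derivative σ = Polynomial.C (u 0) * Polynomial.derivative (ln w u Y) -
          Polynomial.C (u 1) * Polynomial.derivative (ln w u X) := by
        rw [hσ, Polynomial.derivative_sub, Polynomial.derivative_C_mul,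
          Polynomial.derivative_C_mul]
      have hdρ : Polynomial.derivative ρ = Polynomial.C e1 * Polynomial.derivative (ln w u X) -
          Polynomial.C e0 * Polynomial.derivative (ln w u Y) := by
        rw [hρ, Polynomial.derivative_sub, Polynomial.derivative_C_mul,
          Polynomial.derivative_C_mul]
      rw [hdσ, hdρ, hσ, hρ, hX3, hY3]
      exact LEAF.alg heC hE
  have h2 := congrArg (Polynomial.eval s) hσ0
  rw [hσ, Polynomial.eval_sub, Polynomial.eval_mul, Polynomial.eval_mul, Polynomial.eval_C,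
    Polynomial.eval_C, Polynomial.eval_zero] at h2
  linear_combination h2

end MPcb27.RU
end

section
/-!
# MP_cb27ba_nt, project RU: restriction of a polynomial in two variables to a line
-/
set_option autoImplicit false

namespace MPcb27.RU

open Finset MvPolynomial

namespace LN0

variable {K : Type} [Field K]

lemma natDegree_lin (a b : K) : (Polynomial.C a + Polynomial.C b * Polynomial.X).natDegree ≤ 1 := by
  rw [add_comm]
  exact Polynomial.natDegree_linear_le

lemma degree_le (w u : Fin 2 → K) (f : MvPolynomial (Fin 2) K) :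
    (ln w u f).natDegree ≤ f.totalDegree := by
  unfold ln
  rw [MvPolynomial.aeval_def, MvPolynomial.eval₂_eq]
  refine Polynomial.natDegree_sum_le_of_forall_le _ _ fun m hm => ?_
  refine (Polynomial.natDegree_mul_le).trans ?_
  rw [Polynomial.algebraMap_eq, Polynomial.natDegree_C, zero_add]
  refine (Polynomial.natDegree_prod_le _ _).trans ?_
  refine le_trans ?_ (MvPolynomial.le_totalDegree hm)
  rw [Finsupp.sum]
  refine sum_le_sum fun i _ => ?_
  refine (Polynomial.natDegree_pow_le).trans ?_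
  calc m i * (Polynomial.C (w i) + Polynomial.C (u i) * Polynomial.X).natDegree
      ≤ m i * 1 := Nat.mul_le_mul_left _ (natDegree_lin _ _)
    _ = m i := mul_one _

lemma eval_ln (w u : Fin 2 → K) (f : MvPolynomial (Fin 2) K) (s : K) :
    (ln w u f).eval s = MvPolynomial.eval (fun i => w i + u i * s) f := by
  unfold ln
  induction f using MvPolynomial.induction_on with
  | C a => simp
  | add f g hf hg => rw [map_add, Polynomial.eval_add, hf, hg, map_add]
  | mul_X f i hf =>
    rw [map_mul, Polynomial.eval_mul, hf, map_mul]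
    simp

lemma deriv_ln (w u : Fin 2 → K) (f : MvPolynomial (Fin 2) K) :
    Polynomial.derivative (ln w u f) =
      Polynomial.C (u 0) * ln w u (pderiv 0 f) + Polynomial.C (u 1) * ln w u (pderiv 1 f) := by
  unfold ln
  induction f using MvPolynomial.induction_on with
  | C a => simp
  | add f g hf hg =>
    rw [map_add, Polynomial.derivative_add, hf, hg]
    simp only [map_add]
    ring
  | mul_X f i hf =>
    rw [map_mul, Polynomial.derivative_mul, hf]
    simp only [Derivation.leibniz, smul_eq_mul, map_add, map_mul, MvPolynomial.aeval_X]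
    fin_cases i <;> simp <;> ring

end LN0

theorem specLN0 : SpecLN0 := by
  intro K _ w u f
  exact ⟨LN0.degree_le w u f, fun s => LN0.eval_ln w u f s, LN0.deriv_ln w u f⟩

end MPcb27.RU
end

section
/-!
# MP_cb27ba_nt, project RU: `PRU`, pruning of a bipartite graph
-/
set_option autoImplicit false

namespace MPcb27.RU

open Finset

/-- **PRU** -/
theorem specPRU : SpecPRU := by
  intro α β _ _ P Q G R hG hR
  obtain ⟨n, hn⟩ : ∃ n, #P + #Q = n := ⟨_, rfl⟩
  induction n using Nat.strong_induction_on generalizing P Q G with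
  | _ n ih =>
    by_cases hP : ∀ q ∈ P, R ≤ #(G.filter fun g => g.1 = q)
    · by_cases hQ : ∀ π ∈ Q, R ≤ #(G.filter fun g => g.2 = π)
      · refine ⟨P, subset_rfl, Q, subset_rfl, G, subset_rfl, ?_, hG, hP, hQ⟩
        have h1 : G.Nonempty := card_pos.1 (by omega)
        obtain ⟨g, hg⟩ := h1
        exact ⟨g.1, (mem_product.1 (hG hg)).1⟩
      · push Not at hQ
        obtain ⟨π, hπ, hlt⟩ := hQ
        have hc : #(Q.erase π) + 1 = #Q := card_erase_add_one hπ
        have hs : #(G.filter fun g => g.2 = π) + #(G.filter fun g => ¬ g.2 = π) = #G :=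
          card_filter_add_card_filter_not _
        have hsub : (G.filter fun g => ¬ g.2 = π) ⊆ P ×ˢ Q.erase π := by
          intro g hg
          obtain ⟨h1, h2⟩ := mem_filter.1 hg
          obtain ⟨h3, h4⟩ := mem_product.1 (hG h1)
          exact mem_product.2 ⟨h3, mem_erase.2 ⟨h2, h4⟩⟩
        have hR' : R * (#P + #(Q.erase π)) < #(G.filter fun g => ¬ g.2 = π) := by
          have e : R * (#P + #Q) = R * (#P + #(Q.erase π)) + R := by
            rw [← hc]
            ring
          omega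
        obtain ⟨P', hP', Q', hQ', G', hG', h1, h2, h3, h4⟩ :=
          ih (#P + #(Q.erase π)) (by omega) P (Q.erase π) _ hsub hR' rfl
        exact ⟨P', hP', Q', hQ'.trans (erase_subset _ _), G', hG'.trans (filter_subset _ _), h1,
          h2, h3, h4⟩
    · push Not at hP
      obtain ⟨q, hq, hlt⟩ := hP
      have hc : #(P.erase q) + 1 = #P := card_erase_add_one hq
      have hs : #(G.filter fun g => g.1 = q) + #(G.filter fun g => ¬ g.1 = q) = #G :=
        card_filter_add_card_filter_not _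
      have hsub : (G.filter fun g => ¬ g.1 = q) ⊆ P.erase q ×ˢ Q := by
        intro g hg
        obtain ⟨h1, h2⟩ := mem_filter.1 hg
        obtain ⟨h3, h4⟩ := mem_product.1 (hG h1)
        exact mem_product.2 ⟨mem_erase.2 ⟨h2, h3⟩, h4⟩
      have hR' : R * (#(P.erase q) + #Q) < #(G.filter fun g => ¬ g.1 = q) := by
        have e : R * (#P + #Q) = R * (#(P.erase q) + #Q) + R := by
          rw [← hc]
          ring
        omega
      obtain ⟨P', hP', Q', hQ', G', hG', h1, h2, h3, h4⟩ :=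
        ih (#(P.erase q) + #Q) (by omega) (P.erase q) Q _ hsub hR' rfl
      exact ⟨P', hP'.trans (erase_subset _ _), Q', hQ', G', hG'.trans (filter_subset _ _), h1,
        h2, h3, h4⟩

end MPcb27.RU
end

section
/-!
# MP_cb27ba_nt, project RU: `RUD`, the incidence bound over `ZMod p`
-/
set_option autoImplicit false

namespace MPcb27.RU

open Finset MvPolynomial

namespace RUD

variable {k K : Type} [Field k] [Field K] [DecidableEq k] [DecidableEq K]

/-- change of the field -/
def t3 (φ : k →+* K) : k × k × k ↪ K × K × K :=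
  ⟨fun q => (φ q.1, φ q.2.1, φ q.2.2), fun q q' h => by
    simp only [Prod.mk.injEq] at h
    obtain ⟨h1, h2, h3⟩ := h
    exact Prod.ext (φ.injective h1) (Prod.ext (φ.injective h2) (φ.injective h3))⟩

omit [DecidableEq k] [DecidableEq K] in
lemma t3_apply (φ : k →+* K) (q : k × k × k) : t3 φ q = (φ q.1, φ q.2.1, φ q.2.2) := rfl

/-- for incidences -/
def t6 (φ : k →+* K) : (k × k × k) × (k × k × k) ↪ (K × K × K) × (K × K × K) :=
  ⟨fun g => (t3 φ g.1, t3 φ g.2), fun g g' h => by
    simp only [Prod.mk.injEq] at h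
    exact Prod.ext ((t3 φ).injective h.1) ((t3 φ).injective h.2)⟩

omit [DecidableEq k] [DecidableEq K] in
lemma t6_apply (φ : k →+* K) (g : (k × k × k) × (k × k × k)) :
    t6 φ g = (t3 φ g.1, t3 φ g.2) := rfl

omit [DecidableEq k] [DecidableEq K] in
lemma inc_t3 (φ : k →+* K) {q π : k × k × k} (h : Inc q π) : Inc (t3 φ q) (t3 φ π) := by
  unfold Inc at h ⊢
  rw [t3_apply, t3_apply]
  simp only
  rw [h]
  push_cast [map_add, map_mul]
  rfl

/-- the lines over `K` -/
lemma lines (φ : k →+* K) (G : Finset ((k × k × k) × (k × k × k))) (q : k × k × k) (n : ℕ)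
    (h1 : ∀ v0 v1 : k, #(G.filter fun g => g.1 = q ∧ v1 = g.2.1 * v0 + g.2.2.2) ≤ n)
    (h2 : ∀ b : k, #(G.filter fun g => g.1 = q ∧ g.2.1 = b) ≤ n) (v0 v1 : K) :
    #(G.filter fun g => g.1 = q ∧ v1 = φ g.2.1 * v0 + φ g.2.2.2) ≤ n := by
  by_cases hall : ∀ g ∈ G.filter (fun g => g.1 = q ∧ v1 = φ g.2.1 * v0 + φ g.2.2.2),
      ∀ g' ∈ G.filter (fun g => g.1 = q ∧ v1 = φ g.2.1 * v0 + φ g.2.2.2), g.2.1 = g'.2.1
  · rcases (G.filter fun g => g.1 = q ∧ v1 = φ g.2.1 * v0 + φ g.2.2.2).eq_empty_or_nonempty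
      with h | ⟨g0, hg0⟩
    · rw [h, card_empty]
      exact Nat.zero_le _
    · refine (card_le_card ?_).trans (h2 g0.2.1)
      intro g hg
      have h3 := hall g hg g0 hg0
      obtain ⟨a, b, -⟩ := mem_filter.1 hg
      exact mem_filter.2 ⟨a, b, h3⟩
  · push Not at hall
    obtain ⟨g, hg, g', hg', hne⟩ := hall
    obtain ⟨-, -, e⟩ := mem_filter.1 hg
    obtain ⟨-, -, e'⟩ := mem_filter.1 hg'
    have hne' : φ g.2.1 - φ g'.2.1 ≠ 0 := fun h => hne (φ.injective (sub_eq_zero.1 h))
    -- the point is defined over `k`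
    set w0 : k := (g'.2.2.2 - g.2.2.2) / (g.2.1 - g'.2.1) with hw0
    have hv0 : v0 = φ w0 := by
      have h3 : (φ g.2.1 - φ g'.2.1) * v0 = φ g'.2.2.2 - φ g.2.2.2 := by
        linear_combination e' - e
      rw [hw0, map_div₀, map_sub, map_sub, eq_div_iff hne']
      linear_combination h3
    have hv1 : v1 = φ (g.2.1 * w0 + g.2.2.2) := by
      rw [e, hv0, map_add, map_mul]
    refine (card_le_card ?_).trans (h1 w0 (g.2.1 * w0 + g.2.2.2))
    intro f hf
    obtain ⟨a, b, c⟩ := mem_filter.1 hf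
    refine mem_filter.2 ⟨a, b, ?_⟩
    apply φ.injective
    rw [← hv1, c, hv0, map_add, map_mul]

end RUD

open RUD in
/-- **RUD** -/
theorem specRUD (hC : SpecCORE) (hI : SpecINT) (hP : SpecPRU) : SpecRUD := by
  intro p _ P Q G N k hk hG hinc hPN hQN hN hl1 hl2
  by_contra hcon
  push Not at hcon
  set m : ℕ := Nat.sqrt (16 * N) with hm
  set R : ℕ := 3 * (4 * m) + k + 1 with hRd
  have hm1 : m * m ≤ 16 * N := Nat.sqrt_le _
  have hm2 : 16 * N < (m + 1) * (m + 1) := Nat.lt_succ_sqrt _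
  have hms : (m : ℝ) ≤ 4 * Real.sqrt N := by
    have h1 : (m : ℝ) ^ 2 ≤ 16 * N := by
      have : ((m * m : ℕ) : ℝ) ≤ ((16 * N : ℕ) : ℝ) := by exact_mod_cast hm1
      push_cast at this
      nlinarith
    have h2 : (m : ℝ) ≤ Real.sqrt (16 * N) := Real.le_sqrt_of_sq_le h1
    have h3 : Real.sqrt (16 * N) = 4 * Real.sqrt N := by
      rw [Real.sqrt_mul (by norm_num), show (16 : ℝ) = 4 ^ 2 by norm_num,
        Real.sqrt_sq (by norm_num)]
    rwa [h3] at h2
  have hprune : R * (#P + #Q) < #G := by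
    have h1 : ((R * (#P + #Q) : ℕ) : ℝ) < #G := by
      refine lt_of_le_of_lt ?_ hcon
      have h2 : ((#P + #Q : ℕ) : ℝ) ≤ 2 * N := by
        have : #P + #Q ≤ 2 * N := by omega
        exact_mod_cast this
      have h3 : (R : ℝ) ≤ 48 * Real.sqrt N + k + 1 := by
        rw [hRd]
        push_cast
        linarith
      rw [Nat.cast_mul]
      calc (R : ℝ) * ((#P + #Q : ℕ) : ℝ) ≤ (48 * Real.sqrt N + k + 1) * (2 * N) :=
            mul_le_mul h3 h2 (Nat.cast_nonneg _) (by positivity)
        _ = 2 * N * (48 * Real.sqrt N + k + 1) := by ring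
    exact_mod_cast h1
  obtain ⟨P', hP', Q', hQ', G', hG', hne, hGs, hd1, hd2⟩ := hP _ _ P Q G R hG hprune
  classical
  let φ : ZMod p →+* AlgebraicClosure (ZMod p) := algebraMap _ _
  have hcharp : CharP (AlgebraicClosure (ZMod p)) p := inferInstance
  have hinf : Infinite (AlgebraicClosure (ZMod p)) := IsAlgClosed.instInfinite
  -- interpolation
  have hP'N : #P' ≤ N := (card_le_card hP').trans hPN
  have hF := hI (AlgebraicClosure (ZMod p)) (P'.map (t3 φ)) m (by
    rw [card_map]
    have h1 : 0 < #P' := card_pos.2 hne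
    have h2 : (4 * m + 1) ^ 2 < 16 * ((m + 1) * (m + 1)) := by nlinarith
    calc #P' * (4 * m + 1) ^ 2 < #P' * (16 * ((m + 1) * (m + 1))) :=
          Nat.mul_lt_mul_of_pos_left h2 h1
      _ = (16 * #P') * ((m + 1) * (m + 1)) := by ring
      _ ≤ ((m + 1) * (m + 1)) * ((m + 1) * (m + 1)) := Nat.mul_le_mul_right _ (by omega)
      _ = (m + 1) ^ 4 := by ring)
  refine hC (AlgebraicClosure (ZMod p)) p (P'.map (t3 φ)) (Q'.map (t3 φ)) (G'.map (t6 φ)) (4 * m) R k
    ?_ ?_ ?_ ?_ ?_ ?_ ?_ ?_ ?_ ?_ hF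
  · exact hne.map
  · intro g hg
    obtain ⟨f, hf, rfl⟩ := mem_map.1 hg
    obtain ⟨h1, h2⟩ := mem_product.1 (hGs hf)
    exact mem_product.2 ⟨mem_map_of_mem _ h1, mem_map_of_mem _ h2⟩
  · intro g hg
    obtain ⟨f, hf, rfl⟩ := mem_map.1 hg
    exact inc_t3 φ (hinc f (hG' hf))
  · intro q hq
    obtain ⟨q0, hq0, rfl⟩ := mem_map.1 hq
    rw [filter_map, card_map]
    refine (hd1 q0 hq0).trans (card_le_card ?_)
    intro g hg
    obtain ⟨h1, h2⟩ := mem_filter.1 hg
    refine mem_filter.2 ⟨h1, ?_⟩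
    simp only [Function.comp, t6_apply, h2]
  · intro q hq
    obtain ⟨q0, hq0, rfl⟩ := mem_map.1 hq
    rw [filter_map, card_map]
    refine (hd2 q0 hq0).trans (card_le_card ?_)
    intro g hg
    obtain ⟨h1, h2⟩ := mem_filter.1 hg
    refine mem_filter.2 ⟨h1, ?_⟩
    simp only [Function.comp, t6_apply, h2]
  · intro q hq v0 v1
    obtain ⟨q0, hq0, rfl⟩ := mem_map.1 hq
    rw [filter_map, card_map]
    refine le_trans (card_le_card ?_) (lines φ G q0 k (hl1 q0 (hP' hq0)) (hl2 q0 (hP' hq0)) v0 v1)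
    intro g hg
    obtain ⟨h1, h2, h3⟩ := mem_filter.1 hg
    refine mem_filter.2 ⟨hG' h1, (t3 φ).injective h2, h3⟩
  · intro q hq b
    obtain ⟨q0, hq0, rfl⟩ := mem_map.1 hq
    rw [filter_map, card_map]
    by_cases hb : ∃ b0, φ b0 = b
    · obtain ⟨b0, rfl⟩ := hb
      refine le_trans (card_le_card ?_) (hl2 q0 (hP' hq0) b0)
      intro g hg
      obtain ⟨h1, h2, h3⟩ := mem_filter.1 hg
      exact mem_filter.2 ⟨hG' h1, (t3 φ).injective h2, φ.injective h3⟩
    · refine le_trans (le_of_eq ?_) (Nat.zero_le k)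
      rw [card_eq_zero, filter_eq_empty_iff]
      rintro g - ⟨-, h3⟩
      exact hb ⟨_, h3⟩
  · by_contra h
    push Not at h
    have h1 : p ^ 2 ≤ (4 * m) ^ 2 := Nat.pow_le_pow_left h 2
    have h2 : (4 * m) ^ 2 = 16 * (m * m) := by ring
    omega
  · omega
  · omega

end MPcb27.RU
end

section
/-!
# ZL: a polynomial which vanishes on more lines than its degree is zero
-/
set_option autoImplicit false

namespace MPcb27.RU

open Finset MvPolynomial

/-- **ZL** -/
theorem specZL (h0 : SpecLN0) : SpecZL := by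
  classical
  intro K _ _ f S hdeg hS
  by_contra hf
  -- a point off the zero set
  obtain ⟨w, hw⟩ : ∃ w : Fin 2 → K, eval w f ≠ 0 := by
    by_contra hcon
    push Not at hcon
    exact hf (MvPolynomial.funext (fun x => by rw [hcon x, map_zero]))
  set g : K × K → K := fun l => l.1 * w 0 + l.2 - w 1 with hg
  have hg0 : ∀ l ∈ S, g l ≠ 0 := by
    intro l hl h
    apply hw
    have h1 := hS l hl (w 0)
    have h2 : (![w 0, l.1 * w 0 + l.2] : Fin 2 → K) = w := by
      ext i
      fin_cases i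
      · rfl
      · have : l.1 * w 0 + l.2 = w 1 := by
          simp only [hg] at h
          exact sub_eq_zero.1 h
        simpa using this
    rwa [h2] at h1
  -- the direction `(1, c)`
  obtain ⟨c, hc⟩ := Infinite.exists_notMem_finset (S.image Prod.fst ∪
    (S ×ˢ S).image (fun t => (g t.1 * t.2.1 - g t.2 * t.1.1) / (g t.1 - g t.2)))
  rw [Finset.mem_union, not_or] at hc
  have hc1 : ∀ l ∈ S, c - l.1 ≠ 0 := fun l hl h =>
    hc.1 (Finset.mem_image.2 ⟨l, hl, (sub_eq_zero.1 h).symm⟩)
  have hc2 : ∀ l ∈ S, ∀ l' ∈ S, g l ≠ g l' →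
      c ≠ (g l * l'.1 - g l' * l.1) / (g l - g l') := fun l hl l' hl' _ h =>
    hc.2 (Finset.mem_image.2 ⟨(l, l'), Finset.mem_product.2 ⟨hl, hl'⟩, h.symm⟩)
  set u : Fin 2 → K := ![1, c] with hu
  obtain ⟨h1, h2, -⟩ := h0 K w u f
  set P := ln w u f with hP
  have hP0 : P ≠ 0 := by
    intro h
    have h3 := h2 0
    rw [h, Polynomial.eval_zero] at h3
    apply hw
    rw [h3]
    congr 2
    ext i
    simp
  set r : K × K → K := fun l => g l / (c - l.1) with hr
  have hroot : ∀ l ∈ S, P.eval (r l) = 0 := by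
    intro l hl
    rw [h2, ← hS l hl (w 0 + r l)]
    congr 2
    ext i
    fin_cases i
    · simp [hu]
    · have h4 : r l * (c - l.1) = g l := div_mul_cancel₀ _ (hc1 l hl)
      have h5 : w 1 + c * r l = l.1 * (w 0 + r l) + l.2 := by
        simp only [hg] at h4
        linear_combination h4
      simpa [hu] using h5
  have hinj : Set.InjOn r S := by
    intro l hl l' hl' h
    have hl0 : l ∈ S := hl
    have hl0' : l' ∈ S := hl'
    simp only [hr] at h
    rw [div_eq_div_iff (hc1 l hl0) (hc1 l' hl0')] at h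
    by_cases hgg : g l = g l'
    · rw [hgg] at h
      have h3 := mul_left_cancel₀ (hg0 l' hl0') h
      have h4 : l.1 = l'.1 := by linear_combination h3
      have h5 : l.2 = l'.2 := by
        simp only [hg] at hgg
        rw [h4] at hgg
        linear_combination hgg
      exact Prod.ext h4 h5
    · exfalso
      apply hc2 l hl0 l' hl0' hgg
      rw [eq_div_iff (sub_ne_zero.2 hgg)]
      linear_combination h
  have hcard : #S ≤ P.natDegree := by
    rw [← Finset.card_image_of_injOn hinj]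
    refine le_trans (Finset.card_le_card ?_) (Polynomial.card_roots' P |>.trans' (Multiset.toFinset_card_le _))
    intro s hs
    obtain ⟨l, hl, rfl⟩ := Finset.mem_image.1 hs
    rw [Multiset.mem_toFinset, Polynomial.mem_roots hP0]
    exact hroot l hl
  omega

end MPcb27.RU
end
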