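import Pool.Agent.Lib.MP_cb27ba_nt.RU.Spec
import Pool.Agent.Lib.MP_cb27ba_nt.RU.Spec2
import Pool.Agent.Lib.MP_cb27ba_nt.RU.ZL

section
/-!
# AL: restriction of a polynomial in four variables to the planes `α q` and `β π`; DER: derivatives
-/
set_option autoImplicit false

namespace MPcb27.RU

open Finset MvPolynomial

namespace AL

/-- substitution of polynomials of degree at most one does not raise the degree -/
theorem totalDegree_aeval_le {K σ τ : Type} [Field K] (g : σ → MvPolynomial τ K)
    (hg : ∀ i, (g i).totalDegree ≤ 1) (F : MvPolynomial σ K) :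
    (aeval g F).totalDegree ≤ F.totalDegree := by
  rw [aeval_def, eval₂_eq]
  refine (totalDegree_finsetSum _ _).trans (Finset.sup_le fun m hm => ?_)
  refine (totalDegree_mul _ _).trans ?_
  have h1 : ((algebraMap K (MvPolynomial τ K)) (coeff m F)).totalDegree = 0 := totalDegree_C _
  rw [h1, zero_add]
  refine (totalDegree_finsetProd _ _).trans ?_
  refine le_trans (Finset.sum_le_sum fun i _ => ?_) (le_totalDegree hm)
  refine (totalDegree_pow _ _).trans ?_
  have := hg i
  nlinarith

/-- the chain rule -/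
theorem pderiv_aeval {K σ τ : Type} [Field K] [Fintype σ] (g : σ → MvPolynomial τ K) (j : τ)
    (F : MvPolynomial σ K) :
    pderiv j (aeval g F) = ∑ i, aeval g (pderiv i F) * pderiv j (g i) := by
  classical
  induction F using MvPolynomial.induction_on with
  | C a =>
    rw [algHom_C]
    simp
  | add p q hp hq =>
    simp only [map_add, hp, hq, add_mul, Finset.sum_add_distrib]
  | mul_X p i hp =>
    rw [map_mul, aeval_X, Derivation.leibniz, smul_eq_mul, smul_eq_mul, hp]
    simp only [Derivation.leibniz, pderiv_X, smul_eq_mul, map_add, map_mul, aeval_X, add_mul,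
      Finset.sum_add_distrib]
    congr 1
    · rw [Finset.sum_eq_single i]
      · simp
      · intro b _ hb
        simp [hb.symm]
      · intro h
        exact absurd (Finset.mem_univ i) h
    · rw [Finset.mul_sum]
      refine Finset.sum_congr rfl fun b _ => ?_
      ring

theorem eval_aeval {K σ τ : Type} [Field K] (g : σ → MvPolynomial τ K) (v : τ → K)
    (F : MvPolynomial σ K) : eval v (aeval g F) = eval (fun i => eval v (g i)) F := by
  induction F using MvPolynomial.induction_on with
  | C a =>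
    rw [algHom_C]
    simp
  | add p q hp hq => rw [map_add, map_add, map_add, hp, hq]
  | mul_X p i hp => rw [map_mul, map_mul, map_mul, hp, aeval_X, eval_X]

theorem deg_lin {K : Type} [Field K] (a b : K) (i : Fin 2) :
    (C a - C b * X i : MvPolynomial (Fin 2) K).totalDegree ≤ 1 := by
  refine (totalDegree_sub _ _).trans ?_
  rw [totalDegree_C]
  have h1 : (C b * X i : MvPolynomial (Fin 2) K).totalDegree ≤ 1 := by
    refine (totalDegree_mul _ _).trans ?_
    rw [totalDegree_C, totalDegree_X]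
  omega

theorem deg_lin' {K : Type} [Field K] (a b : K) (i : Fin 2) :
    (C b * X i + C a : MvPolynomial (Fin 2) K).totalDegree ≤ 1 := by
  refine (totalDegree_add _ _).trans ?_
  rw [totalDegree_C]
  have h1 : (C b * X i : MvPolynomial (Fin 2) K).totalDegree ≤ 1 := by
    refine (totalDegree_mul _ _).trans ?_
    rw [totalDegree_C, totalDegree_X]
  omega

theorem deg_X {K : Type} [Field K] (i : Fin 2) :
    (X i : MvPolynomial (Fin 2) K).totalDegree ≤ 1 := by rw [totalDegree_X]

end AL

open AL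

/-- **AL** -/
theorem specAL : SpecAL := by
  intro K _ q π F
  refine ⟨?_, ?_, ?_, ?_, ?_⟩
  · refine totalDegree_aeval_le _ (fun i => ?_) F
    fin_cases i
    · exact deg_lin _ _ _
    · exact deg_X _
    · exact deg_lin _ _ _
    · exact deg_X _
  · refine totalDegree_aeval_le _ (fun i => ?_) F
    fin_cases i
    · exact deg_X _
    · exact deg_X _
    · exact deg_lin' _ _ _
    · exact deg_lin' _ _ _
  · intro h
    have h0 := pderiv_aeval ![C q.2.1 - C q.1 * X 0, X 0, C q.2.2 - C q.1 * X 1, X 1] (0 : Fin 2) F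
    have h1 := pderiv_aeval ![C q.2.1 - C q.1 * X 0, X 0, C q.2.2 - C q.1 * X 1, X 1] (1 : Fin 2) F
    have e : aeval ![C q.2.1 - C q.1 * X 0, X 0, C q.2.2 - C q.1 * X 1, X 1] F = al q F := rfl
    rw [e, h, map_zero, Fin.sum_univ_four] at h0 h1
    simp [pderiv_X] at h0 h1
    constructor
    · show bind₁ _ (pderiv 1 F) = C q.1 * bind₁ _ (pderiv 0 F)
      linear_combination -h0
    · show bind₁ _ (pderiv 3 F) = C q.1 * bind₁ _ (pderiv 2 F)
      linear_combination -h1
  · intro h
    have h0 := pderiv_aeval ![X 1, X 0, C π.1 * X 1 + C π.2.1, C π.1 * X 0 + C π.2.2] (0 : Fin 2) F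
    have h1 := pderiv_aeval ![X 1, X 0, C π.1 * X 1 + C π.2.1, C π.1 * X 0 + C π.2.2] (1 : Fin 2) F
    have e : aeval ![X 1, X 0, C π.1 * X 1 + C π.2.1, C π.1 * X 0 + C π.2.2] F = be π F := rfl
    rw [e, h, map_zero, Fin.sum_univ_four] at h0 h1
    simp [pderiv_X] at h0 h1
    constructor
    · show bind₁ _ (pderiv 0 F) = -(C π.1 * bind₁ _ (pderiv 2 F))
      linear_combination -h1
    · show bind₁ _ (pderiv 1 F) = -(C π.1 * bind₁ _ (pderiv 3 F))
      linear_combination -h0
  · intro h t
    unfold Inc at h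
    unfold al be
    rw [eval_aeval, eval_aeval]
    congr 2
    funext i
    fin_cases i
    · simp; ring
    · simp
    · simp
      rw [h]
      ring
    · simp

/-! ## DER: degrees of derivatives; polynomials with zero derivatives -/

namespace DER

theorem sum_add_single {σ : Type} (m : σ →₀ ℕ) (i : σ) :
    ((m + Finsupp.single i 1).sum fun _ e => e) = (m.sum fun _ e => e) + 1 := by
  classical
  rw [Finsupp.sum_add_index' (fun _ => rfl) (fun _ _ _ => rfl), Finsupp.sum_single_index rfl]

end DER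

open DER

/-- **DER** -/
theorem specDER : SpecDER := by
  intro K _ p _ F hF
  classical
  refine ⟨fun i => ?_, fun h => ?_⟩
  · unfold totalDegree
    refine Finset.sup_le fun m hm => ?_
    rw [mem_support_iff, coeff_pderiv] at hm
    have h1 : coeff (m + Finsupp.single i 1) F ≠ 0 := fun h0 => hm (by rw [h0]; simp)
    have h2 := le_totalDegree (mem_support_iff.2 h1)
    rw [sum_add_single] at h2
    unfold totalDegree at h2
    omega
  · refine ⟨coeff 0 F, ?_⟩
    ext m
    rw [coeff_C]
    by_cases hm : 0 = m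
    · rw [if_pos hm, ← hm]
    rw [if_neg hm]
    by_contra hne
    obtain ⟨i, hi⟩ : ∃ i, m i ≠ 0 := by
      by_contra hc
      push Not at hc
      exact hm (Finsupp.ext hc).symm
    have h1 := h i
    have h2 : coeff (m - Finsupp.single i 1) (pderiv i F) = 0 := by rw [h1]; simp
    rw [coeff_pderiv] at h2
    have h3 : m - Finsupp.single i 1 + Finsupp.single i 1 = m := by
      ext j
      simp only [Finsupp.coe_add, Finsupp.coe_tsub, Pi.add_apply, Pi.sub_apply]
      by_cases hj : j = i
      · subst hj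
        simp only [Finsupp.single_eq_same]
        omega
      · rw [Finsupp.single_eq_of_ne hj]
        omega
    rw [h3] at h2
    have h4 : (((m - Finsupp.single i 1 : Fin 4 →₀ ℕ) i : ℕ) : K) + 1 = ((m i : ℕ) : K) := by
      have : (m - Finsupp.single i 1 : Fin 4 →₀ ℕ) i + 1 = m i := by
        simp only [Finsupp.coe_tsub, Pi.sub_apply, Finsupp.single_eq_same]
        omega
      rw [← this]
      push_cast
      ring
    have h5 : m i ≤ F.totalDegree := by
      refine le_trans ?_ (le_totalDegree (mem_support_iff.2 hne))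
      rw [Finsupp.sum]
      exact Finset.single_le_sum (f := fun j => m j) (fun _ _ => Nat.zero_le _)
        (Finsupp.mem_support_iff.2 hi)
    have h6 : ((m i : ℕ) : K) ≠ 0 := by
      intro h0
      rw [CharP.cast_eq_zero_iff K p] at h0
      have := Nat.le_of_dvd (by omega) h0
      omega
    rw [h4] at h2
    rcases mul_eq_zero.1 h2 with h7 | h7
    · exact hne h7
    · exact h6 h7

end MPcb27.RU
end

section
/-!
# MOM: moments of the character sums over all characters
-/
set_option autoImplicit false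

namespace MPcb27.RU

open Finset

namespace MOM

variable {p : ℕ} [Fact p.Prime]

/-- weighted number of representations -/
noncomputable def wk (A B : Finset (ZMod p)) (α β : ZMod p → ℂ) : ℕ → ZMod p → ℂ
  | 0, z => if z = 1 then 1 else 0
  | k + 1, z => ∑ q ∈ (A ×ˢ B).filter (fun q => q.1 ≠ q.2),
      α q.1 * β q.2 * wk A B α β k (z / (q.1 - q.2))

theorem wk_le (A B : Finset (ZMod p)) {α β : ZMod p → ℂ} (hα : ∀ a, ‖α a‖ ≤ 1)
    (hβ : ∀ b, ‖β b‖ ≤ 1) (k : ℕ) : ∀ z, ‖wk A B α β k z‖ ≤ fk A B k z := by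
  induction k with
  | zero =>
    intro z
    unfold wk fk
    split_ifs <;> simp
  | succ k ih =>
    intro z
    unfold wk fk
    push_cast
    refine (norm_sum_le _ _).trans (sum_le_sum fun q _ => ?_)
    rw [norm_mul, norm_mul]
    have h1 : ‖α q.1‖ * ‖β q.2‖ ≤ 1 := mul_le_one₀ (hα _) (norm_nonneg _) (hβ _)
    calc ‖α q.1‖ * ‖β q.2‖ * ‖wk A B α β k (z / (q.1 - q.2))‖
        ≤ 1 * ‖wk A B α β k (z / (q.1 - q.2))‖ :=
          mul_le_mul_of_nonneg_right h1 (norm_nonneg _)
      _ ≤ _ := by rw [one_mul]; exact ih _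

theorem wk_zero (A B : Finset (ZMod p)) (α β : ZMod p → ℂ) (k : ℕ) : wk A B α β k 0 = 0 := by
  induction k with
  | zero =>
    unfold wk
    rw [if_neg zero_ne_one]
  | succ k ih =>
    unfold wk
    refine sum_eq_zero fun q _ => ?_
    rw [zero_div, ih, mul_zero]

theorem pow_eq (A B : Finset (ZMod p)) (α β : ZMod p → ℂ) (χ : DirichletCharacter ℂ p) (k : ℕ) :
    (∑ a ∈ A, ∑ b ∈ B, α a * β b * χ (a - b)) ^ k = ∑ z, wk A B α β k z * χ z := by
  have hS : ∑ a ∈ A, ∑ b ∈ B, α a * β b * χ (a - b) =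
      ∑ q ∈ (A ×ˢ B).filter (fun q => q.1 ≠ q.2), α q.1 * β q.2 * χ (q.1 - q.2) := by
    rw [← sum_product', sum_filter]
    refine sum_congr rfl fun q _ => ?_
    split_ifs with h
    · rfl
    · rw [not_not] at h
      rw [h, sub_self, MulChar.map_zero, mul_zero]
  induction k with
  | zero =>
    rw [pow_zero]
    unfold wk
    simp
  | succ k ih =>
    rw [pow_succ', ih, hS]
    conv_rhs => unfold wk
    have hR : ∀ z ∈ (univ : Finset (ZMod p)), (∑ q ∈ (A ×ˢ B).filter (fun q => q.1 ≠ q.2),
        α q.1 * β q.2 * wk A B α β k (z / (q.1 - q.2))) * χ z =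
        ∑ q ∈ (A ×ˢ B).filter (fun q => q.1 ≠ q.2),
          α q.1 * β q.2 * wk A B α β k (z / (q.1 - q.2)) * χ z := fun z _ => sum_mul _ _ _
    rw [sum_congr rfl hR, sum_comm, sum_mul]
    refine sum_congr rfl fun q hq => ?_
    rw [mem_filter] at hq
    have hd : q.1 - q.2 ≠ 0 := sub_ne_zero.2 hq.2
    rw [mul_sum]
    refine Finset.sum_nbij' (fun z => (q.1 - q.2) * z) (fun z => z / (q.1 - q.2)) ?_ ?_ ?_ ?_ ?_
    · intro _ _; exact mem_univ _
    · intro _ _; exact mem_univ _
    · intro z _; exact mul_div_cancel_left₀ z hd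
    · intro z _; exact mul_div_cancel₀ z hd
    · intro z _
      rw [mul_div_cancel_left₀ z hd, map_mul]
      ring

theorem second_moment (w : ZMod p → ℂ) (h0 : w 0 = 0) :
    ∑ χ : DirichletCharacter ℂ p, ‖∑ z, w z * χ z‖ ^ 2 = ((p - 1 : ℕ) : ℝ) * ∑ z, ‖w z‖ ^ 2 := by
  have hp : p.Prime := Fact.out
  have key : ∀ z z' : ZMod p, z ≠ 0 → ∑ χ : DirichletCharacter ℂ p, χ z' * (starRingEnd ℂ) (χ z) =
      if z = z' then ((p - 1 : ℕ) : ℂ) else 0 := by
    intro z z' hz
    have hu : IsUnit z := isUnit_iff_ne_zero.2 hz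
    have h1 := DirichletCharacter.sum_char_inv_mul_char_eq ℂ hu z'
    rw [Nat.totient_prime hp] at h1
    rw [← h1]
    refine sum_congr rfl fun χ _ => ?_
    have h2 : (starRingEnd ℂ) (χ z) = χ z⁻¹ := by
      have h3 : ‖χ z‖ = 1 := by
        have := DirichletCharacter.unit_norm_eq_one χ hu.unit
        simpa using this
      have h4 : χ z * χ z⁻¹ = 1 := by
        rw [← map_mul, mul_inv_cancel₀ hz, map_one]
      have h5 : χ z * (starRingEnd ℂ) (χ z) = 1 := by
        rw [Complex.mul_conj, Complex.normSq_eq_norm_sq, h3]; simp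
      have h6 : χ z ≠ 0 := left_ne_zero_of_mul_eq_one h4
      exact mul_left_cancel₀ h6 (h5.trans h4.symm)
    rw [h2, mul_comm]
  have h1 : ((∑ χ : DirichletCharacter ℂ p, ‖∑ z, w z * χ z‖ ^ 2 : ℝ) : ℂ) =
      ((((p - 1 : ℕ) : ℝ) * ∑ z, ‖w z‖ ^ 2 : ℝ) : ℂ) := by
    push_cast
    have h2 : ∀ χ : DirichletCharacter ℂ p, ((‖∑ z, w z * χ z‖ : ℂ)) ^ 2 =
        ∑ z', ∑ z, (w z' * (starRingEnd ℂ) (w z)) * (χ z' * (starRingEnd ℂ) (χ z)) := by
      intro χ
      rw [← Complex.mul_conj', map_sum, sum_mul_sum]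
      refine sum_congr rfl fun z' _ => sum_congr rfl fun z _ => ?_
      rw [map_mul]
      ring
    simp_rw [h2]
    rw [sum_comm]
    rw [mul_sum]
    refine sum_congr rfl fun z' _ => ?_
    rw [sum_comm]
    have h3 : ∀ z : ZMod p, ∑ χ : DirichletCharacter ℂ p,
        (w z' * (starRingEnd ℂ) (w z)) * (χ z' * (starRingEnd ℂ) (χ z)) =
        if z = z' then ((p - 1 : ℕ) : ℂ) * ((‖w z'‖ : ℂ)) ^ 2 else 0 := by
      intro z
      rw [← mul_sum]
      rcases eq_or_ne z 0 with rfl | hz
      · rw [h0]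
        simp only [map_zero, mul_zero, zero_mul]
        split_ifs with h
        · rw [← h, h0]; simp
        · rfl
      · rw [key z z' hz]
        split_ifs with h
        · rw [h, Complex.mul_conj']
          ring
        · rw [mul_zero]
    rw [sum_congr rfl fun z _ => h3 z, Finset.sum_ite_eq']
    simp
  exact_mod_cast h1

end MOM

/-- MOM -/
theorem specMOM : SpecMOM := by
  intro p _ A B α β hα hβ k
  have hp : p.Prime := Fact.out
  have h1 : ∀ χ : DirichletCharacter ℂ p,
      ‖∑ a ∈ A, ∑ b ∈ B, α a * β b * χ (a - b)‖ ^ (2 * k) =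
        ‖∑ z, MOM.wk A B α β k z * χ z‖ ^ 2 := by
    intro χ
    rw [← MOM.pow_eq, norm_pow, ← pow_mul, mul_comm]
  rw [sum_congr rfl fun χ _ => h1 χ, MOM.second_moment _ (MOM.wk_zero A B α β k)]
  have h2 : ∑ z, ‖MOM.wk A B α β k z‖ ^ 2 ≤ (Tk A B k : ℝ) := by
    unfold Tk
    push_cast
    exact sum_le_sum fun z _ => pow_le_pow_left₀ (norm_nonneg _) (MOM.wk_le A B hα hβ k z) 2
  have h3 : ((p - 1 : ℕ) : ℝ) ≤ p := by exact_mod_cast Nat.sub_le p 1
  exact mul_le_mul h3 h2 (sum_nonneg fun _ _ => by positivity) (Nat.cast_nonneg _)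

end MPcb27.RU
end

section
/-!
# MOM2: moments of the character sums over all characters, twisted differences
-/
set_option autoImplicit false

namespace MPcb27.RU2

open Finset

namespace MOM2

variable {p : ℕ} [Fact p.Prime]

/-- number of representations, complex valued -/
noncomputable def wk (u v : ZMod p → ZMod p) (A B : Finset (ZMod p)) (k : ℕ) (z : ZMod p) : ℂ :=
  (fk u v A B k z : ℂ)

theorem fk_zero (u v : ZMod p → ZMod p) (A B : Finset (ZMod p)) (k : ℕ) : fk u v A B k 0 = 0 := by
  induction k with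
  | zero =>
    unfold fk
    rw [if_neg zero_ne_one]
  | succ k ih =>
    unfold fk
    refine sum_eq_zero fun q _ => ?_
    rw [zero_div, ih]

theorem pow_eq (u v : ZMod p → ZMod p) (A B : Finset (ZMod p)) (χ : DirichletCharacter ℂ p) (k : ℕ) :
    (∑ a ∈ A, ∑ b ∈ B, χ (dv u v a b)) ^ k = ∑ z, wk u v A B k z * χ z := by
  have hS : ∑ a ∈ A, ∑ b ∈ B, χ (dv u v a b) =
      ∑ q ∈ (A ×ˢ B).filter (fun q => dv u v q.1 q.2 ≠ 0), χ (dv u v q.1 q.2) := by
    rw [← sum_product', sum_filter]
    refine sum_congr rfl fun q _ => ?_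
    split_ifs with h
    · rfl
    · rw [not_not] at h
      rw [h, MulChar.map_zero]
  induction k with
  | zero =>
    rw [pow_zero]
    unfold wk fk
    simp
  | succ k ih =>
    rw [pow_succ', ih, hS]
    have hR : ∀ z ∈ (univ : Finset (ZMod p)), wk u v A B (k + 1) z * χ z =
        ∑ q ∈ (A ×ˢ B).filter (fun q => dv u v q.1 q.2 ≠ 0),
          wk u v A B k (z / dv u v q.1 q.2) * χ z := by
      intro z _
      conv_lhs => unfold wk fk
      push_cast
      rw [sum_mul]
      rfl
    rw [sum_congr rfl hR, sum_comm, sum_mul]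
    refine sum_congr rfl fun q hq => ?_
    rw [mem_filter] at hq
    have hd : dv u v q.1 q.2 ≠ 0 := hq.2
    rw [mul_sum]
    refine Finset.sum_nbij' (fun z => dv u v q.1 q.2 * z) (fun z => z / dv u v q.1 q.2) ?_ ?_ ?_ ?_ ?_
    · intro _ _; exact mem_univ _
    · intro _ _; exact mem_univ _
    · intro z _; exact mul_div_cancel_left₀ z hd
    · intro z _; exact mul_div_cancel₀ z hd
    · intro z _
      rw [mul_div_cancel_left₀ z hd, map_mul]
      ring

end MOM2

/-- MOM2 -/
theorem specMOM : SpecMOM := by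
  intro p _ u v A B k
  have hp : p.Prime := Fact.out
  have h1 : ∀ χ : DirichletCharacter ℂ p,
      ‖∑ a ∈ A, ∑ b ∈ B, χ (dv u v a b)‖ ^ (2 * k) =
        ‖∑ z, MOM2.wk u v A B k z * χ z‖ ^ 2 := by
    intro χ
    rw [← MOM2.pow_eq, norm_pow, ← pow_mul, mul_comm]
  have h0 : MOM2.wk u v A B k 0 = 0 := by
    unfold MOM2.wk
    rw [MOM2.fk_zero, Nat.cast_zero]
  rw [sum_congr rfl fun χ _ => h1 χ, RU.MOM.second_moment _ h0]
  have h2 : ∑ z, ‖MOM2.wk u v A B k z‖ ^ 2 ≤ (Tk u v A B k : ℝ) := by
    unfold Tk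
    push_cast
    refine le_of_eq (sum_congr rfl fun z _ => ?_)
    unfold MOM2.wk
    rw [Complex.norm_natCast]
  have h3 : ((p - 1 : ℕ) : ℝ) ≤ p := by exact_mod_cast Nat.sub_le p 1
  exact mul_le_mul h3 h2 (sum_nonneg fun _ _ => by positivity) (Nat.cast_nonneg _)

end MPcb27.RU2
end

section
/-!
# MP_cb27ba_nt, project RU: the incidence bound for points and planes over `ZMod p` (Rudnev)
-/
set_option autoImplicit false

namespace MPcb27.RU

/-- the incidence bound for points and planes in `(ZMod p)³` -/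
theorem rudnev : SpecRUD :=
  specRUD (specCORE (specZL specLN0) (specEXT specLN0 (specZL specLN0)) (specLEAF specLN0)
    (specCONC (specZL specLN0)) specAL specDER) specINT specPRU

end MPcb27.RU
end
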