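import Mathlib

/-!
# MP_cb27ba_nt, project RU: exact statements of the modules

GOAL (theorem CH): for every `ε > 0` there is `τ > 0` such that for ALL nonempty `A`, `B` in `ZMod p`,
all weights bounded by `1`, the sum of `α a * β b * χ (a - b)` is at most `p ^ (-τ) #A #B` for all
characters `χ` mod `p` but at most `p ^ ε max (1, p / (#A #B))` of them.

TOOL: the incidence bound for points and planes in `(ZMod p)³` (Rudnev), with a short proof:
`F ≠ 0` of least degree in the four entries of a matrix `Z = (z0 z1; z2 z3)` which vanishes on the planes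
`α q`, `q` in `P` (all `Z` with `Z (1,b) = (x,c)`, `q = (b,x,c)`). If `π` has more than `deg F` points then
`F = 0` on `β π` (all `Z` with `(-b',1) Z = (m1,m2)`, `π = (b',m1,m2)`, the plane `c = b' x + m1 + m2 b`).
On `α q` (coordinates `w = (z1, z3)`) the gradient of `F` is then normal to the line
`w1 = b' w0 + m2` along that line, for every `π` through `q`: the vector field
`(X, Y) = (∂2 F, -∂0 F)` is tangent to more than `3 deg F` lines, so its extactic polynomial is zero, so it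
is a pencil of lines (then too many `π` contain one line) or zero. If it is zero for all `q` then the
derivatives of `F` vanish on all `α q`, against the choice of `F`.
-/

set_option autoImplicit false

namespace MPcb27.RU

open Finset MvPolynomial

/-! ## the plane; a line `(b, μ)` is `{(t, b t + μ)}` -/

/-- restriction of `f` to the line through `w` with direction `u` -/
noncomputable def ln {K : Type} [Field K] (w u : Fin 2 → K) (f : MvPolynomial (Fin 2) K) :
    Polynomial K :=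
  MvPolynomial.aeval (fun i => Polynomial.C (w i) + Polynomial.C (u i) * Polynomial.X) f

/-- LN0: basic facts (induction on `f` for the chain rule). -/
def SpecLN0 : Prop :=
  ∀ (K : Type) [Field K] (w u : Fin 2 → K) (f : MvPolynomial (Fin 2) K),
    (ln w u f).natDegree ≤ f.totalDegree ∧
    (∀ s : K, (ln w u f).eval s = MvPolynomial.eval (fun i => w i + u i * s) f) ∧
    Polynomial.derivative (ln w u f) =
      Polynomial.C (u 0) * ln w u (pderiv 0 f) + Polynomial.C (u 1) * ln w u (pderiv 1 f)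

/-- ZL: a polynomial which vanishes on more lines than its degree is zero. Proof: take `w` with
`f w ≠ 0` (infinite field), a direction `u` which is none of the finitely many directions parallel to a
line of `S` or through a common point of two of them; `ln w u f` has `#S` different roots. -/
def SpecZL : Prop :=
  ∀ (K : Type) [Field K] [Infinite K] (f : MvPolynomial (Fin 2) K) (S : Finset (K × K)),
    f.totalDegree < #S → (∀ l ∈ S, ∀ t : K, eval ![t, l.1 * t + l.2] f = 0) → f = 0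

/-- the extactic polynomial of the vector field `(X, Y)` -/
noncomputable def ext {K : Type} [Field K] (X Y : MvPolynomial (Fin 2) K) : MvPolynomial (Fin 2) K :=
  X * (X * pderiv 0 Y + Y * pderiv 1 Y) - Y * (X * pderiv 0 X + Y * pderiv 1 X)

/-- EXT: `Y = b X` on more than `3 d` lines `(b, μ)`: the extactic polynomial is zero. From LN0, ZL:
on the line `(X, Y) = X (1, b)`, so the derivative of `Y` along the field is `b` times that of `X`. -/
def SpecEXT : Prop :=
  ∀ (K : Type) [Field K] [Infinite K] (X Y : MvPolynomial (Fin 2) K) (d : ℕ) (S : Finset (K × K)),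
    X.totalDegree ≤ d → Y.totalDegree ≤ d → 3 * d < #S →
    (∀ l ∈ S, ∀ t : K, eval ![t, l.1 * t + l.2] Y = l.1 * eval ![t, l.1 * t + l.2] X) →
    ext X Y = 0

/-- LEAF: if the extactic polynomial is zero then the field is parallel to `(X w, Y w)` on the whole
line through `w` with this direction. Proof: `u = (X w, Y w) ≠ 0`, `c1 = ln w u X`, `c2 = ln w u Y`,
`σ = u 0 c2 - u 1 c1`, `σ 0 = 0`; choose `e` with `u 0 e 1 - u 1 e 0 = 1`, `c = ρ u + σ e`, `ρ 0 = 1`.
`ext = 0` at `w + s u` and the chain rule (`c' = DX u`) give `ρ² σ' = σ (ρ ρ' + η)`, `η` a polynomial;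
if `σ = X^j σ₀`, `σ₀ 0 ≠ 0`, `1 ≤ j ≤ d < p`, then the left side is not divisible by `X^j`. -/
def SpecLEAF : Prop :=
  ∀ (K : Type) [Field K] (p : ℕ) [CharP K p] (X Y : MvPolynomial (Fin 2) K) (d : ℕ),
    X.totalDegree ≤ d → Y.totalDegree ≤ d → d < p → ext X Y = 0 →
    ∀ (w : Fin 2 → K) (s : K),
      eval w X * eval (fun i => w i + ![eval w X, eval w Y] i * s) Y =
        eval w Y * eval (fun i => w i + ![eval w X, eval w Y] i * s) X

/-- CONC: then all but `d` of the lines are concurrent or parallel. Proof: `S'` = the lines on which `X`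
is not identically zero (ZL; if `X = 0` then `Y = 0` on all lines of `S`, so `#S ≤ d`). For `w` outside
finitely many lines with `X w ≠ 0` the leaf `{w + s (X w, Y w)}` meets a line of `S'` which is not
parallel to it in a zero of `X` (finitely many on each line of `S'`). For two lines of `S'` which are not
parallel, `w` generic: the leaf passes through two zeros, one on each line; as `w` is not on the
finitely many lines through two different zeros, or through a zero and parallel to a line of `S'`, it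
passes through the common point of the two lines. Three lines not through one point: `w` generic is
on none of the lines through two of the common points. -/
def SpecCONC : Prop :=
  ∀ (K : Type) [Field K] [Infinite K] (X Y : MvPolynomial (Fin 2) K) (d : ℕ) (S : Finset (K × K)),
    X.totalDegree ≤ d → Y.totalDegree ≤ d → (X ≠ 0 ∨ Y ≠ 0) →
    (∀ (w : Fin 2 → K) (s : K),
      eval w X * eval (fun i => w i + ![eval w X, eval w Y] i * s) Y =
        eval w Y * eval (fun i => w i + ![eval w X, eval w Y] i * s) X) →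
    (∀ l ∈ S, ∀ t : K, eval ![t, l.1 * t + l.2] Y = l.1 * eval ![t, l.1 * t + l.2] X) →
    ∃ S' ⊆ S, #S ≤ #S' + d ∧
      ((∃ v0 v1 : K, ∀ l ∈ S', v1 = l.1 * v0 + l.2) ∨ ∃ b : K, ∀ l ∈ S', l.1 = b)

/-! ## four variables; points `q = (b, x, c)`, planes `π = (b', m1, m2)` -/

/-- restriction to `α q`, coordinates `(z1, z3)` -/
noncomputable def al {K : Type} [Field K] (q : K × K × K) :
    MvPolynomial (Fin 4) K →ₐ[K] MvPolynomial (Fin 2) K :=
  aeval ![C q.2.1 - C q.1 * X 0, X 0, C q.2.2 - C q.1 * X 1, X 1]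

/-- restriction to `β π`, coordinates `(z1, z0)` -/
noncomputable def be {K : Type} [Field K] (π : K × K × K) :
    MvPolynomial (Fin 4) K →ₐ[K] MvPolynomial (Fin 2) K :=
  aeval ![X 1, X 0, C π.1 * X 1 + C π.2.1, C π.1 * X 0 + C π.2.2]

/-- `q` lies on `π` -/
def Inc {K : Type} [Field K] (q π : K × K × K) : Prop :=
  q.2.2 = π.1 * q.2.1 + π.2.1 + π.2.2 * q.1

/-- AL: basic facts (chain rule for `al q`, `be π` by induction on the polynomial). -/
def SpecAL : Prop :=
  ∀ (K : Type) [Field K] (q π : K × K × K) (F : MvPolynomial (Fin 4) K),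
    (al q F).totalDegree ≤ F.totalDegree ∧ (be π F).totalDegree ≤ F.totalDegree ∧
    (al q F = 0 → al q (pderiv 1 F) = C q.1 * al q (pderiv 0 F) ∧
      al q (pderiv 3 F) = C q.1 * al q (pderiv 2 F)) ∧
    (be π F = 0 → be π (pderiv 0 F) = - (C π.1 * be π (pderiv 2 F)) ∧
      be π (pderiv 1 F) = - (C π.1 * be π (pderiv 3 F))) ∧
    (Inc q π → ∀ t : K, eval ![t, π.1 * t + π.2.2] (al q F) =
      eval ![t, -q.1 * t + q.2.1] (be π F))

/-- DER: degrees of derivatives, and a polynomial with zero derivatives (coefficients of `pderiv`). -/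
def SpecDER : Prop :=
  ∀ (K : Type) [Field K] (p : ℕ) [CharP K p] (F : MvPolynomial (Fin 4) K), F.totalDegree < p →
    (∀ i, (pderiv i F).totalDegree ≤ F.totalDegree - 1) ∧
    ((∀ i, pderiv i F = 0) → ∃ c : K, F = C c)

/-- CORE: from ZL, EXT, LEAF, CONC, AL, DER. Take `F` of least total degree. For `π` in `Q`: `be π F = 0`
by ZL with the lines `(-b, x)`, `q = (b,x,c)` a neighbour of `π` (at least `R` different lines). For `q` in
`P`: `X = al q (∂2 F)`, `Y = - al q (∂0 F)`, `Y = b' X` on the `R` different lines `(b', m2)`, `π` a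
neighbour of `q`; so `X = Y = 0`, then all `al q (∂i F) = 0`; the derivatives have smaller degree, so they
are zero, `F` is constant, `F = al q F = 0`. -/
def SpecCORE : Prop :=
  ∀ (K : Type) [Field K] [Infinite K] (p : ℕ) [CharP K p] [DecidableEq K]
    (P Q : Finset (K × K × K)) (G : Finset ((K × K × K) × (K × K × K))) (D R k : ℕ),
    P.Nonempty → G ⊆ P ×ˢ Q → (∀ g ∈ G, Inc g.1 g.2) →
    (∀ q ∈ P, R ≤ #(G.filter fun g => g.1 = q)) → (∀ π ∈ Q, R ≤ #(G.filter fun g => g.2 = π)) →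
    (∀ q ∈ P, ∀ v0 v1 : K, #(G.filter fun g => g.1 = q ∧ v1 = g.2.1 * v0 + g.2.2.2) ≤ k) →
    (∀ q ∈ P, ∀ b : K, #(G.filter fun g => g.1 = q ∧ g.2.1 = b) ≤ k) →
    D < p → 3 * D < R → k + D < R →
    (∃ F : MvPolynomial (Fin 4) K, F ≠ 0 ∧ F.totalDegree ≤ D ∧ ∀ q ∈ P, al q F = 0) → False

/-- INT: interpolation. Coefficients of the monomials with all four exponents `≤ m`: dimension
`(m+1)^4`; conditions: values of `al q F` on a grid of `(4m+1)²` points; then `al q F = 0`
(`MvPolynomial.eq_zero_of_eval_zero_at_prod_finset`). -/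
def SpecINT : Prop :=
  ∀ (K : Type) [Field K] [Infinite K] (P : Finset (K × K × K)) (m : ℕ),
    #P * (4 * m + 1) ^ 2 < (m + 1) ^ 4 →
    ∃ F : MvPolynomial (Fin 4) K, F ≠ 0 ∧ F.totalDegree ≤ 4 * m ∧ ∀ q ∈ P, al q F = 0

/-- PRU: pruning of a bipartite graph (remove vertices of degree `< R` one by one). -/
def SpecPRU : Prop :=
  ∀ (α β : Type) [DecidableEq α] [DecidableEq β] (P : Finset α) (Q : Finset β)
    (G : Finset (α × β)) (R : ℕ), G ⊆ P ×ˢ Q → R * (#P + #Q) < #G →
    ∃ P' ⊆ P, ∃ Q' ⊆ Q, ∃ G' ⊆ G, P'.Nonempty ∧ G' ⊆ P' ×ˢ Q' ∧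
      (∀ q ∈ P', R ≤ #(G'.filter fun g => g.1 = q)) ∧ ∀ π ∈ Q', R ≤ #(G'.filter fun g => g.2 = π)

/-- RUD: the incidence bound over `ZMod p`. From CORE, INT, PRU with `K` the algebraic closure,
`m = Nat.sqrt (16 N)`, `D = 4 m`, `R = 3 D + k + 1`. (A point `v` of `K²` on two different lines `(b', m2)` over
`ZMod p` with different `b'` has coordinates in `ZMod p`; `q` and `(b', m2)` determine `π`.) -/
def SpecRUD : Prop :=
  ∀ (p : ℕ) [Fact p.Prime] (P Q : Finset (ZMod p × ZMod p × ZMod p))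
    (G : Finset ((ZMod p × ZMod p × ZMod p) × (ZMod p × ZMod p × ZMod p))) (N k : ℕ),
    1 ≤ k → G ⊆ P ×ˢ Q → (∀ g ∈ G, Inc g.1 g.2) → #P ≤ N → #Q ≤ N → 256 * N < p ^ 2 →
    (∀ q ∈ P, ∀ v0 v1 : ZMod p,
      #(G.filter fun g => g.1 = q ∧ v1 = g.2.1 * v0 + g.2.2.2) ≤ k) →
    (∀ q ∈ P, ∀ b : ZMod p, #(G.filter fun g => g.1 = q ∧ g.2.1 = b) ≤ k) →
    (#G : ℝ) ≤ 2 * N * (48 * Real.sqrt N + k + 1)

/-! ## products of differences -/

/-- number of solutions of `(a - b) x = (a' - b') x' ≠ 0` -/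
def TX {p : ℕ} (A B X : Finset (ZMod p)) : ℕ :=
  #(((A ×ˢ B ×ˢ X) ×ˢ (A ×ˢ B ×ˢ X)).filter fun t =>
    (t.1.1 - t.1.2.1) * t.1.2.2 = (t.2.1 - t.2.2.1) * t.2.2.2 ∧ (t.1.1 - t.1.2.1) * t.1.2.2 ≠ 0)

/-- TXB: from RUD. May assume `0 ∉ X`. Solutions `(a, b, x')`, `(a', b', x)` of
`(a - b) x' = (a' - b') x`: points `(b, x, a' x)`, planes `(b', a x', -x')`; at most `M = max #A #B` of the
neighbours of a point share a line (`b'` determines `x'` and `a`, or `b'` is fixed and `a` determines `x'`).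
So `T ≤ 2 N (48 sqrt N + M + 1)`, `N = #A #B #X`; and `T ≤ N² / M` (Cauchy-Schwarz, `r ≤ min`). -/
def SpecTXB : Prop :=
  ∀ (p : ℕ) [Fact p.Prime] (A B X : Finset (ZMod p)), 256 * (#A * #B) < p →
    (TX A B X : ℝ) ≤ 100 * ((#A : ℝ) * #B * #X) ^ (3 / 2 : ℝ)

/-- number of representations of `z` as a product of `k` nonzero differences -/
def fk {p : ℕ} [Fact p.Prime] (A B : Finset (ZMod p)) : ℕ → ZMod p → ℕ
  | 0, z => if z = 1 then 1 else 0
  | k + 1, z => ∑ q ∈ (A ×ˢ B).filter (fun q => q.1 ≠ q.2), fk A B k (z / (q.1 - q.2))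

/-- number of solutions of `∏ (a_i - b_i) = ∏ (a_i' - b_i') ≠ 0`, `k` factors -/
def Tk {p : ℕ} [Fact p.Prime] (A B : Finset (ZMod p)) (k : ℕ) : ℕ := ∑ z : ZMod p, fk A B k z ^ 2

/-- STEP: from TXB. `X_j` = the `z ≠ 0` with `2^j ≤ fk z < 2^(j+1)`, `j < L`, `L = Nat.log 2 (n^k) + 1`,
`n = #A #B`; `f_(k+1) ≤ ∑_j 2^(j+1) s_j`, `s_j z = #{(a,b,x), x ∈ X_j, (a - b) x = z}`, Cauchy-Schwarz over
`j`, and `2^(2j) #X_j^(3/2) = (2^j #X_j) (2^(2j) #X_j)^(1/2) ≤ n^k (Tk)^(1/2)`. -/
def SpecSTEP : Prop :=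
  ∀ (p : ℕ) [Fact p.Prime] (A B : Finset (ZMod p)) (k : ℕ), 256 * (#A * #B) < p → 1 ≤ #A * #B →
    (Tk A B (k + 1) : ℝ) ≤ 400 * ((Nat.log 2 ((#A * #B) ^ k) : ℝ) + 1) ^ 2 *
      ((#A : ℝ) * #B) ^ ((k : ℝ) + 3 / 2) * Real.sqrt (Tk A B k)

/-- ITE: from STEP, by induction; `T_1 ≤ n^(3/2)`. -/
def SpecITE : Prop :=
  ∀ k : ℕ, 1 ≤ k → ∃ C : ℝ, 1 ≤ C ∧ ∀ (p : ℕ) [Fact p.Prime] (A B : Finset (ZMod p)),
    256 * (#A * #B) < p → 1 ≤ #A * #B →
      (Tk A B k : ℝ) ≤ C * (1 + Real.log p) ^ 4 *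
        ((#A : ℝ) * #B) ^ (2 * (k : ℝ) - 1 + (1 / 2) ^ k)

/-- MOM: moments over all characters, `DirichletCharacter.sum_char_inv_mul_char_eq`. -/
def SpecMOM : Prop :=
  ∀ (p : ℕ) [Fact p.Prime] (A B : Finset (ZMod p)) (α β : ZMod p → ℂ),
    (∀ a, ‖α a‖ ≤ 1) → (∀ b, ‖β b‖ ≤ 1) → ∀ k : ℕ,
      ∑ χ : DirichletCharacter ℂ p, ‖∑ a ∈ A, ∑ b ∈ B, α a * β b * χ (a - b)‖ ^ (2 * k) ≤
        p * Tk A B k

/-- FIN: the final theorem, from ITE, MOM. If `#A ≤ #B` (the other case by symmetry, or directly), cut `B`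
into `t` pieces of at most `s = min (#B, p / (512 #A))` elements; some piece has a sum of absolute value more than
`p^(-τ) #A #B / t`. If `#A #B > p^(1+2τ)` only `χ = 1` is an exception (`|sum| ≤ (p #A #B)^(1/2)`, in the library:
`SP.FINSP.nb_sqrt`). -/
def FinalCH : Prop :=
  ∀ ε : ℝ, 0 < ε → ∃ τ : ℝ, 0 < τ ∧ ∃ P : ℕ, ∀ (p : ℕ) [Fact p.Prime], P ≤ p →
    ∀ A B : Finset (ZMod p), A.Nonempty → B.Nonempty → ∀ α β : ZMod p → ℂ,
      (∀ a, ‖α a‖ ≤ 1) → (∀ b, ‖β b‖ ≤ 1) →
      (Set.ncard {χ : DirichletCharacter ℂ p | (p : ℝ) ^ (-τ) * (#A * #B) <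
          ‖∑ a ∈ A, ∑ b ∈ B, α a * β b * χ (a - b)‖} : ℝ) ≤
        (p : ℝ) ^ ε * max 1 ((p : ℝ) / (#A * #B))

end MPcb27.RU
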