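import Pool.Agent.Lib.MP_cb27ba_nt.RU.Spec2
import Pool.Agent.Lib.MP_cb27ba_nt.RU.Spec4
import Pool.Agent.Lib.MP_cb27ba_nt.RU.Spec

section
/-!
# ITE (twisted form): the iteration of the bound for the number of equal products of differences
-/
set_option autoImplicit false

namespace MPcb27.RU2

open Finset

namespace ITE

theorem Tk_zero {p : ℕ} [Fact p.Prime] (u v : ZMod p → ZMod p) (A B : Finset (ZMod p)) :
    Tk u v A B 0 = 1 := by
  unfold Tk
  have h : ∀ z : ZMod p, fk u v A B 0 z ^ 2 = if z = 1 then 1 else 0 := by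
    intro z
    show (if z = 1 then 1 else 0) ^ 2 = _
    split_ifs <;> rfl
  rw [Finset.sum_congr rfl (fun z _ => h z), Finset.sum_ite_eq' Finset.univ (1 : ZMod p)]
  simp

theorem log_le {n p k : ℕ} (hn : 1 ≤ n) (hp : n < p) :
    (Nat.log 2 (n ^ k) : ℝ) + 1 ≤ (2 * k + 1) * (1 + Real.log p) := by
  have h1 : (Nat.log 2 (n ^ k) : ℝ) ≤ Real.logb ((2 : ℕ) : ℝ) ((n ^ k : ℕ) : ℝ) :=
    Real.natLog_le_logb _ _
  have hn0 : (1 : ℝ) ≤ n := by exact_mod_cast hn
  have hnp : (n : ℝ) ≤ p := by exact_mod_cast hp.le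
  have hln : 0 ≤ Real.log n := Real.log_nonneg hn0
  have hlp : Real.log n ≤ Real.log p := Real.log_le_log (by linarith) hnp
  have h2 : Real.logb ((2 : ℕ) : ℝ) ((n ^ k : ℕ) : ℝ) ≤ 2 * k * Real.log p := by
    rw [Real.logb, Nat.cast_pow, Real.log_pow, Nat.cast_ofNat,
      div_le_iff₀ (Real.log_pos (by norm_num))]
    have h3 : (1 : ℝ) / 2 ≤ Real.log 2 := by linarith [Real.log_two_gt_d9]
    have h4 : (k : ℝ) * Real.log n ≤ k * Real.log p :=
      mul_le_mul_of_nonneg_left hlp (Nat.cast_nonneg k)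
    have h5 : 0 ≤ (k : ℝ) * Real.log p := by
      have := hln.trans hlp
      positivity
    nlinarith
  have h5 : 0 ≤ Real.log p := hln.trans hlp
  have h6 : (0 : ℝ) ≤ k := Nat.cast_nonneg k
  nlinarith

end ITE

theorem specITE (hS : SpecSTEP) : SpecITE := by
  intro k hk
  induction k, hk using Nat.le_induction with
  | base =>
    refine ⟨400, by norm_num, ?_⟩
    intro p _ u v A B hp hn
    have h := hS p u v A B 0 hp hn
    rw [ITE.Tk_zero] at h
    have hp1 : (1 : ℝ) ≤ p := by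
      have : 1 ≤ p := by omega
      exact_mod_cast this
    have hL : 0 ≤ Real.log p := Real.log_nonneg hp1
    have hn0 : (0 : ℝ) ≤ (#A : ℝ) * #B := by positivity
    have hL4 : (1 : ℝ) ≤ (1 + Real.log p) ^ 4 := one_le_pow₀ (by linarith)
    have e1 : (2 * ((1 : ℕ) : ℝ) - 1 + (1 / 2) ^ 1) = ((0 : ℕ) : ℝ) + 3 / 2 := by norm_num
    rw [e1]
    have h0 : (0 : ℝ) ≤ ((#A : ℝ) * #B) ^ (((0 : ℕ) : ℝ) + 3 / 2) := Real.rpow_nonneg hn0 _
    calc (Tk u v A B 1 : ℝ) ≤ _ := h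
      _ = 400 * ((#A : ℝ) * #B) ^ (((0 : ℕ) : ℝ) + 3 / 2) := by simp
      _ ≤ 400 * (1 + Real.log p) ^ 4 * ((#A : ℝ) * #B) ^ (((0 : ℕ) : ℝ) + 3 / 2) := by
        nlinarith
  | succ k hk ih =>
    obtain ⟨C, hC, ih⟩ := ih
    refine ⟨400 * (2 * k + 1) ^ 2 * C, ?_, ?_⟩
    · have : (0 : ℝ) ≤ k := Nat.cast_nonneg k
      nlinarith [sq_nonneg (2 * (k : ℝ) + 1), mul_nonneg this this]
    intro p _ u v A B hp hn
    have h := hS p u v A B k hp hn
    have hT := ih p u v A B hp hn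
    have hp1 : (1 : ℝ) ≤ p := by
      have : 1 ≤ p := by omega
      exact_mod_cast this
    have hL : 0 ≤ Real.log p := Real.log_nonneg hp1
    have hnn : (1 : ℝ) ≤ (#A : ℝ) * #B := by exact_mod_cast hn
    have hn0 : (0 : ℝ) < (#A : ℝ) * #B := by linarith
    set n : ℝ := (#A : ℝ) * #B with hndef
    have hlog := ITE.log_le (k := k) hn (by omega : #A * #B < p)
    have hs : Real.sqrt (Tk u v A B k) ≤
        C * (1 + Real.log p) ^ 2 * n ^ ((k : ℝ) - 1 / 2 + (1 / 2) ^ (k + 1)) := by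
      refine Real.sqrt_le_iff.mpr ⟨by positivity, hT.trans ?_⟩
      have e : (C * (1 + Real.log p) ^ 2 * n ^ ((k : ℝ) - 1 / 2 + (1 / 2) ^ (k + 1))) ^ 2 =
          C ^ 2 * (1 + Real.log p) ^ 4 * n ^ (2 * (k : ℝ) - 1 + (1 / 2) ^ k) := by
        rw [mul_pow, mul_pow, ← pow_mul, ← Real.rpow_natCast (n ^ _) 2, ← Real.rpow_mul hn0.le]
        congr 2
        push_cast
        rw [pow_succ]
        ring
      rw [e]
      have : (0 : ℝ) ≤ (1 + Real.log p) ^ 4 * n ^ (2 * (k : ℝ) - 1 + (1 / 2) ^ k) := by positivity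
      nlinarith [mul_le_mul_of_nonneg_right hC this, sq_nonneg C]
    have hlog0 : (0 : ℝ) ≤ (Nat.log 2 ((#A * #B) ^ k) : ℝ) + 1 := by positivity
    calc (Tk u v A B (k + 1) : ℝ) ≤ _ := h
      _ ≤ 400 * ((2 * k + 1) * (1 + Real.log p)) ^ 2 * n ^ ((k : ℝ) + 3 / 2) *
          (C * (1 + Real.log p) ^ 2 * n ^ ((k : ℝ) - 1 / 2 + (1 / 2) ^ (k + 1))) := by
        gcongr
      _ = 400 * (2 * k + 1) ^ 2 * C * (1 + Real.log p) ^ 4 *
          (n ^ ((k : ℝ) + 3 / 2) * n ^ ((k : ℝ) - 1 / 2 + (1 / 2) ^ (k + 1))) := by ring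
      _ = _ := by
        rw [← Real.rpow_add hn0]
        congr 2
        push_cast
        ring

end MPcb27.RU2
end

section
/-!
# ITE4: the iteration with an absolute constant
-/
set_option autoImplicit false

namespace MPcb27.RU2

open Finset

theorem specITE4 (hS : SpecSTEP4) : SpecITE4 := by
  refine ⟨3600 ^ 2, by norm_num, ?_⟩
  intro k hk
  induction k, hk using Nat.le_induction with
  | base =>
    intro p _ u v A B hi hp hn
    have h := hS p u v A B 0 hi hp hn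
    rw [ITE.Tk_zero] at h
    have hp1 : (1 : ℝ) ≤ p := by
      have : 1 ≤ p := by omega
      exact_mod_cast this
    have hL : 0 ≤ Real.log p := Real.log_nonneg hp1
    have hn0 : (0 : ℝ) ≤ (#A : ℝ) * #B := by positivity
    have hL4 : (1 : ℝ) ≤ (1 + Real.log p) ^ 4 := one_le_pow₀ (by linarith)
    have e1 : (2 * ((1 : ℕ) : ℝ) - 1 + (1 / 2) ^ 1) = ((0 : ℕ) : ℝ) + 3 / 2 := by norm_num
    rw [e1]
    have h0 : (0 : ℝ) ≤ ((#A : ℝ) * #B) ^ (((0 : ℕ) : ℝ) + 3 / 2) := Real.rpow_nonneg hn0 _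
    calc (Tk u v A B 1 : ℝ) ≤ _ := h
      _ = 400 * ((#A : ℝ) * #B) ^ (((0 : ℕ) : ℝ) + 3 / 2) := by simp
      _ ≤ 3600 ^ 2 * ((1 : ℕ) : ℝ) ^ 4 * (1 + Real.log p) ^ 4 *
          ((#A : ℝ) * #B) ^ (((0 : ℕ) : ℝ) + 3 / 2) := by
        refine mul_le_mul_of_nonneg_right ?_ h0
        rw [Nat.cast_one, one_pow, mul_one]
        linarith
  | succ k hk ih =>
    intro p _ u v A B hi hp hn
    have h := hS p u v A B k hi hp hn
    have hT := ih p u v A B hi hp hn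
    have hk1 : (1 : ℝ) ≤ k := by exact_mod_cast hk
    have hp1 : (1 : ℝ) ≤ p := by
      have : 1 ≤ p := by omega
      exact_mod_cast this
    have hL : 0 ≤ Real.log p := Real.log_nonneg hp1
    have hnn : (1 : ℝ) ≤ (#A : ℝ) * #B := by exact_mod_cast hn
    have hn0 : (0 : ℝ) < (#A : ℝ) * #B := by linarith
    set n : ℝ := (#A : ℝ) * #B with hndef
    have hlog := ITE.log_le (k := k) hn (by omega : #A * #B < p)
    have hlog3 : (Nat.log 2 ((#A * #B) ^ k) : ℝ) + 1 ≤ 3 * k * (1 + Real.log p) :=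
      hlog.trans (mul_le_mul_of_nonneg_right (by linarith) (by linarith))
    have hs : Real.sqrt (Tk u v A B k) ≤
        3600 * k ^ 2 * (1 + Real.log p) ^ 2 * n ^ ((k : ℝ) - 1 / 2 + (1 / 2) ^ (k + 1)) := by
      refine Real.sqrt_le_iff.mpr ⟨by positivity, hT.trans (le_of_eq ?_)⟩
      rw [mul_pow, mul_pow, mul_pow, ← pow_mul, ← pow_mul, ← Real.rpow_natCast (n ^ _) 2,
        ← Real.rpow_mul hn0.le]
      congr 2
      push_cast
      rw [pow_succ]
      ring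
    have hlog0 : (0 : ℝ) ≤ (Nat.log 2 ((#A * #B) ^ k) : ℝ) + 1 := by positivity
    calc (Tk u v A B (k + 1) : ℝ) ≤ _ := h
      _ ≤ 400 * (3 * k * (1 + Real.log p)) ^ 2 * n ^ ((k : ℝ) + 3 / 2) *
          (3600 * k ^ 2 * (1 + Real.log p) ^ 2 * n ^ ((k : ℝ) - 1 / 2 + (1 / 2) ^ (k + 1))) := by
        gcongr
      _ = 3600 ^ 2 * (k : ℝ) ^ 4 * (1 + Real.log p) ^ 4 *
          (n ^ ((k : ℝ) + 3 / 2) * n ^ ((k : ℝ) - 1 / 2 + (1 / 2) ^ (k + 1))) := by ring
      _ = 3600 ^ 2 * (k : ℝ) ^ 4 * (1 + Real.log p) ^ 4 *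
          n ^ (2 * ((k + 1 : ℕ) : ℝ) - 1 + (1 / 2) ^ (k + 1)) := by
        rw [← Real.rpow_add hn0]
        congr 2
        push_cast
        ring
      _ ≤ 3600 ^ 2 * ((k + 1 : ℕ) : ℝ) ^ 4 * (1 + Real.log p) ^ 4 *
          n ^ (2 * ((k + 1 : ℕ) : ℝ) - 1 + (1 / 2) ^ (k + 1)) := by
        have h4 : (k : ℝ) ^ 4 ≤ ((k + 1 : ℕ) : ℝ) ^ 4 := by
          refine pow_le_pow_left₀ (by linarith) ?_ 4
          push_cast
          linarith
        gcongr

end MPcb27.RU2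
end

section
/-!
# MP_cb27ba_nt, project RU, module STEP4: one step of the iteration, twisted form, injective twists
-/
set_option autoImplicit false

namespace MPcb27.RU2.STEP4

open Finset

variable {p : ℕ} [Fact p.Prime] (u v : ZMod p → ZMod p) (A B : Finset (ZMod p))

lemma fk_zero (k : ℕ) : fk u v A B k 0 = 0 := by
  induction k with
  | zero => simp [fk]
  | succ k ih => simp only [fk, zero_div, ih, sum_const_zero]

lemma sum_fk (k : ℕ) : ∑ z : ZMod p, fk u v A B k z ≤ (#A * #B) ^ k := by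
  induction k with
  | zero => simp [fk]
  | succ k ih =>
    simp only [fk]
    rw [sum_comm]
    have h1 : ∀ q ∈ (A ×ˢ B).filter (fun q => dv u v q.1 q.2 ≠ 0),
        ∑ z : ZMod p, fk u v A B k (z / (dv u v q.1 q.2)) ≤ (#A * #B) ^ k := by
      intro q hq
      rw [mem_filter] at hq
      have hne : dv u v q.1 q.2 ≠ 0 := hq.2
      refine le_trans (le_of_eq ?_) ih
      exact Equiv.sum_comp (Equiv.divRight₀ (dv u v q.1 q.2) hne) (fun z => fk u v A B k z)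
    refine (sum_le_card_nsmul _ _ _ h1).trans ?_
    rw [smul_eq_mul, pow_succ, mul_comm]
    refine Nat.mul_le_mul_left _ ?_
    refine (card_filter_le _ _).trans ?_
    rw [card_product]

lemma fk_le (k : ℕ) (z : ZMod p) : fk u v A B k z ≤ (#A * #B) ^ k :=
  (single_le_sum (f := fun z => fk u v A B k z) (fun _ _ => Nat.zero_le _) (mem_univ z)).trans
    (sum_fk u v A B k)

/-- the level sets -/
def X (k j : ℕ) : Finset (ZMod p) :=
  univ.filter (fun z => fk u v A B k z ≠ 0 ∧ Nat.log 2 (fk u v A B k z) = j)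

/-- the pairs with `z / (a - b)` in the level set -/
def S (k j : ℕ) (z : ZMod p) : Finset (ZMod p × ZMod p) :=
  (A ×ˢ B).filter (fun q => dv u v q.1 q.2 ≠ 0 ∧ z / (dv u v q.1 q.2) ∈ X u v A B k j)

lemma zero_notMem_X (k j : ℕ) : (0 : ZMod p) ∉ X u v A B k j := by
  unfold X
  rw [mem_filter]
  rintro ⟨-, h, -⟩
  exact h (fk_zero u v A B k)

lemma two_pow_le {k j : ℕ} {z : ZMod p} (hz : z ∈ X u v A B k j) : 2 ^ j ≤ fk u v A B k z := by
  unfold X at hz
  rw [mem_filter] at hz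
  obtain ⟨-, h0, h1⟩ := hz
  rw [← h1]
  exact Nat.pow_log_le_self 2 h0

lemma fk_succ_le (k : ℕ) (z : ZMod p) :
    fk u v A B (k + 1) z ≤ ∑ j ∈ range (Nat.log 2 ((#A * #B) ^ k) + 1), 2 ^ (j + 1) * #(S u v A B k j z) := by
  have h1 : ∀ y : ZMod p, fk u v A B k y ≤
      ∑ j ∈ range (Nat.log 2 ((#A * #B) ^ k) + 1), if y ∈ X u v A B k j then 2 ^ (j + 1) else 0 := by
    intro y
    by_cases h0 : fk u v A B k y = 0
    · rw [h0]; exact Nat.zero_le _
    have h2 : Nat.log 2 (fk u v A B k y) ∈ range (Nat.log 2 ((#A * #B) ^ k) + 1) := by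
      rw [mem_range, Nat.lt_succ_iff]
      exact Nat.log_mono_right (fk_le u v A B k y)
    refine le_trans ?_ (single_le_sum (f := fun j => if y ∈ X u v A B k j then 2 ^ (j + 1) else 0)
      (fun _ _ => Nat.zero_le _) h2)
    have h3 : y ∈ X u v A B k (Nat.log 2 (fk u v A B k y)) := by
      unfold X
      rw [mem_filter]
      exact ⟨mem_univ _, h0, rfl⟩
    simp only [h3, if_true]
    exact (Nat.lt_pow_succ_log_self (by norm_num) _).le
  simp only [fk]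
  refine (sum_le_sum fun q _ => h1 (z / (dv u v q.1 q.2))).trans ?_
  rw [sum_comm]
  refine sum_le_sum fun j _ => ?_
  rw [← sum_filter, filter_filter, sum_const, smul_eq_mul, mul_comm]
  exact le_of_eq rfl

lemma sum_S_sq (k j : ℕ) : ∑ z : ZMod p, #(S u v A B k j z) ^ 2 ≤ TX u v A B (X u v A B k j) := by
  have h1 : ∑ z : ZMod p, #(S u v A B k j z) ^ 2 =
      #((univ : Finset (ZMod p)).sigma (fun z => S u v A B k j z ×ˢ S u v A B k j z)) := by
    rw [card_sigma]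
    refine sum_congr rfl fun z _ => ?_
    rw [card_product, sq]
  rw [h1]
  unfold TX
  refine card_le_card_of_injOn
    (fun t => ((t.2.1.1, t.2.1.2, t.1 / (dv u v t.2.1.1 t.2.1.2)),
      (t.2.2.1, t.2.2.2, t.1 / (dv u v t.2.2.1 t.2.2.2)))) ?_ ?_
  · rintro ⟨z, q, q'⟩ ht
    rw [mem_coe, mem_sigma, mem_product] at ht
    obtain ⟨-, h2, h3⟩ := ht
    simp only at h2 h3
    unfold S at h2 h3
    rw [mem_filter, mem_product] at h2 h3
    obtain ⟨⟨a1, a2⟩, a3, a4⟩ := h2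
    obtain ⟨⟨b1, b2⟩, b3, b4⟩ := h3
    have a5 : dv u v q.1 q.2 ≠ 0 := a3
    have b5 : dv u v q'.1 q'.2 ≠ 0 := b3
    have hz : z ≠ 0 := by
      rintro rfl
      rw [zero_div] at a4
      exact zero_notMem_X u v A B k j a4
    rw [mem_coe, mem_filter, mem_product, mem_product, mem_product, mem_product, mem_product]
    refine ⟨⟨⟨a1, a2, a4⟩, b1, b2, b4⟩, ?_, ?_⟩
    · simp only
      rw [mul_div_cancel₀ _ a5, mul_div_cancel₀ _ b5]
    · simp only
      rw [mul_div_cancel₀ _ a5]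
      exact hz
  · rintro ⟨z, q, q'⟩ ht ⟨w, r, r'⟩ hr h
    rw [mem_coe, mem_sigma, mem_product] at ht hr
    obtain ⟨-, h2, h3⟩ := ht
    obtain ⟨-, g2, g3⟩ := hr
    simp only at h2 h3 g2 g3
    unfold S at h2
    rw [mem_filter, mem_product] at h2
    obtain ⟨⟨a1, a2⟩, a3, a4⟩ := h2
    have a5 : dv u v q.1 q.2 ≠ 0 := a3
    simp only [Prod.mk.injEq] at h
    obtain ⟨⟨e1, e2, e3⟩, e4, e5, e6⟩ := h
    have eq1 : q = r := Prod.ext e1 e2
    have eq2 : q' = r' := Prod.ext e4 e5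
    subst eq1 eq2
    have e7 : z = w := by
      rw [div_eq_div_iff a5 a5] at e3
      exact mul_right_cancel₀ a5 e3
    subst e7
    rfl

lemma real_step (h : SpecTXB4) (k : ℕ) (hI : Inj u v A B) (h1 : 256 * (#A * #B) < p) :
    (Tk u v A B (k + 1) : ℝ) ≤ 400 * ((Nat.log 2 ((#A * #B) ^ k) : ℝ) + 1) ^ 2 *
      (((#A : ℝ) * #B) ^ (3 / 2 : ℝ) * ((#A : ℝ) * #B) ^ k) * Real.sqrt (Tk u v A B k) := by
  set L := Nat.log 2 ((#A * #B) ^ k) + 1 with hL
  obtain ⟨n, hn⟩ : ∃ n : ℝ, n = (#A : ℝ) * #B := ⟨_, rfl⟩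
  have hn0 : 0 ≤ n := by rw [hn]; positivity
  obtain ⟨T, hT⟩ : ∃ T : ℝ, T = (Tk u v A B k : ℝ) := ⟨_, rfl⟩
  have hT0 : 0 ≤ T := by rw [hT]; positivity
  -- the level sets
  have hX1 : ∀ j, (2 : ℝ) ^ j * #(X u v A B k j) ≤ n ^ k := by
    intro j
    have h2 : 2 ^ j * #(X u v A B k j) ≤ (#A * #B) ^ k := by
      calc 2 ^ j * #(X u v A B k j) = ∑ _z ∈ X u v A B k j, 2 ^ j := by
            rw [sum_const, smul_eq_mul, mul_comm]
        _ ≤ ∑ z ∈ X u v A B k j, fk u v A B k z := sum_le_sum fun z hz => two_pow_le u v A B hz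
        _ ≤ ∑ z : ZMod p, fk u v A B k z :=
            sum_le_sum_of_subset_of_nonneg (subset_univ _) fun _ _ _ => Nat.zero_le _
        _ ≤ _ := sum_fk u v A B k
    rw [hn]
    exact_mod_cast h2
  have hX2 : ∀ j, (4 : ℝ) ^ j * #(X u v A B k j) ≤ T := by
    intro j
    have h2 : 4 ^ j * #(X u v A B k j) ≤ Tk u v A B k := by
      calc 4 ^ j * #(X u v A B k j) = ∑ _z ∈ X u v A B k j, 4 ^ j := by
            rw [sum_const, smul_eq_mul, mul_comm]
        _ ≤ ∑ z ∈ X u v A B k j, fk u v A B k z ^ 2 := sum_le_sum fun z hz => by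
            calc 4 ^ j = (2 ^ j) ^ 2 := by rw [← pow_mul, mul_comm, pow_mul]; norm_num
              _ ≤ _ := Nat.pow_le_pow_left (two_pow_le u v A B hz) 2
        _ ≤ ∑ z : ZMod p, fk u v A B k z ^ 2 :=
            sum_le_sum_of_subset_of_nonneg (subset_univ _) fun _ _ _ => Nat.zero_le _
    rw [hT]
    exact_mod_cast h2
  have hX3 : ∀ j, (4 : ℝ) ^ j * (#(X u v A B k j) : ℝ) ^ (3 / 2 : ℝ) ≤ n ^ k * Real.sqrt T := by
    intro j
    obtain ⟨x, hx⟩ : ∃ x : ℝ, x = (#(X u v A B k j) : ℝ) := ⟨_, rfl⟩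
    have hx0 : 0 ≤ x := by rw [hx]; positivity
    have h2 := hX1 j
    have h3 := hX2 j
    rw [← hx] at h2 h3 ⊢
    have h4 : x ^ (3 / 2 : ℝ) = x * Real.sqrt x := by
      rw [Real.sqrt_eq_rpow]
      rcases hx0.eq_or_lt with h | h
      · rw [← h, Real.zero_rpow (by norm_num), zero_mul]
      · rw [show (3 / 2 : ℝ) = 1 + 1 / 2 by norm_num, Real.rpow_add h, Real.rpow_one]
    have h5 : (4 : ℝ) ^ j * x ^ (3 / 2 : ℝ) = (2 ^ j * x) * Real.sqrt (4 ^ j * x) := by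
      rw [h4, Real.sqrt_mul (by positivity)]
      have h6 : Real.sqrt ((4 : ℝ) ^ j) = 2 ^ j := by
        rw [show (4 : ℝ) ^ j = (2 ^ j) ^ 2 by rw [← pow_mul, mul_comm, pow_mul]; norm_num,
          Real.sqrt_sq (by positivity)]
      rw [h6, show (4 : ℝ) ^ j = 2 ^ j * 2 ^ j by rw [← mul_pow]; norm_num]
      ring
    rw [h5]
    exact mul_le_mul h2 (Real.sqrt_le_sqrt h3) (Real.sqrt_nonneg _) (by positivity)
  -- the sums for given `j`
  have hS : ∀ j, ∑ z : ZMod p, (#(S u v A B k j z) : ℝ) ^ 2 ≤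
      100 * (n ^ (3 / 2 : ℝ) * (#(X u v A B k j) : ℝ) ^ (3 / 2 : ℝ)) := by
    intro j
    have h2 : ((∑ z : ZMod p, #(S u v A B k j z) ^ 2 : ℕ) : ℝ) ≤ TX u v A B (X u v A B k j) := by
      exact_mod_cast sum_S_sq u v A B k j
    push_cast at h2
    have h3 := h p u v A B (X u v A B k j) hI h1
    rw [← hn, Real.mul_rpow hn0 (by positivity)] at h3
    exact h2.trans h3
  -- the main inequality
  have hz : ∀ z : ZMod p, (fk u v A B (k + 1) z : ℝ) ^ 2 ≤
      L * ∑ j ∈ range L, 4 * (4 : ℝ) ^ j * (#(S u v A B k j z) : ℝ) ^ 2 := by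
    intro z
    have h2 : (fk u v A B (k + 1) z : ℝ) ≤ ∑ j ∈ range L, (2 : ℝ) ^ (j + 1) * #(S u v A B k j z) := by
      exact_mod_cast fk_succ_le u v A B k z
    have h3 := sq_sum_le_card_mul_sum_sq (s := range L)
      (f := fun j => (2 : ℝ) ^ (j + 1) * #(S u v A B k j z))
    rw [card_range] at h3
    calc (fk u v A B (k + 1) z : ℝ) ^ 2 ≤ (∑ j ∈ range L, (2 : ℝ) ^ (j + 1) * #(S u v A B k j z)) ^ 2 :=
          pow_le_pow_left₀ (by positivity) h2 2
      _ ≤ L * ∑ j ∈ range L, ((2 : ℝ) ^ (j + 1) * #(S u v A B k j z)) ^ 2 := h3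
      _ = _ := by
          congr 1
          refine sum_congr rfl fun j _ => ?_
          have e4 : (4 : ℝ) ^ j = 2 ^ j * 2 ^ j := by rw [← mul_pow]; norm_num
          rw [e4, pow_succ (2 : ℝ) j]
          ring
  have hfin : (Tk u v A B (k + 1) : ℝ) ≤ L * ∑ j ∈ range L, 4 * (4 : ℝ) ^ j *
      (100 * (n ^ (3 / 2 : ℝ) * (#(X u v A B k j) : ℝ) ^ (3 / 2 : ℝ))) := by
    unfold Tk
    push_cast
    refine (sum_le_sum fun z _ => hz z).trans ?_
    rw [← mul_sum, sum_comm]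
    refine mul_le_mul_of_nonneg_left (sum_le_sum fun j _ => ?_) (by positivity)
    rw [← mul_sum]
    exact mul_le_mul_of_nonneg_left (hS j) (by positivity)
  have hfin2 : ∑ j ∈ range L, 4 * (4 : ℝ) ^ j *
      (100 * (n ^ (3 / 2 : ℝ) * (#(X u v A B k j) : ℝ) ^ (3 / 2 : ℝ))) ≤
      L * (400 * n ^ (3 / 2 : ℝ) * (n ^ k * Real.sqrt T)) := by
    have h2 : ∀ j ∈ range L, 4 * (4 : ℝ) ^ j *
      (100 * (n ^ (3 / 2 : ℝ) * (#(X u v A B k j) : ℝ) ^ (3 / 2 : ℝ))) ≤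
        400 * n ^ (3 / 2 : ℝ) * (n ^ k * Real.sqrt T) := by
      intro j _
      have h3 : 4 * (4 : ℝ) ^ j * (100 * (n ^ (3 / 2 : ℝ) * (#(X u v A B k j) : ℝ) ^ (3 / 2 : ℝ))) =
          400 * n ^ (3 / 2 : ℝ) * ((4 : ℝ) ^ j * (#(X u v A B k j) : ℝ) ^ (3 / 2 : ℝ)) := by ring
      rw [h3]
      exact mul_le_mul_of_nonneg_left (hX3 j) (by positivity)
    refine (sum_le_card_nsmul _ _ _ h2).trans ?_
    rw [card_range, nsmul_eq_mul]
  have hL' : (L : ℝ) = (Nat.log 2 ((#A * #B) ^ k) : ℝ) + 1 := by rw [hL]; push_cast; ring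
  rw [← hL', ← hn, ← hT]
  calc (Tk u v A B (k + 1) : ℝ) ≤ L * (L * (400 * n ^ (3 / 2 : ℝ) * (n ^ k * Real.sqrt T))) :=
        hfin.trans (mul_le_mul_of_nonneg_left hfin2 (by positivity))
    _ = _ := by ring

end MPcb27.RU2.STEP4

namespace MPcb27.RU2

open Finset

theorem specSTEP4 (h : SpecTXB4) : SpecSTEP4 := by
  intro p _ u v A B k hI h1 h2
  have h3 := STEP4.real_step u v A B h k hI h1
  have hn : (0 : ℝ) < (#A : ℝ) * #B := by exact_mod_cast h2
  have h4 : ((#A : ℝ) * #B) ^ (3 / 2 : ℝ) * ((#A : ℝ) * #B) ^ k =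
      ((#A : ℝ) * #B) ^ ((k : ℝ) + 3 / 2) := by
    rw [← Real.rpow_natCast, ← Real.rpow_add hn, add_comm]
  rw [h4] at h3
  exact h3

end MPcb27.RU2
end

section
/-!
# MP_cb27ba_nt, project RU: `TXB4` from `RUD`, twisted form; `INJ`
-/
set_option autoImplicit false

namespace MPcb27.RU2

open Finset
open MPcb27.RU (Inc)

namespace TXB4

variable {p : ℕ} [Fact p.Prime]

/-- the solutions -/
def sol (u v : ZMod p → ZMod p) (A B X : Finset (ZMod p)) :
    Finset ((ZMod p × ZMod p × ZMod p) × (ZMod p × ZMod p × ZMod p)) :=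
  ((A ×ˢ B ×ˢ X) ×ˢ (A ×ˢ B ×ˢ X)).filter fun t =>
    dv u v t.1.1 t.1.2.1 * t.1.2.2 = dv u v t.2.1 t.2.2.1 * t.2.2.2 ∧
      dv u v t.1.1 t.1.2.1 * t.1.2.2 ≠ 0

lemma card_sol (u v : ZMod p → ZMod p) (A B X : Finset (ZMod p)) :
    #(sol u v A B X) = TX u v A B X := rfl

variable {u v : ZMod p → ZMod p}

/-- the conditions -/
lemma mem_sol {A B X : Finset (ZMod p)} {a b x a' b' x' : ZMod p} :
    ((a, b, x), (a', b', x')) ∈ sol u v A B X ↔
      ((a ∈ A ∧ b ∈ B ∧ x ∈ X) ∧ (a' ∈ A ∧ b' ∈ B ∧ x' ∈ X)) ∧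
        dv u v a b * x = dv u v a' b' * x' ∧ dv u v a b * x ≠ 0 := by
  simp only [sol, mem_filter, mem_product]

/-- all factors are not zero -/
structure Ne (u v : ZMod p → ZMod p) (a b x : ZMod p) : Prop where
  d : a - b ≠ 0
  u : u a ≠ 0
  v : v b ≠ 0
  x : x ≠ 0

lemma ne_of {a b x : ZMod p} (h : dv u v a b * x ≠ 0) : Ne u v a b x := by
  have h1 := left_ne_zero_of_mul h
  have h2 := left_ne_zero_of_mul h1
  exact ⟨left_ne_zero_of_mul h2, right_ne_zero_of_mul h2, right_ne_zero_of_mul h1,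
    right_ne_zero_of_mul h⟩

lemma ne1 {A B X : Finset (ZMod p)} {a b x a' b' x' : ZMod p}
    (h : ((a, b, x), (a', b', x')) ∈ sol u v A B X) : Ne u v a b x :=
  ne_of (mem_sol.1 h).2.2

lemma ne2 {A B X : Finset (ZMod p)} {a b x a' b' x' : ZMod p}
    (h : ((a, b, x), (a', b', x')) ∈ sol u v A B X) : Ne u v a' b' x' := by
  obtain ⟨-, e1, e0⟩ := mem_sol.1 h
  rw [e1] at e0
  exact ne_of e0

/-- the equation for `w = u a x / v b'`, `w' = u a' x' / v b` -/
lemma key {A B X : Finset (ZMod p)} {a b x a' b' x' : ZMod p}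
    (h : ((a, b, x), (a', b', x')) ∈ sol u v A B X) :
    (a - b) * (u a * x / v b') = (a' - b') * (u a' * x' / v b) := by
  obtain ⟨-, e, -⟩ := mem_sol.1 h
  have h1 := (ne1 h).v
  have h2 := (ne2 h).v
  simp only [dv] at e
  field_simp
  linear_combination e

/-! ## the trivial bounds -/

lemma triv1 (A B X : Finset (ZMod p)) (hI : Inj u v A B) :
    #(sol u v A B X) ≤ (#A * (#B * #X)) * (#B * #X) := by
  have h : #(sol u v A B X) ≤ #((A ×ˢ B ×ˢ X) ×ˢ (B ×ˢ X)) := by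
    refine card_le_card_of_injOn (fun t => (t.1, t.2.2)) ?_ ?_
    · rintro ⟨⟨a, b, x⟩, ⟨a', b', x'⟩⟩ ht
      obtain ⟨⟨⟨h1, h2, h3⟩, h4, h5, h6⟩, -⟩ := mem_sol.1 (mem_coe.1 ht)
      simp only [coe_product, Set.mem_prod, mem_coe]
      exact ⟨⟨h1, h2, h3⟩, h5, h6⟩
    · rintro ⟨⟨a, b, x⟩, ⟨a', b', x'⟩⟩ ht ⟨⟨c, d, y⟩, ⟨c', d', y'⟩⟩ ht' he
      simp only [Prod.mk.injEq] at he
      obtain ⟨⟨rfl, rfl, rfl⟩, rfl, rfl⟩ := he
      obtain ⟨⟨-, ha, hb, -⟩, e1, -⟩ := mem_sol.1 (mem_coe.1 ht)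
      obtain ⟨⟨-, hc, -, -⟩, e2, -⟩ := mem_sol.1 (mem_coe.1 ht')
      have hn := ne2 (mem_coe.1 ht)
      have h1 := mul_right_cancel₀ hn.x (e1.symm.trans e2)
      simp only [dv] at h1
      have h2 := mul_right_cancel₀ hn.v h1
      rw [hI.ia b' hb hn.v a' ha c' hc (mul_ne_zero hn.d hn.u) h2]
  simpa only [card_product] using h

lemma triv2 (A B X : Finset (ZMod p)) (hI : Inj u v A B) :
    #(sol u v A B X) ≤ (#A * (#B * #X)) * (#A * #X) := by
  have h : #(sol u v A B X) ≤ #((A ×ˢ B ×ˢ X) ×ˢ (A ×ˢ X)) := by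
    refine card_le_card_of_injOn (fun t => (t.1, (t.2.1, t.2.2.2))) ?_ ?_
    · rintro ⟨⟨a, b, x⟩, ⟨a', b', x'⟩⟩ ht
      obtain ⟨⟨⟨h1, h2, h3⟩, h4, h5, h6⟩, -⟩ := mem_sol.1 (mem_coe.1 ht)
      simp only [coe_product, Set.mem_prod, mem_coe]
      exact ⟨⟨h1, h2, h3⟩, h4, h6⟩
    · rintro ⟨⟨a, b, x⟩, ⟨a', b', x'⟩⟩ ht ⟨⟨c, d, y⟩, ⟨c', d', y'⟩⟩ ht' he
      simp only [Prod.mk.injEq] at he
      obtain ⟨⟨rfl, rfl, rfl⟩, rfl, rfl⟩ := he
      obtain ⟨⟨-, ha, hb, -⟩, e1, -⟩ := mem_sol.1 (mem_coe.1 ht)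
      obtain ⟨⟨-, -, hd, -⟩, e2, -⟩ := mem_sol.1 (mem_coe.1 ht')
      have hn := ne2 (mem_coe.1 ht)
      have h1 := mul_right_cancel₀ hn.x (e1.symm.trans e2)
      simp only [dv] at h1
      have h2 : (a' - b') * v b' = (a' - d') * v d' :=
        mul_left_cancel₀ hn.u (by linear_combination h1)
      rw [hI.ib a' ha hn.u b' hb d' hd (mul_ne_zero hn.d hn.v) h2]
  simpa only [card_product] using h

/-! ## points and planes -/

/-- the point and the plane of a solution -/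
def mp (u v : ZMod p → ZMod p) (t : (ZMod p × ZMod p × ZMod p) × (ZMod p × ZMod p × ZMod p)) :
    (ZMod p × ZMod p × ZMod p) × (ZMod p × ZMod p × ZMod p) :=
  ((t.1.2.1, u t.2.1 * t.2.2.2 / v t.1.2.1, t.2.1 * (u t.2.1 * t.2.2.2 / v t.1.2.1)),
    (t.2.2.1, t.1.1 * (u t.1.1 * t.1.2.2 / v t.2.2.1), -(u t.1.1 * t.1.2.2 / v t.2.2.1)))

/-- the first weight is not zero -/
lemma w_ne {A B X : Finset (ZMod p)} {a b x a' b' x' : ZMod p}
    (h : ((a, b, x), (a', b', x')) ∈ sol u v A B X) : u a * x / v b' ≠ 0 :=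
  div_ne_zero (mul_ne_zero (ne1 h).u (ne1 h).x) (ne2 h).v

/-- the second weight is not zero -/
lemma w_ne' {A B X : Finset (ZMod p)} {a b x a' b' x' : ZMod p}
    (h : ((a, b, x), (a', b', x')) ∈ sol u v A B X) : u a' * x' / v b ≠ 0 :=
  div_ne_zero (mul_ne_zero (ne2 h).u (ne2 h).x) (ne1 h).v

/-- the point determines `b, a', x'` -/
lemma mp_fst {A B X : Finset (ZMod p)} {a b x a' b' x' c d y c' d' y' : ZMod p}
    (h : ((a, b, x), (a', b', x')) ∈ sol u v A B X)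
    (h' : ((c, d, y), (c', d', y')) ∈ sol u v A B X)
    (he : (mp u v ((a, b, x), (a', b', x'))).1 = (mp u v ((c, d, y), (c', d', y'))).1) :
    b = d ∧ a' = c' ∧ x' = y' := by
  simp only [mp, Prod.mk.injEq] at he
  obtain ⟨h1, h2, h3⟩ := he
  have hw := w_ne' h'
  rw [h2] at h3
  have h4 : a' = c' := mul_right_cancel₀ hw h3
  subst h1
  subst h4
  have hu := (ne2 h).u
  have hv := (ne1 h).v
  have h5 : u a' * x' = u a' * y' := by
    have := congrArg (· * v b) h2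
    simpa only [div_mul_cancel₀ _ hv] using this
  exact ⟨rfl, rfl, mul_left_cancel₀ hu h5⟩

/-- the plane determines the rest -/
lemma mp_snd {A B X : Finset (ZMod p)} {a b x a' b' x' c y c' y' : ZMod p}
    (h : ((a, b, x), (a', b', x')) ∈ sol u v A B X)
    (h' : ((c, b, y), (c', b', y')) ∈ sol u v A B X)
    (hac : a = c) (hw : u a * x / v b' = u c * y / v b') : x = y := by
  subst hac
  have hv := (ne2 h).v
  have h5 : u a * x = u a * y := by
    have := congrArg (· * v b') hw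
    simpa only [div_mul_cancel₀ _ hv] using this
  exact mul_left_cancel₀ (ne1 h).u h5

lemma mp_inj (A B X : Finset (ZMod p)) : Set.InjOn (mp u v)
    (sol u v A B X : Set ((ZMod p × ZMod p × ZMod p) × (ZMod p × ZMod p × ZMod p))) := by
  rintro ⟨⟨a, b, x⟩, ⟨a', b', x'⟩⟩ ht ⟨⟨c, d, y⟩, ⟨c', d', y'⟩⟩ ht' he
  obtain ⟨rfl, rfl, rfl⟩ := mp_fst (mem_coe.1 ht) (mem_coe.1 ht') (congrArg Prod.fst he)
  have he2 := congrArg Prod.snd he
  simp only [mp, Prod.mk.injEq] at he2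
  obtain ⟨rfl, h2, h3⟩ := he2
  have h4 := neg_injective h3
  rw [h4] at h2
  have h5 : a = c := mul_right_cancel₀ (w_ne (mem_coe.1 ht')) h2
  have h6 := mp_snd (mem_coe.1 ht) (mem_coe.1 ht') h5 h4
  rw [h5, h6]

/-- the incidences -/
def G (u v : ZMod p → ZMod p) (A B X : Finset (ZMod p)) :
    Finset ((ZMod p × ZMod p × ZMod p) × (ZMod p × ZMod p × ZMod p)) :=
  (sol u v A B X).image (mp u v)

lemma card_G (A B X : Finset (ZMod p)) : #(G u v A B X) = #(sol u v A B X) :=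
  card_image_of_injOn (mp_inj A B X)

/-- the points -/
def PT (u v : ZMod p → ZMod p) (A B X : Finset (ZMod p)) : Finset (ZMod p × ZMod p × ZMod p) :=
  (A ×ˢ B ×ˢ X).image fun t => (t.2.1, u t.1 * t.2.2 / v t.2.1, t.1 * (u t.1 * t.2.2 / v t.2.1))

/-- the planes -/
def PL (u v : ZMod p → ZMod p) (A B X : Finset (ZMod p)) : Finset (ZMod p × ZMod p × ZMod p) :=
  (A ×ˢ B ×ˢ X).image fun t => (t.2.1, t.1 * (u t.1 * t.2.2 / v t.2.1), -(u t.1 * t.2.2 / v t.2.1))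

lemma card_PL (A B X : Finset (ZMod p)) : #(PL u v A B X) ≤ #A * #B * #X := by
  refine card_image_le.trans ?_
  rw [card_product, card_product, mul_assoc]

lemma card_PT (A B X : Finset (ZMod p)) : #(PT u v A B X) ≤ #A * #B * #X := by
  refine card_image_le.trans ?_
  rw [card_product, card_product, mul_assoc]

lemma G_sub (A B X : Finset (ZMod p)) :
    G u v A B X ⊆ PT u v A B X ×ˢ PL u v A B X := by
  intro g hg
  obtain ⟨⟨⟨a, b, x⟩, ⟨a', b', x'⟩⟩, ht, rfl⟩ := mem_image.1 hg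
  obtain ⟨⟨⟨h1, h2, h3⟩, h4, h5, h6⟩, -⟩ := mem_sol.1 ht
  rw [mem_product]
  refine ⟨mem_image.2 ⟨(a', b, x'), ?_, rfl⟩, mem_image.2 ⟨(a, b', x), ?_, rfl⟩⟩
  · simp only [mem_product]
    exact ⟨h4, h2, h6⟩
  · simp only [mem_product]
    exact ⟨h1, h5, h3⟩

lemma G_inc {A B X : Finset (ZMod p)} {g} (hg : g ∈ G u v A B X) : Inc g.1 g.2 := by
  obtain ⟨⟨⟨a, b, x⟩, ⟨a', b', x'⟩⟩, ht, rfl⟩ := mem_image.1 hg
  have h := key ht
  simp only [Inc, mp]
  linear_combination -h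

lemma line1 (A B X : Finset (ZMod p)) (q : ZMod p × ZMod p × ZMod p) (v0 v1 : ZMod p) :
    #((G u v A B X).filter fun g => g.1 = q ∧ v1 = g.2.1 * v0 + g.2.2.2) ≤ #B := by
  refine card_le_card_of_injOn (fun g => g.2.1) ?_ ?_
  · intro g hg
    obtain ⟨hg, -⟩ := mem_filter.1 (mem_coe.1 hg)
    obtain ⟨⟨⟨a, b, x⟩, ⟨a', b', x'⟩⟩, ht, rfl⟩ := mem_image.1 hg
    exact (mem_sol.1 ht).1.2.2.1
  · intro g hg g' hg' he
    obtain ⟨hg, hq, hv⟩ := mem_filter.1 (mem_coe.1 hg)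
    obtain ⟨hg', hq', hv'⟩ := mem_filter.1 (mem_coe.1 hg')
    obtain ⟨⟨⟨a, b, x⟩, ⟨a', b', x'⟩⟩, ht, rfl⟩ := mem_image.1 hg
    obtain ⟨⟨⟨c, d, y⟩, ⟨c', d', y'⟩⟩, ht', rfl⟩ := mem_image.1 hg'
    obtain ⟨rfl, rfl, rfl⟩ := mp_fst ht ht' (hq.trans hq'.symm)
    simp only [mp] at he hv hv'
    subst he
    have h1 : u a * x / v b' = u c * y / v b' := by linear_combination hv - hv'
    have e1 := key ht
    have e2 := key ht'
    rw [h1] at e1
    have h2 := mul_right_cancel₀ (w_ne ht') (e1.trans e2.symm)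
    have h3 : a = c := by linear_combination h2
    rw [h3, mp_snd ht ht' h3 h1]

lemma line2 (A B X : Finset (ZMod p)) (q : ZMod p × ZMod p × ZMod p) (u0 : ZMod p) :
    #((G u v A B X).filter fun g => g.1 = q ∧ g.2.1 = u0) ≤ #A := by
  refine card_le_card_of_injOn (fun g => g.2.2.1 / (-g.2.2.2)) ?_ ?_
  · intro g hg
    obtain ⟨hg, -⟩ := mem_filter.1 (mem_coe.1 hg)
    obtain ⟨⟨⟨a, b, x⟩, ⟨a', b', x'⟩⟩, ht, rfl⟩ := mem_image.1 hg
    have hw := w_ne ht
    simp only [mp, neg_neg]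
    rw [mul_div_assoc, div_self hw, mul_one]
    exact (mem_sol.1 ht).1.1.1
  · intro g hg g' hg' he
    obtain ⟨hg, hq, hv⟩ := mem_filter.1 (mem_coe.1 hg)
    obtain ⟨hg', hq', hv'⟩ := mem_filter.1 (mem_coe.1 hg')
    obtain ⟨⟨⟨a, b, x⟩, ⟨a', b', x'⟩⟩, ht, rfl⟩ := mem_image.1 hg
    obtain ⟨⟨⟨c, d, y⟩, ⟨c', d', y'⟩⟩, ht', rfl⟩ := mem_image.1 hg'
    obtain ⟨rfl, rfl, rfl⟩ := mp_fst ht ht' (hq.trans hq'.symm)
    have hw := w_ne ht
    have hw' := w_ne ht'
    simp only [mp, neg_neg] at he hv hv'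
    rw [mul_div_assoc, div_self hw, mul_one, mul_div_assoc, div_self hw', mul_one] at he
    subst hv
    subst hv'
    subst he
    have e1 := key ht
    have e2 := key ht'
    have h2 := mul_left_cancel₀ (ne1 ht).d (e1.trans e2.symm)
    rw [mp_snd ht ht' rfl h2]

end TXB4

open TXB4 in
/-- **TXB4** -/
theorem specTXB4 (hR : MPcb27.RU.SpecRUD) : SpecTXB4 := by
  intro p _ u v A B X hI hp
  rw [← card_sol]
  have hpow : ∀ x : ℝ, 0 ≤ x → x ^ (3 / 2 : ℝ) = x * Real.sqrt x := by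
    intro x hx
    rw [show (3 / 2 : ℝ) = 1 + 1 / 2 by norm_num, Real.rpow_add' hx (by norm_num), Real.rpow_one,
      Real.sqrt_eq_rpow]
  have hN0 : (0 : ℝ) ≤ (#A : ℝ) * #B * #X := by positivity
  rw [hpow _ hN0]
  have hs0 : 0 ≤ Real.sqrt ((#A : ℝ) * #B * #X) := Real.sqrt_nonneg _
  rcases Nat.eq_zero_or_pos (max #A #B) with hM | hM
  · have hA : #A = 0 := by omega
    have h := triv1 A B X hI
    rw [hA, zero_mul, zero_mul] at h
    have h1 : #(sol u v A B X) = 0 := by omega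
    rw [h1, Nat.cast_zero]
    positivity
  set M : ℕ := max #A #B with hMd
  -- the trivial bound
  have hT : (#(sol u v A B X) : ℝ) * M ≤ ((#A : ℝ) * #B * #X) ^ 2 := by
    rcases le_total #A #B with h | h
    · have h1 : M = #B := by rw [hMd, max_eq_right h]
      have h2 : #(sol u v A B X) * #B ≤ (#A * #B * #X) ^ 2 := by
        calc #(sol u v A B X) * #B ≤ (#A * (#B * #X)) * (#A * #X) * #B :=
              Nat.mul_le_mul_right _ (triv2 A B X hI)
          _ = (#A * #B * #X) ^ 2 := by ring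
      rw [h1]
      exact_mod_cast h2
    · have h1 : M = #A := by rw [hMd, max_eq_left h]
      have h2 : #(sol u v A B X) * #A ≤ (#A * #B * #X) ^ 2 := by
        calc #(sol u v A B X) * #A ≤ (#A * (#B * #X)) * (#B * #X) * #A :=
              Nat.mul_le_mul_right _ (triv1 A B X hI)
          _ = (#A * #B * #X) ^ 2 := by ring
      rw [h1]
      exact_mod_cast h2
  have hM1 : (1 : ℝ) ≤ M := by exact_mod_cast hM
  have hss : Real.sqrt ((#A : ℝ) * #B * #X) * Real.sqrt ((#A : ℝ) * #B * #X) =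
      (#A : ℝ) * #B * #X := Real.mul_self_sqrt hN0
  rcases le_or_gt ((M : ℝ) + 1) (2 * Real.sqrt ((#A : ℝ) * #B * #X)) with hc | hc
  · -- the bound of RUD
    have hX : #X ≤ p := by
      have := card_le_univ X
      rwa [ZMod.card] at this
    have hp0 : 0 < p := (Fact.out : p.Prime).pos
    have h256 : 256 * (#A * #B * #X) < p ^ 2 := by
      calc 256 * (#A * #B * #X) = (256 * (#A * #B)) * #X := by ring
        _ ≤ (256 * (#A * #B)) * p := Nat.mul_le_mul_left _ hX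
        _ < p * p := Nat.mul_lt_mul_of_pos_right hp hp0
        _ = p ^ 2 := by ring
    have h := hR p (PT u v A B X) (PL u v A B X) (G u v A B X) (#A * #B * #X) M hM (G_sub A B X)
      (fun g hg => G_inc hg) (card_PT A B X) (card_PL A B X) h256
      (fun q _ v0 v1 => (line1 A B X q v0 v1).trans (le_max_right _ _))
      (fun q _ u => (line2 A B X q u).trans (le_max_left _ _))
    rw [card_G] at h
    push_cast at h
    refine h.trans ?_
    have h1 : 48 * Real.sqrt ((#A : ℝ) * #B * #X) + M + 1 ≤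
        50 * Real.sqrt ((#A : ℝ) * #B * #X) := by linarith
    calc 2 * ((#A : ℝ) * #B * #X) * (48 * Real.sqrt ((#A : ℝ) * #B * #X) + M + 1)
        ≤ 2 * ((#A : ℝ) * #B * #X) * (50 * Real.sqrt ((#A : ℝ) * #B * #X)) :=
          mul_le_mul_of_nonneg_left h1 (by positivity)
      _ = 100 * ((#A : ℝ) * #B * #X * Real.sqrt ((#A : ℝ) * #B * #X)) := by ring
  · -- the trivial bound
    have h1 : Real.sqrt ((#A : ℝ) * #B * #X) ≤ M := by linarith
    set s := Real.sqrt ((#A : ℝ) * #B * #X) with hs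
    set n := (#A : ℝ) * #B * #X with hn
    have h2 : (#(sol u v A B X) : ℝ) * M ≤ (n * s) * M := by
      calc (#(sol u v A B X) : ℝ) * M ≤ n ^ 2 := hT
        _ = (n * s) * s := by rw [mul_assoc, hss]; ring
        _ ≤ (n * s) * M := mul_le_mul_of_nonneg_left h1 (by positivity)
    have h3 : (#(sol u v A B X) : ℝ) ≤ n * s := le_of_mul_le_mul_right h2 (by linarith)
    have h4 : 0 ≤ n * s := by positivity
    linarith

/-- **INJ** -/
theorem specINJ : SpecINJ := by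
  intro p _ A B a' b'
  constructor
  · intro b _ hv a _ c _ h0 h
    have hb : b ≠ b' := by
      rintro rfl
      exact hv (if_pos rfl)
    have ha : a ≠ a' := by
      rintro rfl
      exact h0 (by rw [ua, if_pos rfl, mul_zero])
    have h0c := h0
    rw [h] at h0c
    have hc : c ≠ a' := by
      rintro rfl
      exact h0c (by rw [ua, if_pos rfl, mul_zero])
    simp only [ua, if_neg ha, if_neg hc] at h h0 h0c
    have h1 : a - b' ≠ 0 := fun e => h0 (by rw [e, inv_zero, mul_zero])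
    have h2 : c - b' ≠ 0 := fun e => h0c (by rw [e, inv_zero, mul_zero])
    field_simp at h
    have h3 : (a - c) * (b - b') = 0 := by linear_combination h
    rcases mul_eq_zero.1 h3 with h4 | h4
    · exact sub_eq_zero.1 h4
    · exact absurd (sub_eq_zero.1 h4) hb
  · intro a _ hu b _ d _ h0 h
    have ha : a ≠ a' := by
      rintro rfl
      exact hu (if_pos rfl)
    have hb : b ≠ b' := by
      rintro rfl
      exact h0 (by rw [vb, if_pos rfl, mul_zero])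
    have h0d := h0
    rw [h] at h0d
    have hd : d ≠ b' := by
      rintro rfl
      exact h0d (by rw [vb, if_pos rfl, mul_zero])
    simp only [vb, if_neg hb, if_neg hd] at h h0 h0d
    have h1 : a' - b ≠ 0 := fun e => h0 (by rw [e, inv_zero, mul_zero])
    have h2 : a' - d ≠ 0 := fun e => h0d (by rw [e, inv_zero, mul_zero])
    field_simp at h
    have h3 : (b - d) * (a - a') = 0 := by linear_combination h
    rcases mul_eq_zero.1 h3 with h4 | h4
    · exact sub_eq_zero.1 h4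
    · exact absurd (sub_eq_zero.1 h4) ha

end MPcb27.RU2
end
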