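import Pool.Agent.Lib.MP_cb27ba_nt.RU.Spec4
import Pool.Agent.Lib.MP_cb27ba_nt.SP.FINSP
import Pool.Agent.Lib.MP_cb27ba_nt.RU.Rudnev
import Pool.Agent.Lib.MP_cb27ba_nt.RU.TXB4
import Pool.Agent.Lib.MP_cb27ba_nt.RU.FOUR4

section
/-!
# FIN4: the final theorem, from BAD4
-/
set_option autoImplicit false

namespace MPcb27.RU2

open Finset
open MPcb27.TU (NB)

namespace FIN4

theorem nb_swap {p : ℕ} [Fact p.Prime] {χ : MulChar (ZMod p) ℂ} {A B : Finset (ZMod p)} {M : ℝ}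
    (h : NB χ A B M) : NB χ B A M := by
  intro α β
  have h0 := h β α
  have h1 : ∑ a ∈ B, ∑ b ∈ A, α a * β b * χ (a - b) =
      χ (-1) * ∑ a ∈ A, ∑ b ∈ B, β a * α b * χ (a - b) := by
    rw [Finset.sum_comm, Finset.mul_sum]
    refine sum_congr rfl fun b _ => ?_
    rw [Finset.mul_sum]
    refine sum_congr rfl fun a _ => ?_
    have e : χ (a - b) = χ (-1) * χ (b - a) := by
      rw [← map_mul]
      congr 1
      ring
    rw [e]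
    ring
  have h2 : ‖χ (-1)‖ = 1 := by
    have h3 : χ (-1) ^ 2 = 1 := by
      rw [← map_pow]
      simp
    have h4 : ‖χ (-1)‖ ^ 2 = 1 := by rw [← norm_pow, h3, norm_one]
    nlinarith [norm_nonneg (χ (-1))]
  rw [h1, norm_mul, h2, one_mul]
  refine h0.trans (le_of_eq ?_)
  ring

theorem sum_parts {X : Type} [DecidableEq X] {E : Type} [AddCommMonoid E] {B : Finset X}
    (Q : Finpartition B) (g : X → E) : ∑ b ∈ B, g b = ∑ B' ∈ Q.parts, ∑ b ∈ B', g b := by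
  conv_lhs => rw [← Q.biUnion_parts]
  rw [sum_biUnion Q.disjoint]
  rfl

theorem nb_parts {p : ℕ} [Fact p.Prime] {χ : MulChar (ZMod p) ℂ} {A B : Finset (ZMod p)}
    (Q : Finpartition B) {Δ : ℝ} (hΔ : 0 ≤ Δ)
    (h : ∀ B' ∈ Q.parts, NB χ A B' (Δ * Real.sqrt ((#A : ℝ) * #B'))) :
    NB χ A B (Δ * Real.sqrt ((#A : ℝ) * #B)) := by
  intro α β
  have hA0 : (0 : ℝ) ≤ #A := Nat.cast_nonneg _
  have h1 : ∑ a ∈ A, ∑ b ∈ B, α a * β b * χ (a - b) =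
      ∑ B' ∈ Q.parts, ∑ a ∈ A, ∑ b ∈ B', α a * β b * χ (a - b) := by
    rw [Finset.sum_comm (s := Q.parts)]
    exact sum_congr rfl fun a _ => sum_parts Q _
  have hB : (#B : ℝ) = ∑ B' ∈ Q.parts, (#B' : ℝ) := by
    rw [← Nat.cast_sum, Q.sum_card_parts]
  have hβ := sum_parts Q (fun b => ‖β b‖ ^ 2)
  rw [h1]
  calc ‖∑ B' ∈ Q.parts, ∑ a ∈ A, ∑ b ∈ B', α a * β b * χ (a - b)‖
      ≤ ∑ B' ∈ Q.parts, Δ * Real.sqrt ((#A : ℝ) * #B') *
        (Real.sqrt (∑ a ∈ A, ‖α a‖ ^ 2) * Real.sqrt (∑ b ∈ B', ‖β b‖ ^ 2)) :=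
        (norm_sum_le _ _).trans (sum_le_sum fun B' hB' => h B' hB' α β)
    _ = Δ * Real.sqrt #A * Real.sqrt (∑ a ∈ A, ‖α a‖ ^ 2) *
        ∑ B' ∈ Q.parts, Real.sqrt #B' * Real.sqrt (∑ b ∈ B', ‖β b‖ ^ 2) := by
        rw [Finset.mul_sum]
        refine sum_congr rfl fun B' _ => ?_
        rw [Real.sqrt_mul hA0]
        ring
    _ ≤ Δ * Real.sqrt #A * Real.sqrt (∑ a ∈ A, ‖α a‖ ^ 2) *
        (Real.sqrt (∑ B' ∈ Q.parts, (#B' : ℝ)) *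
          Real.sqrt (∑ B' ∈ Q.parts, ∑ b ∈ B', ‖β b‖ ^ 2)) := by
        refine mul_le_mul_of_nonneg_left ?_ (by positivity)
        exact Real.sum_sqrt_mul_sqrt_le _ (fun _ => Nat.cast_nonneg _)
          (fun _ => sum_nonneg fun _ _ => by positivity)
    _ = Δ * Real.sqrt ((#A : ℝ) * #B) *
        (Real.sqrt (∑ a ∈ A, ‖α a‖ ^ 2) * Real.sqrt (∑ b ∈ B, ‖β b‖ ^ 2)) := by
        rw [← hB, ← hβ, Real.sqrt_mul hA0]
        ring

theorem card_char (p : ℕ) [Fact p.Prime] :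
    (#(univ : Finset (DirichletCharacter ℂ p)) : ℝ) ≤ p := by
  have h1 : Nat.card (DirichletCharacter ℂ p) = p.totient :=
    DirichletCharacter.card_eq_totient_of_hasEnoughRootsOfUnity ℂ p
  have h2 : #(univ : Finset (DirichletCharacter ℂ p)) ≤ p := by
    rw [Finset.card_univ, ← Nat.card_eq_fintype_card, h1]
    exact Nat.totient_le p
  exact_mod_cast h2

/-- the case `#A ≤ #B` -/
theorem main {C₀ : ℝ} (hC₀ : 1 ≤ C₀) {p : ℕ} [Fact p.Prime] {A B : Finset (ZMod p)}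
    {k : ℕ} {Δ : ℝ} (hk : 1 ≤ k) (hΔ : 0 < Δ) (hΔ1 : Δ ≤ 1)
    (hB4 : ∀ A' B' : Finset (ZMod p), A'.Nonempty → B'.Nonempty →
      256 * (#A' * #B') < p → 4 ≤ Δ ^ 4 * (#A' : ℝ) → 4 ≤ Δ ^ 4 * (#B' : ℝ) →
      ∃ E : Finset (DirichletCharacter ℂ p),
        (#E : ℝ) ≤ C₀ ^ k * (1 + Real.log p) ^ 4 * (Δ ^ (8 * k))⁻¹ *
          (p : ℝ) ^ ((1 / 2 : ℝ) ^ k) * ((p : ℝ) / (#A' * #B')) ∧
        ∀ χ ∉ E, NB χ A' B' (Δ * Real.sqrt ((#A' : ℝ) * #B')))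
    (hA : A.Nonempty) (hB : B.Nonempty) (hAB : #A ≤ #B) (hmin : 4 ≤ Δ ^ 4 * (#A : ℝ)) :
    ∃ E : Finset (DirichletCharacter ℂ p),
        (#E : ℝ) ≤ (10240 ^ 2 * C₀) ^ k * (1 + Real.log p) ^ 4 * (Δ ^ (8 * k + 2))⁻¹ *
          (p : ℝ) ^ ((1 / 2 : ℝ) ^ k) * max 1 ((p : ℝ) / (#A * #B)) ∧
        ∀ χ ∉ E, NB χ A B (Δ * Real.sqrt ((#A : ℝ) * #B)) := by
  classical
  have hpp : p.Prime := Fact.out
  have hp1 : (1 : ℝ) ≤ p := by exact_mod_cast hpp.one_lt.le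
  have hp0 : (0 : ℝ) < p := by linarith
  have hlog : 0 ≤ Real.log p := Real.log_nonneg hp1
  set L : ℝ := (1 + Real.log p) ^ 4 with hL
  have hL1 : 1 ≤ L := one_le_pow₀ (by linarith)
  set h : ℝ := (p : ℝ) ^ ((1 / 2 : ℝ) ^ k) with hh
  have hh1 : 1 ≤ h := Real.one_le_rpow hp1 (by positivity)
  have hCk : 1 ≤ C₀ ^ k := one_le_pow₀ hC₀
  have hKk : (10240 ^ 2 : ℝ) ≤ (10240 ^ 2 : ℝ) ^ k := le_self_pow₀ (by norm_num) (by omega)
  set D : ℝ := (Δ ^ (8 * k))⁻¹ with hD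
  have hD1 : 1 ≤ D := (one_le_inv₀ (by positivity)).mpr (pow_le_one₀ hΔ.le hΔ1)
  have hD2 : (Δ ^ (8 * k + 2))⁻¹ = D * (Δ ^ 2)⁻¹ := by rw [hD, pow_add, mul_inv]
  have hΔ2 : 1 ≤ (Δ ^ 2)⁻¹ := (one_le_inv₀ (by positivity)).mpr (pow_le_one₀ hΔ.le hΔ1)
  have hD10 : (Δ ^ 10)⁻¹ ≤ D * (Δ ^ 2)⁻¹ := by
    rw [← hD2]
    refine inv_anti₀ (by positivity) ?_
    exact pow_le_pow_of_le_one hΔ.le hΔ1 (by omega)
  have hAc : 1 ≤ #A := hA.card_pos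
  have hBc : 1 ≤ #B := hB.card_pos
  have hAr : (1 : ℝ) ≤ #A := by exact_mod_cast hAc
  have hBr : (1 : ℝ) ≤ #B := by exact_mod_cast hBc
  have hABr : (#A : ℝ) ≤ #B := by exact_mod_cast hAB
  have hminB : 4 ≤ Δ ^ 4 * (#B : ℝ) :=
    hmin.trans (mul_le_mul_of_nonneg_left hABr (by positivity))
  rw [hD2]
  set n : ℝ := (#A : ℝ) * #B with hn
  have hn1 : 1 ≤ n := by nlinarith
  have hn0 : 0 < n := by linarith
  -- the constant factor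
  set Z : ℝ := C₀ ^ k * L * D * h with hZ
  have hZ1 : 1 ≤ Z := by
    have h2 : 1 ≤ C₀ ^ k * L := one_le_mul_of_one_le_of_one_le hCk hL1
    have h3 : 1 ≤ C₀ ^ k * L * D := one_le_mul_of_one_le_of_one_le h2 hD1
    exact one_le_mul_of_one_le_of_one_le h3 hh1
  have hZ0 : 0 < Z := by linarith
  have hmax : (1 : ℝ) ≤ max 1 ((p : ℝ) / n) := le_max_left _ _
  have key : ∀ x : ℝ, x ≤ 10240 ^ 2 * Z * (Δ ^ 2)⁻¹ * max 1 ((p : ℝ) / n) →
      x ≤ (10240 ^ 2 * C₀) ^ k * L * (D * (Δ ^ 2)⁻¹) * h * max 1 ((p : ℝ) / n) := by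
    intro x hx
    refine hx.trans ?_
    calc 10240 ^ 2 * Z * (Δ ^ 2)⁻¹ * max 1 ((p : ℝ) / n)
        ≤ (10240 ^ 2) ^ k * Z * (Δ ^ 2)⁻¹ * max 1 ((p : ℝ) / n) := by gcongr
      _ = _ := by
        rw [hZ, mul_pow]
        ring
  by_cases hc : 256 * (#A * #B) < p
  · obtain ⟨E, hE, hE2⟩ := hB4 A B hA hB hc hmin hminB
    refine ⟨E, key _ ?_, hE2⟩
    calc (#E : ℝ) ≤ Z * ((p : ℝ) / n) := hE
      _ ≤ Z * max 1 ((p : ℝ) / n) := mul_le_mul_of_nonneg_left (le_max_right _ _) hZ0.le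
      _ ≤ (10240 ^ 2 * (Δ ^ 2)⁻¹) * (Z * max 1 ((p : ℝ) / n)) :=
          le_mul_of_one_le_left (by positivity) (by nlinarith)
      _ = _ := by ring
  have hnp : (p : ℝ) ≤ 256 * n := by
    have h1 : p ≤ 256 * (#A * #B) := not_lt.1 hc
    rw [hn]
    exact_mod_cast h1
  have key2 : ∀ x : ℝ, x ≤ 10240 ^ 2 * Z * (Δ ^ 2)⁻¹ →
      x ≤ (10240 ^ 2 * C₀) ^ k * L * (D * (Δ ^ 2)⁻¹) * h * max 1 ((p : ℝ) / n) :=
    fun x hx => key x (hx.trans (le_mul_of_one_le_right (by positivity) hmax))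
  by_cases hc2 : (p : ℝ) ≤ Δ ^ 2 * n
  · refine ⟨{1}, key2 _ ?_, ?_⟩
    · rw [card_singleton, Nat.cast_one]
      have h1 : 1 ≤ Z * (Δ ^ 2)⁻¹ := one_le_mul_of_one_le_of_one_le hZ1 hΔ2
      nlinarith
    · intro χ hχ
      have hχ1 : χ ≠ 1 := by simpa using hχ
      refine SP.FINSP.nb_mono χ A B ?_ (SP.FINSP.nb_sqrt χ hχ1 A B)
      rw [Real.sqrt_le_left (by positivity), mul_pow, Real.sq_sqrt hn0.le]
      exact hc2
  push Not at hc2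
  have hAn : (#A : ℝ) ^ 2 ≤ n := by
    rw [hn, sq]
    exact mul_le_mul_of_nonneg_left hABr (by linarith)
  by_cases hc4 : Δ ^ 10 * p ≤ 10240 ^ 2
  · refine ⟨univ, key _ ((card_char p).trans ?_), fun χ hχ => absurd (mem_univ χ) hχ⟩
    have h5 : (p : ℝ) ≤ 10240 ^ 2 * (Δ ^ 10)⁻¹ := by
      rw [← div_eq_mul_inv, le_div_iff₀ (by positivity)]
      linarith
    have h6 : (Δ ^ 10)⁻¹ ≤ Z * (Δ ^ 2)⁻¹ := by
      refine hD10.trans (mul_le_mul_of_nonneg_right ?_ (by positivity))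
      rw [hZ]
      have h7 : 1 ≤ C₀ ^ k * L := one_le_mul_of_one_le_of_one_le hCk hL1
      have h8 : D ≤ C₀ ^ k * L * D := le_mul_of_one_le_left (by linarith) h7
      exact h8.trans (le_mul_of_one_le_right (by positivity) hh1)
    calc (p : ℝ) ≤ 10240 ^ 2 * (Δ ^ 10)⁻¹ := h5
      _ ≤ 10240 ^ 2 * (Z * (Δ ^ 2)⁻¹) := mul_le_mul_of_nonneg_left h6 (by norm_num)
      _ ≤ (10240 ^ 2 * (Z * (Δ ^ 2)⁻¹)) * max 1 ((p : ℝ) / n) :=
          le_mul_of_one_le_right (by positivity) hmax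
      _ = _ := by ring
  push Not at hc4
  have hAp : (#A : ℝ) ^ 2 * Δ ^ 2 < p := by nlinarith [sq_nonneg Δ]
  have hc3 : 2560 * (#A : ℝ) < p := by
    have h1 : Δ ^ 10 ≤ Δ ^ 2 := pow_le_pow_of_le_one hΔ.le hΔ1 (by norm_num)
    have h2 : (10240 : ℝ) ^ 2 < Δ ^ 2 * p := hc4.trans_le (mul_le_mul_of_nonneg_right h1 hp0.le)
    have h3 : (2560 * (#A : ℝ)) ^ 2 < (p : ℝ) ^ 2 := by
      have h4 : (#A : ℝ) ^ 2 * Δ ^ 2 * 10240 ^ 2 ≤ p * (Δ ^ 2 * p) :=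
        mul_le_mul hAp.le h2.le (by positivity) hp0.le
      have h5 : ((#A : ℝ) * 10240) ^ 2 ≤ p ^ 2 := by
        have h6 : 0 < Δ ^ 2 := by positivity
        refine le_of_mul_le_mul_right ?_ h6
        calc ((#A : ℝ) * 10240) ^ 2 * Δ ^ 2 = (#A : ℝ) ^ 2 * Δ ^ 2 * 10240 ^ 2 := by ring
          _ ≤ p * (Δ ^ 2 * p) := h4
          _ = (p : ℝ) ^ 2 * Δ ^ 2 := by ring
      have h7 : (2560 * (#A : ℝ)) ^ 2 = ((#A : ℝ) * 10240) ^ 2 / 16 := by ring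
      have h8 : 0 < (p : ℝ) ^ 2 := by positivity
      rw [h7]
      linarith
    exact lt_of_pow_lt_pow_left₀ 2 hp0.le h3
  -- cut `B`
  set t : ℕ := ⌈1024 * n / p⌉₊ with htdef
  have hx : 4 ≤ 1024 * n / p := by
    rw [le_div_iff₀ hp0]
    linarith
  have ht1 : 1024 * n / p ≤ t := Nat.le_ceil _
  have ht2 : (t : ℝ) ≤ 1280 * n / p := by
    have h1 := Nat.ceil_lt_add_one (by linarith : 0 ≤ 1024 * n / p)
    have e : 1280 * n / p = 1024 * n / p + (1024 * n / p) / 4 := by ring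
    rw [e]
    linarith
  have ht0 : (0 : ℝ) < t := by linarith
  have htn : t ≠ 0 := by
    intro h0
    rw [h0] at ht0
    simp at ht0
  have htB : t ≤ #B := by
    have h1 : (t : ℝ) ≤ #B := by
      refine ht2.trans ?_
      rw [div_le_iff₀ hp0, hn]
      nlinarith
    exact_mod_cast h1
  have ht3 : (t : ℝ) ≤ 1280 * (Δ ^ 2)⁻¹ := by
    refine ht2.trans ?_
    rw [← div_eq_mul_inv, div_le_div_iff₀ hp0 (by positivity)]
    nlinarith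
  obtain ⟨Q, hQ, hQc⟩ := Finpartition.exists_equipartition_card_eq B htn htB
  have hlow : ∀ B' ∈ Q.parts, (p : ℝ) ≤ 2560 * (#A * #B') := by
    intro B' hB'
    have hB'1 : 1 ≤ #B' := (Q.nonempty_of_mem_parts hB').card_pos
    have hB'r : (1 : ℝ) ≤ #B' := by exact_mod_cast hB'1
    have h1 := hQ.average_le_card_part hB'
    rw [hQc] at h1
    have h2 : (#B : ℝ) / t ≤ #B' + 1 := by
      have h3 : ((#B / t : ℕ) : ℝ) ≤ #B' := by exact_mod_cast h1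
      have h4 : (#B : ℝ) / t < ((#B / t : ℕ) : ℝ) + 1 := by
        rw [div_lt_iff₀ ht0]
        have h5 : #B < (#B / t + 1) * t := by
          rw [Nat.add_mul, one_mul]
          exact Nat.lt_div_mul_add (Nat.pos_of_ne_zero htn)
        exact_mod_cast h5
      linarith
    have h3 : (p : ℝ) ≤ 1280 * (#A * (#B / t)) := by
      have e : (#A : ℝ) * (#B / t) = n / t := by rw [hn]; ring
      rw [e, ← mul_div_assoc, le_div_iff₀ ht0]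
      rw [le_div_iff₀ hp0] at ht2
      linarith
    have h4 : (#A : ℝ) * (#B / t) ≤ #A * (#B' + 1) := mul_le_mul_of_nonneg_left h2 (by linarith)
    have h5 : (#A : ℝ) * (#B' + 1) ≤ #A * #B' + #A := by linarith
    nlinarith
  have hminB' : ∀ B' ∈ Q.parts, 4 ≤ Δ ^ 4 * (#B' : ℝ) := by
    intro B' hB'
    by_contra hcon
    push Not at hcon
    have h1 := hlow B' hB'
    have h2 : Δ ^ 4 * p < 10240 * #A := by
      have h3 : Δ ^ 4 * p ≤ Δ ^ 4 * (2560 * (#A * #B')) :=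
        mul_le_mul_of_nonneg_left h1 (by positivity)
      have h4 : (#A : ℝ) * (Δ ^ 4 * #B') < #A * 4 := mul_lt_mul_of_pos_left hcon (by linarith)
      nlinarith
    have h3 : (Δ ^ 4 * p) ^ 2 * Δ ^ 2 ≤ (10240 * #A) ^ 2 * Δ ^ 2 :=
      mul_le_mul_of_nonneg_right (pow_le_pow_left₀ (by positivity) h2.le 2) (by positivity)
    have h4 : (Δ ^ 4 * p) ^ 2 * Δ ^ 2 = (Δ ^ 10 * p) * p := by ring
    have h5 : (10240 * (#A : ℝ)) ^ 2 * Δ ^ 2 = 10240 ^ 2 * (#A ^ 2 * Δ ^ 2) := by ring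
    rw [h4, h5] at h3
    have h6 : (10240 : ℝ) ^ 2 * p < Δ ^ 10 * p * p := mul_lt_mul_of_pos_right hc4 hp0
    nlinarith
  have hpart : ∀ B' ∈ Q.parts, 256 * (#A * #B') < p := by
    intro B' hB'
    have h1 := hQ.card_part_le_average_add_one hB'
    rw [hQc] at h1
    have h2 : (#B' : ℝ) ≤ #B / t + 1 := by
      have h3 : (#B' : ℝ) ≤ ((#B / t : ℕ) : ℝ) + 1 := by exact_mod_cast h1
      have h4 : ((#B / t : ℕ) : ℝ) ≤ (#B : ℝ) / t := Nat.cast_div_le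
      linarith
    have h3 : (#A : ℝ) * (#B / t) ≤ p / 1024 := by
      have e : (#A : ℝ) * (#B / t) = n / t := by rw [hn]; ring
      rw [e, div_le_div_iff₀ ht0 (by norm_num)]
      rw [div_le_iff₀ hp0] at ht1
      linarith
    have h4 : (#A : ℝ) * #B' ≤ p / 512 := by
      calc (#A : ℝ) * #B' ≤ #A * (#B / t + 1) := mul_le_mul_of_nonneg_left h2 (by linarith)
        _ = #A * (#B / t) + #A := by ring
        _ ≤ p / 1024 + p / 2560 := by linarith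
        _ ≤ p / 512 := by linarith
    have h5 : ((256 * (#A * #B') : ℕ) : ℝ) < p := by
      push_cast
      linarith
    exact_mod_cast h5
  have hex : ∀ B' ∈ Q.parts, ∃ E : Finset (DirichletCharacter ℂ p), (#E : ℝ) ≤ Z * 2560 ∧
      ∀ χ ∉ E, NB χ A B' (Δ * Real.sqrt ((#A : ℝ) * #B')) := by
    intro B' hB'
    have hB'r : (1 : ℝ) ≤ #B' := by exact_mod_cast (Q.nonempty_of_mem_parts hB').card_pos
    obtain ⟨E, hE, hE2⟩ := hB4 A B' hA (Q.nonempty_of_mem_parts hB') (hpart B' hB') hmin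
      (hminB' B' hB')
    refine ⟨E, hE.trans (mul_le_mul_of_nonneg_left ?_ hZ0.le), hE2⟩
    rw [div_le_iff₀ (by positivity)]
    exact hlow B' hB'
  choose! E hE1 hE2 using hex
  refine ⟨Q.parts.biUnion E, key2 _ ?_, ?_⟩
  · calc (#(Q.parts.biUnion E) : ℝ) ≤ ∑ B' ∈ Q.parts, (#(E B') : ℝ) := by
          exact_mod_cast card_biUnion_le
      _ ≤ ∑ B' ∈ Q.parts, Z * 2560 := sum_le_sum hE1
      _ = t * (Z * 2560) := by rw [sum_const, hQc, nsmul_eq_mul]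
      _ ≤ (1280 * (Δ ^ 2)⁻¹) * (Z * 2560) := mul_le_mul_of_nonneg_right ht3 (by positivity)
      _ ≤ 10240 ^ 2 * Z * (Δ ^ 2)⁻¹ := by
          have : 0 < Z * (Δ ^ 2)⁻¹ := by positivity
          nlinarith
  · intro χ hχ
    refine nb_parts Q hΔ.le fun B' hB' => hE2 B' hB' χ fun hmem => hχ ?_
    exact mem_biUnion.2 ⟨B', hB', hmem⟩

end FIN4

theorem finalOP4 (hB : SpecBAD4) : FinalOP4 := by
  obtain ⟨C₀, hC₀, hB4⟩ := hB
  refine ⟨10240 ^ 2 * C₀, by nlinarith, ?_⟩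
  intro p _ A B hA hB k Δ hk hΔ hΔ1 hmin
  have hΔ4 : 0 < Δ ^ 4 := by positivity
  have hmA : 4 ≤ Δ ^ 4 * (#A : ℝ) :=
    hmin.trans (mul_le_mul_of_nonneg_left (min_le_left _ _) hΔ4.le)
  have hmB : 4 ≤ Δ ^ 4 * (#B : ℝ) :=
    hmin.trans (mul_le_mul_of_nonneg_left (min_le_right _ _) hΔ4.le)
  have hB5 : ∀ A' B' : Finset (ZMod p), A'.Nonempty → B'.Nonempty →
      256 * (#A' * #B') < p → 4 ≤ Δ ^ 4 * (#A' : ℝ) → 4 ≤ Δ ^ 4 * (#B' : ℝ) →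
      ∃ E : Finset (DirichletCharacter ℂ p),
        (#E : ℝ) ≤ C₀ ^ k * (1 + Real.log p) ^ 4 * (Δ ^ (8 * k))⁻¹ *
          (p : ℝ) ^ ((1 / 2 : ℝ) ^ k) * ((p : ℝ) / (#A' * #B')) ∧
        ∀ χ ∉ E, NB χ A' B' (Δ * Real.sqrt ((#A' : ℝ) * #B')) := by
    intro A' B' h1 h2 h3 h4 h5
    refine hB4 p A' B' h1 h2 h3 k Δ hk hΔ hΔ1 ?_
    rcases min_choice (#A' : ℝ) #B' with h | h <;> rw [h] <;> assumption
  rcases le_total #A #B with hAB | hAB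
  · exact FIN4.main hC₀ hk hΔ hΔ1 hB5 hA hB hAB hmA
  · obtain ⟨E, h1, h2⟩ := FIN4.main hC₀ hk hΔ hΔ1 hB5 hB hA hAB hmB
    refine ⟨E, ?_, fun χ hχ => ?_⟩
    · rw [mul_comm (#A : ℝ)]
      exact h1
    · rw [mul_comm (#A : ℝ)]
      exact FIN4.nb_swap (h2 χ hχ)

end MPcb27.RU2
end

section
/-!
# MP_cb27ba_nt, project RU: assembly
-/
set_option autoImplicit false

namespace MPcb27.RU2

/-- theorem OP4 -/
theorem theoremOP4 : FinalOP4 :=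
  finalOP4 (specBAD4 (specITE4 (specSTEP4 (specTXB4 RU.rudnev))) specMOM specFOUR4 specINJ)

end MPcb27.RU2
end
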